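import Pool.Agent.Helper67.Bass.Gen1

/-!
# Fields generated by few elements
-/

set_option autoImplicit false
set_option linter.style.haveILetI false
set_option linter.unusedSectionVars false

namespace Pool.Agent.Helper67.Bass

open Function
open scoped Polynomial

universe u v w

/-- transcendence degree at most one over `F_p` -/
theorem kronecker_of_trdeg (p : ℕ) [Fact p.Prime] (L : Type u) [Field L] [Algebra (ZMod p) L]
    (h : ∀ x y : L, ¬ AlgebraicIndependent (ZMod p) ![x, y]) : KroneckerLeOne L := by
  right
  refine ⟨p, Fact.out, ?_, ?_⟩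
  · have := congrArg (algebraMap (ZMod p) L) (ZMod.natCast_self p)
    rwa [map_natCast, map_zero] at this
  · intro x y
    have h1 := h x y
    rw [algebraicIndependent_iff] at h1
    push Not at h1
    obtain ⟨G, hG, hG0⟩ := h1
    obtain ⟨F, hF⟩ := MvPolynomial.map_surjective (σ := Fin 2) (Int.castRingHom (ZMod p))
      (ZMod.ringHom_surjective _) G
    refine ⟨F, ?_, ?_⟩
    · intro hdvd
      rw [MvPolynomial.C_dvd_iff_map_hom_eq_zero (Int.castRingHom (ZMod p)) (p : ℤ)] at hdvd
      · exact hG0 (hF ▸ hdvd)
      · intro a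
        rw [eq_intCast]
        exact ZMod.intCast_zmod_eq_zero_iff_dvd a p
    · rw [← hF, MvPolynomial.aeval_def, MvPolynomial.eval₂_map] at hG
      rw [MvPolynomial.aeval_def, ← hG]
      congr 1
      exact RingHom.ext_int _ _

theorem rational_of_gen_aux2 (k : Type) [Field k] (L : Type u) [Field L] [Algebra k L]
    (H : ∀ (L' : Type u) [Field L'] [Algebra k L'], (∀ x : L', IsAlgebraic k x) →
      KroneckerLeOne L') {s : ℕ} (t : Fin s → L)
    (ht : ∀ x : L, ∃ f g : MvPolynomial (Fin s) k, MvPolynomial.aeval t g ≠ 0 ∧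
      x * MvPolynomial.aeval t g = MvPolynomial.aeval t f)
    (H2 : ¬ AlgebraicIndependent k t → KroneckerLeOne L) :
    RationalOverKroneckerLeOne L := by
  by_cases htr : AlgebraicIndependent k t
  · let F : Subfield L := (algebraMap k L).fieldRange
    letI : Algebra k F := (algebraMap k L).rangeRestrictField.toAlgebra
    haveI : IsScalarTower k F L := IsScalarTower.of_algebraMap_eq (fun _ => rfl)
    have hsurj : Surjective (algebraMap k F) := (algebraMap k L).rangeRestrictField_bijective.2
    haveI : Algebra.IsAlgebraic k F := ⟨fun x => by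
      obtain ⟨y, rfl⟩ := hsurj x
      exact isAlgebraic_algebraMap y⟩
    have hF : KroneckerLeOne F := H F (fun x => Algebra.IsAlgebraic.isAlgebraic x)
    have htF : AlgebraicIndependent F t := by
      rw [algebraicIndependent_iff]
      intro f hf
      obtain ⟨g, rfl⟩ := MvPolynomial.map_surjective (σ := Fin s) (algebraMap k F) hsurj f
      rw [MvPolynomial.aeval_map_algebraMap] at hf
      rw [algebraicIndependent_iff.1 htr g hf, map_zero]
    refine ⟨F, s, t, hF, htF, ?_⟩
    rw [eq_top_iff]
    intro x _
    have hmem : ∀ f : MvPolynomial (Fin s) k,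
        MvPolynomial.aeval t f ∈ IntermediateField.adjoin F (Set.range t) := by
      intro f
      have h2 : MvPolynomial.aeval t (MvPolynomial.map (algebraMap k F) f) =
          MvPolynomial.aeval t f := MvPolynomial.aeval_map_algebraMap F t f
      rw [← h2]
      have h3 : MvPolynomial.aeval t (MvPolynomial.map (algebraMap k F) f) ∈
          Algebra.adjoin F (Set.range t) := by
        rw [Algebra.adjoin_range_eq_range_aeval]
        exact ⟨_, rfl⟩
      exact IntermediateField.algebra_adjoin_le_adjoin F _ h3
    obtain ⟨f, g, hg, hx⟩ := ht x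
    have h3 : x = MvPolynomial.aeval t f / MvPolynomial.aeval t g := by
      rw [← hx, mul_div_cancel_right₀ _ hg]
    rw [h3]
    exact div_mem (hmem f) (hmem g)
  · exact (H2 htr).ratSmall

/-- the transcendence degree is smaller than the number of generators when these are dependent -/
theorem trdeg_lt (k : Type) [Field k] (L : Type u) [Field L] [Algebra k L] {s : ℕ} (t : Fin s → L)
    (ht : ∀ x : L, ∃ f g : MvPolynomial (Fin s) k, MvPolynomial.aeval t g ≠ 0 ∧
      x * MvPolynomial.aeval t g = MvPolynomial.aeval t f)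
    (hdep : ¬ AlgebraicIndependent k t) {n : ℕ} (y : Fin n → L) (hy : AlgebraicIndependent k y) :
    n < s := by
  have halg : Algebra.IsAlgebraic (Algebra.adjoin k (Set.range t)) L := by
    constructor
    intro x
    obtain ⟨f, g, hg, hx⟩ := ht x
    have hmem : ∀ f : MvPolynomial (Fin s) k,
        MvPolynomial.aeval t f ∈ Algebra.adjoin k (Set.range t) := by
      intro f
      rw [Algebra.adjoin_range_eq_range_aeval]; exact ⟨f, rfl⟩
    refine ⟨Polynomial.C ⟨_, hmem g⟩ * Polynomial.X - Polynomial.C ⟨_, hmem f⟩, ?_, ?_⟩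
    · intro h0
      have h1 := congrArg (fun q => Polynomial.coeff q 1) h0
      simp only [Polynomial.coeff_sub, Polynomial.coeff_C_mul, Polynomial.coeff_X_one, mul_one,
        Polynomial.coeff_C_succ, sub_zero, Polynomial.coeff_zero] at h1
      exact hg (congrArg Subtype.val h1)
    · rw [map_sub, map_mul, Polynomial.aeval_C, Polynomial.aeval_X, Polynomial.aeval_C]
      show MvPolynomial.aeval t g * x - MvPolynomial.aeval t f = 0
      rw [← hx]; ring
  obtain ⟨b, hb, hbas⟩ := exists_isTranscendenceBasis_subset (R := k) (Set.range t)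
  have hfin : b.Finite := (Set.finite_range t).subset hb
  have hcard : n ≤ b.ncard := by
    have h1 : (n : Cardinal.{u}) ≤ Algebra.trdeg k L := by
      simpa using hy.lift_cardinalMk_le_trdeg
    have h2 : (b.ncard : Cardinal.{u}) = Algebra.trdeg k L := by
      rw [Set.cast_ncard hfin]; exact hbas.cardinalMk_eq_trdeg
    exact_mod_cast h1.trans h2.ge
  have hle : b.ncard ≤ (Set.range t).ncard := Set.ncard_le_ncard hb (Set.finite_range t)
  have hle2 : (Set.range t).ncard ≤ s := by
    rw [← Set.image_univ]
    refine (Set.ncard_image_le (Set.toFinite _)).trans ?_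
    rw [Set.ncard_univ, Nat.card_fin]
  by_contra hcon
  have e1 : b.ncard = (Set.range t).ncard := by omega
  have e2 : (Set.range t).ncard = s := by omega
  have e3 : b = Set.range t := Set.eq_of_subset_of_ncard_le hb (by omega) (Set.finite_range t)
  have hinj : Injective t := by
    have h5 : (t '' Set.univ).ncard = (Set.univ : Set (Fin s)).ncard := by
      rw [Set.image_univ, e2, Set.ncard_univ, Nat.card_fin]
    have h6 := Set.injOn_of_ncard_image_eq h5 (Set.toFinite _)
    exact Set.injOn_univ.1 h6
  apply hdep
  have h7 := hbas.1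
  subst e3
  exact (algebraicIndependent_subtype_range hinj).1 h7

/-- a field generated by one element, or by two elements in positive characteristic -/
theorem rational_of_gens (L : Type u) [Field L] {s : ℕ} (t : Fin s → L)
    (hs : s ≤ 1 ∨ (s ≤ 2 ∧ ¬ CharZero L))
    (ht : ∀ x : L, ∃ f g : MvPolynomial (Fin s) ℤ, MvPolynomial.aeval t g ≠ 0 ∧
      x * MvPolynomial.aeval t g = MvPolynomial.aeval t f) :
    RationalOverKroneckerLeOne L := by
  have hmap : ∀ (k : Type) [Field k] [Algebra k L] (f : MvPolynomial (Fin s) ℤ),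
      MvPolynomial.aeval t (MvPolynomial.map (Int.castRingHom k) f) = MvPolynomial.aeval t f := by
    intro k _ _ f
    rw [MvPolynomial.aeval_def, MvPolynomial.eval₂_map, MvPolynomial.aeval_def]
    congr 1
    exact RingHom.ext_int _ _
  have ht' : ∀ (k : Type) [Field k] [Algebra k L] (x : L), ∃ f g : MvPolynomial (Fin s) k,
      MvPolynomial.aeval t g ≠ 0 ∧ x * MvPolynomial.aeval t g = MvPolynomial.aeval t f := by
    intro k _ _ x
    obtain ⟨f, g, hg, hx⟩ := ht x
    exact ⟨MvPolynomial.map (Int.castRingHom k) f, MvPolynomial.map (Int.castRingHom k) g,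
      by rwa [hmap], by rw [hmap, hmap, hx]⟩
  rcases CharP.exists' L with h0 | ⟨p, hp, hpc⟩
  · have hs1 : s ≤ 1 := by
      rcases hs with h | ⟨_, h⟩
      · exact h
      · exact absurd h0 h
    have H : ∀ (L' : Type u) [Field L'] [Algebra ℚ L'], (∀ x : L', IsAlgebraic ℚ x) →
        KroneckerLeOne L' := by
      intro L' _ _ h
      haveI : CharZero L' := charZero_of_injective_algebraMap (algebraMap ℚ L').injective
      apply kronecker_of_alg0
      intro x
      exact (IsFractionRing.isAlgebraic_iff ℤ ℚ L').2 (h x)
    refine rational_of_gen_aux2 ℚ L H t (ht' ℚ) (fun hdep => H L (fun x => ?_))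
    by_contra hx
    have h1 : AlgebraicIndependent ℚ ![x] := algebraicIndependent_iff_transcendental.2 hx
    have := trdeg_lt ℚ L t (ht' ℚ) hdep ![x] h1
    omega
  · haveI := hp
    letI : Algebra (ZMod p) L := ZMod.algebra L p
    have hs2 : s ≤ 2 := by
      rcases hs with h | ⟨h, _⟩ <;> omega
    have H : ∀ (L' : Type u) [Field L'] [Algebra (ZMod p) L'], (∀ x : L', IsAlgebraic (ZMod p) x) →
        KroneckerLeOne L' := fun L' _ _ h => kronecker_of_algp p L' h
    refine rational_of_gen_aux2 (ZMod p) L H t (ht' (ZMod p)) (fun hdep => ?_)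
    apply kronecker_of_trdeg p L
    intro x y hxy
    have := trdeg_lt (ZMod p) L t (ht' (ZMod p)) hdep ![x, y] hxy
    omega

end Pool.Agent.Helper67.Bass
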