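import Pool.Agent.Helper67.Bass.Wt

/-!
# Bilinear hypersurfaces with coefficients in a polynomial ring graded with small corank
-/

set_option autoImplicit false
set_option linter.style.haveILetI false
set_option linter.unusedSectionVars false

namespace Pool.Agent.Helper67.Bass

open Function MvPolynomial Pool.Agent.Helper11

universe v

theorem finiteType_int (A : Type) [CommRing A] (alg : Algebra ℤ A)
    (h : @Algebra.FiniteType ℤ A _ _ alg) : @Algebra.FiniteType ℤ A _ _ (Ring.toIntAlgebra A) := by
  have h1 : alg = Ring.toIntAlgebra A := Subsingleton.elim _ _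
  rw [← h1]
  exact h

theorem finiteType_mv (r m : ℕ) :
    @Algebra.FiniteType ℤ (MvPolynomial (Fin r) (ZMod m)) _ _ (Ring.toIntAlgebra _) := by
  apply finiteType_int (MvPolynomial (Fin r) (ZMod m))
  haveI : Algebra.FiniteType ℤ (ZMod m) := ⟨⊥, by
    rw [Finset.bot_eq_empty, Finset.coe_empty, Algebra.adjoin_empty, eq_top_iff]
    intro x _
    obtain ⟨n, rfl⟩ := ZMod.intCast_surjective x
    exact intCast_mem _ n⟩
  infer_instance

theorem noeth_int (A : Type) [CommRing A]
    (h : @Algebra.FiniteType ℤ A _ _ (Ring.toIntAlgebra A)) : IsNoetherianRing A :=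
  Algebra.FiniteType.isNoetherianRing ℤ A

attribute [local instance] MvPolynomial.weightedGradedAlgebra

variable {ι : Type v} [AddCommGroup ι] [LinearOrder ι] [IsOrderedAddMonoid ι] {r : ℕ}
  (w : Fin r → ι)

theorem base_good (m : ℕ)
    (hw : Module.finrank ℤ (LinearMap.ker (Fintype.linearCombination ℤ w)) ≤
      if m = 0 then 1 else 2) :
    ∀ I : Ideal (MvPolynomial (Fin r) (ZMod m)),
      I.IsHomogeneous (weightedHomogeneousSubmodule (ZMod m) w) →
      FinGn (MvPolynomial (Fin r) (ZMod m) ⧸ I) := by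
  haveI := finiteType_mv r m
  exact finGn_graded_quotient (weightedHomogeneousSubmodule (ZMod m) w)
    (fun P _ _ => base_rational w m hw _ (toFrac P))

theorem bilinear_fg (m : ℕ)
    (hw : Module.finrank ℤ (LinearMap.ker (Fintype.linearCombination ℤ w)) ≤
      if m = 0 then 1 else 2)
    (S : Set (MvPolynomial (Fin r) (ZMod m))) (hS : ∀ s ∈ S, ∃ d, IsWeightedHomogeneous w s d)
    {b c : ℕ} (φ : Fin b → Fin c → MvPolynomial (Fin r) (ZMod m)) (α : Fin b → ι) (β : Fin c → ι)
    (hφ : ∀ k j, IsWeightedHomogeneous w (φ k j) (β j - α k)) :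
    FinGn (MvPolynomial (Fin b) (MvPolynomial (Fin c) (MvPolynomial (Fin r) (ZMod m))) ⧸
      Ideal.span ((fun s => C (C s)) '' S ∪ {bilForm φ})) := by
  haveI : IsNoetherianRing (MvPolynomial (Fin r) (ZMod m)) :=
    noeth_int (MvPolynomial (Fin r) (ZMod m)) (finiteType_mv r m)
  have hI : (Ideal.span S).IsHomogeneous (weightedHomogeneousSubmodule (ZMod m) w) :=
    Ideal.homogeneous_span _ _ hS
  have h1 := finGn_bilinear (weightedHomogeneousSubmodule (ZMod m) w) (base_good w m hw) φ α β hφ
    (Ideal.span S) hI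
  have h2 : (((Ideal.span S).map (C : _ →+* MvPolynomial (Fin c) (MvPolynomial (Fin r) (ZMod m)))).map
      (C : _ →+* MvPolynomial (Fin b) (MvPolynomial (Fin c) (MvPolynomial (Fin r) (ZMod m)))) ⊔
      Ideal.span {bilForm φ}) = Ideal.span ((fun s => C (C s)) '' S ∪ {bilForm φ}) := by
    rw [Ideal.map_span, Ideal.map_span, Ideal.span_union, Set.image_image]
  rwa [h2] at h1

end Pool.Agent.Helper67.Bass
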