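import Pool.Agent.Helper67.Bass.Lin

/-!
# Linear systems and bilinear hypersurfaces over a graded ring
-/

set_option autoImplicit false
set_option linter.style.haveILetI false
set_option linter.unusedSectionVars false

namespace Pool.Agent.Helper67.Bass

open Function MvPolynomial

universe u v w

variable {ι : Type v} [AddCommGroup ι] [DecidableEq ι] {A : Type u}
  [CommRing A] {σ' : Type w} [SetLike σ' A] [AddSubgroupClass σ' A] (𝒜 : ι → σ') [GradedRing 𝒜]

/-- linear systems with homogeneous coefficients -/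
theorem finGn_linear [IsNoetherianRing A]
    (hgood : ∀ I : Ideal A, I.IsHomogeneous 𝒜 → FinGn (A ⧸ I)) (n : ℕ) :
    ∀ (σ : Type) [Fintype σ] [DecidableEq σ], Fintype.card σ = n → ∀ (κ : Type) (φ : κ → σ → A)
      (α : κ → ι) (β : σ → ι), (∀ k j, φ k j ∈ 𝒜 (β j - α k)) →
      ∀ I : Ideal A, I.IsHomogeneous 𝒜 → FinGn (MvPolynomial σ A ⧸ LI I φ) := by
  induction n with
  | zero =>
    intro σ _ _ hσ κ φ α β hφ I hI
    have : IsEmpty σ := Fintype.card_eq_zero_iff.1 hσ
    exact finGn_zero I φ (fun k j => isEmptyElim j) (hgood I hI)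
  | succ n ih =>
    intro σ _ _ hσ κ φ α β hφ I
    refine IsNoetherian.induction (R := A) (M := A)
      (P := fun I : Ideal A => I.IsHomogeneous 𝒜 → FinGn (MvPolynomial σ A ⧸ LI I φ)) ?_ I
    intro (I : Ideal A) ihI hI
    by_cases h : ∀ k j, φ k j ∈ I
    · exact finGn_zero I φ h (hgood I hI)
    · push Not at h
      obtain ⟨k0, j0, hkj⟩ := h
      have hs : SetLike.IsHomogeneousElem 𝒜 (φ k0 j0) := ⟨_, hφ k0 j0⟩
      have hlt : I < I ⊔ Ideal.span {φ k0 j0} := by
        refine lt_of_le_of_ne le_sup_left (fun h2 => hkj ?_)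
        rw [h2]
        exact Ideal.mem_sup_right (Ideal.mem_span_singleton_self _)
      have hhom : (I ⊔ Ideal.span {φ k0 j0}).IsHomogeneous 𝒜 := by
        apply Ideal.IsHomogeneous.sup hI
        apply Ideal.homogeneous_span
        intro x hx
        rw [Set.mem_singleton_iff] at hx
        rw [hx]; exact hs
      apply finGn_pivot I φ k0 j0 (ihI _ hlt hhom)
      have hcard : Fintype.card {l : σ // l ≠ j0} = n := by
        rw [Fintype.card_subtype_compl, Fintype.card_subtype_eq, hσ]; rfl
      refine ih {l : σ // l ≠ j0} hcard κ (elim φ k0 j0) α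
        (fun l => β l + (β j0 - α k0)) ?_ I hI
      intro k l
      unfold elim
      apply sub_mem
      · have := SetLike.GradedMul.mul_mem (hφ k0 j0) (hφ k l)
        have e : β l + (β j0 - α k0) - α k = (β j0 - α k0) + (β l - α k) := by abel
        rw [e]; exact this
      · have := SetLike.GradedMul.mul_mem (hφ k j0) (hφ k0 l)
        have e : β l + (β j0 - α k0) - α k = (β j0 - α k) + (β l - α k0) := by abel
        rw [e]; exact this

/-- the bilinear form with matrix `φ` -/
noncomputable def bilForm {κ σ : Type} [Fintype κ] [Fintype σ] (φ : κ → σ → A) :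
    MvPolynomial κ (MvPolynomial σ A) :=
  ∑ k, C (∑ j, C (φ k j) * X j) * X k

theorem finGn_bilinear [IsNoetherianRing A]
    (hgood : ∀ I : Ideal A, I.IsHomogeneous 𝒜 → FinGn (A ⧸ I))
    {σ κ : Type} [Fintype σ] [DecidableEq σ] [Fintype κ] [DecidableEq κ] (φ : κ → σ → A)
    (α : κ → ι) (β : σ → ι) (hφ : ∀ k j, φ k j ∈ 𝒜 (β j - α k))
    (I : Ideal A) (hI : I.IsHomogeneous 𝒜) :
    FinGn (MvPolynomial κ (MvPolynomial σ A) ⧸ ((I.map C).map C ⊔ Ideal.span {bilForm φ})) := by
  classical
  let row : κ → MvPolynomial σ A := fun k => ∑ j, C (φ k j) * X j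
  let J : Finset κ → Ideal (MvPolynomial σ A) := fun S => I.map C ⊔ Ideal.span (row '' S)
  let ψ : Unit → κ → MvPolynomial σ A := fun _ k => row k
  have hJ : ∀ S, FinGn (MvPolynomial σ A ⧸ J S) := by
    intro S
    have h1 := finGn_linear 𝒜 hgood (Fintype.card σ) σ rfl {k : κ // k ∈ S} (fun k => φ k)
      (fun k => α k) β (fun k j => hφ k j) I hI
    have h2 : LI I (fun k : {k : κ // k ∈ S} => φ k) = J S := by
      unfold LI
      show _ ⊔ Ideal.span _ = _ ⊔ Ideal.span _
      congr 2
      ext x
      constructor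
      · rintro ⟨k, rfl⟩; exact ⟨k, k.2, rfl⟩
      · rintro ⟨k, hk, rfl⟩; exact ⟨⟨k, hk⟩, rfl⟩
    rwa [h2] at h1
  have key : ∀ (n : ℕ) (S : Finset κ), (Finset.univ \ S).card = n →
      FinGn (MvPolynomial κ (MvPolynomial σ A) ⧸ LI (J S) ψ) := by
    intro n
    induction n with
    | zero =>
      intro S hS
      apply finGn_zero _ _ _ (hJ S)
      intro _ k
      have hk : k ∈ S := by
        rw [Finset.card_eq_zero, Finset.sdiff_eq_empty_iff_subset] at hS
        exact hS (Finset.mem_univ k)
      exact Ideal.mem_sup_right (Ideal.subset_span ⟨k, hk, rfl⟩)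
    | succ n ih =>
      intro S hS
      obtain ⟨k0, hk0⟩ : ∃ k0, k0 ∈ Finset.univ \ S := by
        rw [← Finset.Nonempty, ← Finset.card_pos, hS]; omega
      have hk0S : k0 ∉ S := (Finset.mem_sdiff.1 hk0).2
      apply finGn_pivot (J S) ψ () k0
      · have e : J S ⊔ Ideal.span {ψ () k0} = J (insert k0 S) := by
          show (_ ⊔ Ideal.span _) ⊔ Ideal.span {row k0} =
            _ ⊔ Ideal.span (row '' ((insert k0 S : Finset κ)))
          rw [Finset.coe_insert, Set.image_insert_eq, Ideal.span_insert, sup_assoc,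
            sup_comm (Ideal.span {row k0})]
        rw [e]
        apply ih
        have : (Finset.univ \ insert k0 S) = (Finset.univ \ S).erase k0 := by
          ext x; simp only [Finset.mem_sdiff, Finset.mem_univ, Finset.mem_insert,
            Finset.mem_erase, true_and]; tauto
        rw [this, Finset.card_erase_of_mem hk0, hS]; rfl
      · apply finGn_zero _ _ _ (hJ S)
        intro _ l
        have : elim ψ () k0 () l = 0 := by unfold elim; ring
        rw [this]; exact zero_mem _
  have h3 := key _ ∅ rfl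
  have h4 : LI (J ∅) ψ = (I.map C).map C ⊔ Ideal.span {bilForm φ} := by
    unfold LI
    have : J ∅ = I.map C := by simp [J]
    rw [this]
    congr 2
    ext x
    constructor
    · rintro ⟨_, rfl⟩; rfl
    · rintro rfl; exact ⟨(), rfl⟩
  rwa [h4] at h3

end Pool.Agent.Helper67.Bass
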