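import Mathlib

/-!
# Bilinear forms with polynomial coefficients
-/

set_option autoImplicit false

namespace Pool.Agent.Helper67.Bass

open MvPolynomial

/-- the rank of the lattice of all integer vectors `n` with `∑ n_i w_i = 0` -/
noncomputable def relRank {ι : Type} [AddCommGroup ι] {r : ℕ} (w : Fin r → ι) : ℕ :=
  Module.finrank ℤ (LinearMap.ker (Fintype.linearCombination ℤ w))

/-- The polynomial `∑ φ i j (x) y_i z_j` in the variables `y_0, …`, `z_0, …`, `x_0, …`. -/
noncomputable def bilin {k : Type} [CommRing k] {b c r : ℕ}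
    (φ : Fin b → Fin c → MvPolynomial (Fin r) k) : MvPolynomial (Fin b ⊕ Fin c ⊕ Fin r) k :=
  ∑ i, ∑ j, rename (fun l => Sum.inr (Sum.inr l)) (φ i j) * X (Sum.inl i) * X (Sum.inr (Sum.inl j))

/-- The ring of polynomials in `y`, `z`, `x` modulo the polynomials of the set `S`, which involve
`x` only, and the bilinear form `∑ φ i j (x) y_i z_j`. -/
abbrev BilinRing {k : Type} [CommRing k] {b c r : ℕ} (S : Set (MvPolynomial (Fin r) k))
    (φ : Fin b → Fin c → MvPolynomial (Fin r) k) : Type :=
  MvPolynomial (Fin b ⊕ Fin c ⊕ Fin r) k ⧸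
    Ideal.span (rename (fun l => Sum.inr (Sum.inr l)) '' S ∪ {bilin φ})

end Pool.Agent.Helper67.Bass
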