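import Pool.Agent.Helper67.Bass.Main2
import Pool.Agent.Helper67.Bass.Defs2

/-!
# Bilinear hypersurfaces, in flat coordinates
-/

set_option autoImplicit false
set_option linter.style.haveILetI false
set_option linter.unusedSectionVars false

namespace Pool.Agent.Helper67.Bass

open Function MvPolynomial Pool.Agent.Helper11

section flat

variable {k : Type} [CommRing k] (b c r : ℕ)

/-- flat and nested polynomial rings -/
noncomputable def flatEquiv : MvPolynomial (Fin b ⊕ Fin c ⊕ Fin r) k ≃+*
    MvPolynomial (Fin b) (MvPolynomial (Fin c) (MvPolynomial (Fin r) k)) :=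
  (sumRingEquiv k (Fin b) (Fin c ⊕ Fin r)).trans
    (mapEquiv (Fin b) (sumRingEquiv k (Fin c) (Fin r)))

variable {b c r}

theorem flat_y (i : Fin b) : flatEquiv (k := k) b c r (X (Sum.inl i)) = X i := by
  unfold flatEquiv
  rw [RingEquiv.trans_apply, sumRingEquiv_X_inl]
  show MvPolynomial.map _ (X i) = _
  rw [map_X]

theorem flat_z (j : Fin c) : flatEquiv (k := k) b c r (X (Sum.inr (Sum.inl j))) = C (X j) := by
  unfold flatEquiv
  rw [RingEquiv.trans_apply, sumRingEquiv_X_inr]
  show MvPolynomial.map _ (C _) = _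
  rw [map_C]
  congr 1
  exact sumRingEquiv_X_inl k (Fin c) (Fin r) j

theorem flat_x (p : MvPolynomial (Fin r) k) :
    flatEquiv (k := k) b c r (rename (fun l => Sum.inr (Sum.inr l)) p) = C (C p) := by
  have h : ((flatEquiv (k := k) b c r).toRingHom.comp
      (rename (fun l => Sum.inr (Sum.inr l)) :
        MvPolynomial (Fin r) k →ₐ[k] MvPolynomial (Fin b ⊕ Fin c ⊕ Fin r) k).toRingHom) =
      (C : _ →+* MvPolynomial (Fin b) (MvPolynomial (Fin c) (MvPolynomial (Fin r) k))).comp C := by
    apply MvPolynomial.ringHom_ext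
    · intro a
      show flatEquiv b c r (rename _ (C a)) = C (C (C a))
      rw [rename_C]
      unfold flatEquiv
      rw [RingEquiv.trans_apply, sumRingEquiv_C]
      show MvPolynomial.map _ (C _) = _
      rw [map_C]
      congr 1
      exact sumRingEquiv_C k (Fin c) (Fin r) a
    · intro l
      show flatEquiv b c r (rename _ (X l)) = C (C (X l))
      rw [rename_X]
      unfold flatEquiv
      rw [RingEquiv.trans_apply, sumRingEquiv_X_inr]
      show MvPolynomial.map _ (C _) = _
      rw [map_C]
      congr 1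
      exact sumRingEquiv_X_inr k (Fin c) (Fin r) l
  exact RingHom.congr_fun h p

theorem flat_bilin (φ : Fin b → Fin c → MvPolynomial (Fin r) k) :
    flatEquiv (k := k) b c r (bilin φ) = bilForm φ := by
  unfold bilin bilForm
  rw [map_sum]
  refine Finset.sum_congr rfl (fun i _ => ?_)
  rw [map_sum, map_sum, Finset.sum_mul]
  refine Finset.sum_congr rfl (fun j _ => ?_)
  rw [map_mul, map_mul, flat_x, flat_y, flat_z, map_mul]
  ring

/-- the flat and nested coordinate rings -/
noncomputable def flatQuot (S : Set (MvPolynomial (Fin r) k))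
    (φ : Fin b → Fin c → MvPolynomial (Fin r) k) :
    (MvPolynomial (Fin b) (MvPolynomial (Fin c) (MvPolynomial (Fin r) k)) ⧸
      Ideal.span ((fun s => C (C s)) '' S ∪ {bilForm φ})) ≃+* BilinRing S φ :=
  (Ideal.quotientEquiv (Ideal.span (rename (fun l => Sum.inr (Sum.inr l)) '' S ∪ {bilin φ}))
    (Ideal.span ((fun s => C (C s)) '' S ∪ {bilForm φ})) (flatEquiv b c r) (by
      rw [Ideal.map_span, Set.image_union, Set.image_singleton, Set.image_image]
      congr 2
      · ext x
        constructor
        · rintro ⟨s, hs, rfl⟩; exact ⟨s, hs, flat_x s⟩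
        · rintro ⟨s, hs, rfl⟩; exact ⟨s, hs, (flat_x s).symm⟩
      · rw [← flat_bilin]; rfl)).symm

end flat

theorem bilinear_flat_fg {ι : Type} [AddCommGroup ι] [LinearOrder ι] [IsOrderedAddMonoid ι]
    (m : ℕ) {r b c : ℕ} (w : Fin r → ι) (hw : relRank w ≤ if m = 0 then 1 else 2)
    (S : Set (MvPolynomial (Fin r) (ZMod m))) (hS : ∀ s ∈ S, ∃ d, IsWeightedHomogeneous w s d)
    (φ : Fin b → Fin c → MvPolynomial (Fin r) (ZMod m)) (α : Fin b → ι) (β : Fin c → ι)
    (hφ : ∀ k j, IsWeightedHomogeneous w (φ k j) (β j - α k)) : FinGn (BilinRing S φ) :=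
  FinGn.of_equiv (flatQuot S φ) (bilinear_fg w m hw S hS φ α β hφ)

end Pool.Agent.Helper67.Bass
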