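import Pool.Agent.Helper67.Bass.Two3

/-!
# Localisation away from an element
-/

set_option autoImplicit false
set_option linter.style.haveILetI false
set_option linter.unusedSectionVars false

namespace Pool.Agent.Helper67.Bass

open Pool.Agent.Helper11 Pool.Agent.Helper83.Bass Function TensorProduct

universe u

section lat

variable {R V : Type u} [CommRing R] [CommRing V] [Algebra R V] (s : R)

/-- `E` is a lattice in `X`: a map which is an isomorphism up to `s`-torsion -/
structure Lat (X : FGMod V) (E : FGMod R) : Type u where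
  j : E →+ X
  smul : ∀ (r : R) (e : E), j (r • e) = algebraMap R V r • j e
  tors : ∀ e : E, j e = 0 → ∃ n : ℕ, s ^ n • e = 0
  abs : ∀ x : X, ∃ (n : ℕ) (e : E), algebraMap R V s ^ n • x = j e

end lat

section tors

variable {R : Type u} [CommRing R] [IsNoetherianRing R] {P : FGMod R → Prop} (hP : Two3 P) (s : R)
include hP

lemma tors_pow (h : ∀ M, KilledBy (Ideal.span {s}) M → P M) (n : ℕ) (M : FGMod R)
    (hM : ∀ m : M, s ^ n • m = 0) : P M := by
  induction n generalizing M with
  | zero => exact hP.zero M ⟨fun x y => by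
      have h1 := hM x; have h2 := hM y
      rw [pow_zero, one_smul] at h1 h2
      rw [h1, h2]⟩
  | succ n ih =>
    let N : Submodule R M := LinearMap.range (LinearMap.lsmul R M s)
    refine hP.of_submodule M N (ih _ ?_) (h _ ?_)
    · rintro ⟨_, m, rfl⟩
      apply Subtype.ext
      change s ^ n • (s • m) = 0
      rw [← mul_smul, ← pow_succ]
      exact hM m
    · intro t ht m
      obtain ⟨r, rfl⟩ := Ideal.mem_span_singleton'.1 ht
      obtain ⟨m, rfl⟩ := Submodule.mkQ_surjective _ m
      rw [← map_smul, Submodule.mkQ_apply, Submodule.Quotient.mk_eq_zero]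
      exact ⟨r • m, by change s • (r • m) = (r * s) • m; rw [← mul_smul, mul_comm]⟩

lemma tors_all (h : ∀ M, KilledBy (Ideal.span {s}) M → P M) (M : FGMod R)
    (hM : ∀ m : M, ∃ n : ℕ, s ^ n • m = 0) : P M := by
  obtain ⟨S, hS⟩ := (inferInstance : Module.Finite R M).fg_top
  choose d hd using hM
  refine tors_pow hP s h (S.sup d) M (fun x => ?_)
  have hx : x ∈ Submodule.span R (S : Set M) := by rw [hS]; trivial
  induction hx using Submodule.span_induction with
  | mem x h =>
      have hle : d x ≤ S.sup d := Finset.le_sup h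
      rw [← Nat.sub_add_cancel hle, pow_add, mul_smul, hd x, smul_zero]
  | zero => rw [smul_zero]
  | add x y _ _ hx hy => rw [smul_add, hx, hy, add_zero]
  | smul r x _ hx => rw [smul_comm, hx, smul_zero]

/-- a map with torsion kernel and cokernel -/
lemma tors_map (h : ∀ M, KilledBy (Ideal.span {s}) M → P M) (M N : FGMod R) (f : M →ₗ[R] N)
    (hk : ∀ m, f m = 0 → ∃ n : ℕ, s ^ n • m = 0) (hc : ∀ x, ∃ (n : ℕ) (m : M), s ^ n • x = f m) :
    P M ↔ P N := by
  have hker : P (FGMod.of R (LinearMap.ker f)) := tors_all hP s h _ (by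
    rintro ⟨m, hm⟩
    obtain ⟨n, hn⟩ := hk m hm
    exact ⟨n, Subtype.ext hn⟩)
  have hcok : P (FGMod.of R (N ⧸ LinearMap.range f)) := tors_all hP s h _ (by
    intro x
    obtain ⟨x, rfl⟩ := Submodule.mkQ_surjective _ x
    obtain ⟨n, m, hm⟩ := hc x
    refine ⟨n, ?_⟩
    rw [← map_smul, Submodule.mkQ_apply, Submodule.Quotient.mk_eq_zero, hm]
    exact ⟨m, rfl⟩)
  have e1 : Injective (LinearMap.ker f).subtype := (LinearMap.ker f).subtype_injective
  have e2 : Surjective f.rangeRestrict := f.surjective_rangeRestrict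
  have e3 : Exact (LinearMap.ker f).subtype f.rangeRestrict := by
    intro x
    constructor
    · intro hx
      refine ⟨⟨x, ?_⟩, rfl⟩
      have := congrArg Subtype.val hx
      simpa using this
    · rintro ⟨y, rfl⟩
      apply Subtype.ext
      simp
  constructor
  · intro hM
    have h1 : P (FGMod.of R (LinearMap.range f)) :=
      hP.coker (FGMod.of R (LinearMap.ker f)) M (FGMod.of R (LinearMap.range f)) _ _ e1 e2 e3
        hker hM
    exact hP.of_submodule N _ h1 hcok
  · intro hN
    have h1 : P (FGMod.of R (LinearMap.range f)) :=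
      hP.ker (FGMod.of R (LinearMap.range f)) N (FGMod.of R (N ⧸ LinearMap.range f))
        (LinearMap.range f).subtype (LinearMap.range f).mkQ
        (LinearMap.range f).subtype_injective (LinearMap.range f).mkQ_surjective
        (LinearMap.exact_subtype_mkQ _) hN hcok
    exact hP.ext (FGMod.of R (LinearMap.ker f)) M (FGMod.of R (LinearMap.range f)) _ _ e1 e2 e3
      hker h1

end tors

section main

variable {R V : Type u} [CommRing R] [IsNoetherianRing R] [CommRing V] [Algebra R V] {s : R}

lemma exists_lat (hfrac : ∀ v : V, ∃ (n : ℕ) (r : R), algebraMap R V s ^ n * v = algebraMap R V r)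
    (X : FGMod V) : ∃ E : FGMod R, Nonempty (Lat s X E) := by
  letI : Module R X := Module.compHom X (algebraMap R V)
  have hsm : ∀ (r : R) (x : X), r • x = algebraMap R V r • x := fun _ _ => rfl
  obtain ⟨S, hS⟩ := (inferInstance : Module.Finite V X).fg_top
  let N : Submodule R X := Submodule.span R (S : Set X)
  haveI : Module.Finite R N := Module.Finite.iff_fg.mpr ⟨S, rfl⟩
  refine ⟨FGMod.of R N, ⟨
    { j := N.subtype.toAddMonoidHom
      smul := fun r e => rfl
      tors := fun e he => ⟨0, ?_⟩
      abs := fun x => ?_ }⟩⟩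
  · rw [pow_zero, one_smul]
    exact Subtype.ext he
  · have hx : x ∈ Submodule.span V (S : Set X) := by rw [hS]; trivial
    have key : ∃ n : ℕ, algebraMap R V s ^ n • x ∈ N := by
      induction hx using Submodule.span_induction with
      | mem x h => exact ⟨0, by rw [pow_zero, one_smul]; exact Submodule.subset_span h⟩
      | zero => exact ⟨0, by rw [smul_zero]; exact N.zero_mem⟩
      | add x y _ _ hx hy =>
          obtain ⟨n, hn⟩ := hx
          obtain ⟨m, hm⟩ := hy
          refine ⟨n + m, ?_⟩
          rw [smul_add]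
          refine N.add_mem ?_ ?_
          · rw [pow_add, mul_comm, mul_smul, ← map_pow]
            exact N.smul_mem (s ^ m) hn
          · rw [pow_add, mul_smul, ← map_pow]
            exact N.smul_mem (s ^ n) hm
      | smul v x _ hx =>
          obtain ⟨n, hn⟩ := hx
          obtain ⟨m, r, hr⟩ := hfrac v
          refine ⟨n + m, ?_⟩
          rw [← mul_smul]
          have : algebraMap R V s ^ (n + m) * v =
              algebraMap R V r * algebraMap R V s ^ n := by
            rw [pow_add, mul_assoc, hr, mul_comm]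
          rw [this, mul_smul]
          exact N.smul_mem r hn
    obtain ⟨n, hn⟩ := key
    exact ⟨n, ⟨_, hn⟩, rfl⟩

variable {P : FGMod R → Prop} (hP : Two3 P) (ht : ∀ M, KilledBy (Ideal.span {s}) M → P M)
include hP ht

lemma lat_unique {X : FGMod V} {E E' : FGMod R} (l : Lat s X E) (l' : Lat s X E') (h : P E) :
    P E' := by
  letI : Module R X := Module.compHom X (algebraMap R V)
  have hsm : ∀ (r : R) (x : X), r • x = algebraMap R V r • x := fun _ _ => rfl
  let J : E →ₗ[R] X := { l.j with map_smul' := l.smul }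
  let J' : E' →ₗ[R] X := { l'.j with map_smul' := l'.smul }
  let N : Submodule R X := LinearMap.range J ⊔ LinearMap.range J'
  haveI : Module.Finite R N := by
    haveI h1 : Module.Finite R (LinearMap.range J) := inferInstance
    haveI h2 : Module.Finite R (LinearMap.range J') := inferInstance
    exact Submodule.finite_sup _ _
  let L : FGMod R := FGMod.of R N
  have hpow : ∀ (n : ℕ) (x : X), s ^ n • x = algebraMap R V s ^ n • x := by
    intro n x
    rw [hsm, map_pow]
  have h1 : P E ↔ P L := by
    refine tors_map hP s ht E L (J.codRestrict N (fun e => Submodule.mem_sup_left ⟨e, rfl⟩)) ?_ ?_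
    · intro e he
      exact l.tors e (congrArg Subtype.val he)
    · rintro ⟨x, hx⟩
      obtain ⟨n, e, hn⟩ := l.abs x
      exact ⟨n, e, Subtype.ext ((hpow n x).trans hn)⟩
  have h2 : P E' ↔ P L := by
    refine tors_map hP s ht E' L (J'.codRestrict N (fun e => Submodule.mem_sup_right ⟨e, rfl⟩)) ?_ ?_
    · intro e he
      exact l'.tors e (congrArg Subtype.val he)
    · rintro ⟨x, hx⟩
      obtain ⟨n, e, hn⟩ := l'.abs x
      exact ⟨n, e, Subtype.ext ((hpow n x).trans hn)⟩
  exact h2.2 (h1.1 h)

omit hP ht in
/-- lattices in a short exact sequence -/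
lemma lat_exact {X' X X'' : FGMod V} {f : X' →ₗ[V] X} {g : X →ₗ[V] X''} (hf : Injective f)
    (hg : Surjective g) (hfg : Exact f g) {E : FGMod R} (l : Lat s X E) :
    ∃ (E' E'' : FGMod R) (a : E' →ₗ[R] E) (b : E →ₗ[R] E''), Injective a ∧ Surjective b ∧
      Exact a b ∧ Nonempty (Lat s X' E') ∧ Nonempty (Lat s X'' E'') := by
  letI : Module R X := Module.compHom X (algebraMap R V)
  letI : Module R X'' := Module.compHom X'' (algebraMap R V)
  have hsm : ∀ (r : R) (x : X), r • x = algebraMap R V r • x := fun _ _ => rfl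
  have hsm'' : ∀ (r : R) (x : X''), r • x = algebraMap R V r • x := fun _ _ => rfl
  let J : E →ₗ[R] X'' :=
    { toFun := fun e => g (l.j e)
      map_add' := fun x y => by rw [map_add, map_add]
      map_smul' := fun r x => by rw [l.smul, map_smul]; rfl }
  let K : Submodule R E := LinearMap.ker J
  have hK : ∀ e : K, ∃ x' : X', f x' = l.j e := by
    rintro ⟨e, he⟩
    exact (hfg (l.j e)).1 he
  choose φ hφ using hK
  refine ⟨FGMod.of R K, FGMod.of R (LinearMap.range J), K.subtype, J.rangeRestrict,
    K.subtype_injective, J.surjective_rangeRestrict, ?_, ⟨?_⟩, ⟨?_⟩⟩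
  · intro x
    constructor
    · intro hx
      refine ⟨⟨x, ?_⟩, rfl⟩
      have := congrArg Subtype.val hx
      exact this
    · rintro ⟨y, rfl⟩
      apply Subtype.ext
      exact y.2
  · exact
      { j :=
          { toFun := φ
            map_zero' := hf (by rw [hφ, map_zero]; exact map_zero l.j)
            map_add' := fun x y => hf (by
              rw [hφ, map_add, hφ, hφ]; exact map_add l.j _ _) }
        smul := fun r e => hf (by
          change f (φ (r • e)) = f (algebraMap R V r • φ e)
          rw [hφ, map_smul, hφ]; exact l.smul r _)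
        tors := fun e he => by
          have h1 : l.j e = 0 := by
            rw [← hφ]
            have : φ e = 0 := he
            rw [this, map_zero]
          obtain ⟨n, hn⟩ := l.tors _ h1
          exact ⟨n, Subtype.ext hn⟩
        abs := fun x => by
          obtain ⟨n, e, hn⟩ := l.abs (f x)
          have he : e ∈ K := by
            change g (l.j e) = 0
            rw [← hn, map_smul, (hfg (f x)).2 ⟨x, rfl⟩, smul_zero]
          refine ⟨n, ⟨e, he⟩, hf ?_⟩
          change f (algebraMap R V s ^ n • x) = f (φ ⟨e, he⟩)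
          rw [hφ, map_smul, hn] }
  · exact
      { j := (LinearMap.range J).subtype.toAddMonoidHom
        smul := fun r e => rfl
        tors := fun e he => ⟨0, by rw [pow_zero, one_smul]; exact Subtype.ext he⟩
        abs := fun x => by
          obtain ⟨x, rfl⟩ := hg x
          obtain ⟨n, e, hn⟩ := l.abs x
          refine ⟨n, ⟨J e, e, rfl⟩, ?_⟩
          change algebraMap R V s ^ n • g x = g (l.j e)
          rw [← hn, map_smul] }

/-- the class on `V`-modules induced by a class on `R`-modules -/
lemma two3_lat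
    (hfrac : ∀ v : V, ∃ (n : ℕ) (r : R), algebraMap R V s ^ n * v = algebraMap R V r) :
    Two3 (fun X : FGMod V => ∀ E : FGMod R, Lat s X E → P E) where
  iso X Y e h := fun E l => h E
    { j := (e.symm : Y →+ X).comp l.j
      smul := fun r x => by
        change e.symm (l.j (r • x)) = algebraMap R V r • e.symm (l.j x)
        rw [l.smul, map_smul]
      tors := fun x hx => l.tors x (by
        have : e.symm (l.j x) = 0 := hx
        exact (map_eq_zero_iff _ e.symm.injective).1 this)
      abs := fun x => by
        obtain ⟨n, y, hy⟩ := l.abs (e x)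
        refine ⟨n, y, ?_⟩
        change _ = e.symm (l.j y)
        rw [← hy, map_smul, e.symm_apply_apply] }
  ext X' X X'' f g hf hg hfg h1 h2 := fun E l => by
    obtain ⟨E', E'', a, b, ha, hb, hab, ⟨l'⟩, ⟨l''⟩⟩ := lat_exact hf hg hfg l
    exact hP.ext E' E E'' a b ha hb hab (h1 E' l') (h2 E'' l'')
  coker X' X X'' f g hf hg hfg h1 h2 := fun F m => by
    obtain ⟨E, ⟨l⟩⟩ := exists_lat (s := s) hfrac X
    obtain ⟨E', E'', a, b, ha, hb, hab, ⟨l'⟩, ⟨l''⟩⟩ := lat_exact hf hg hfg l
    exact lat_unique hP ht l'' m (hP.coker E' E E'' a b ha hb hab (h1 E' l') (h2 E l))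
  ker X' X X'' f g hf hg hfg h1 h2 := fun F m => by
    obtain ⟨E, ⟨l⟩⟩ := exists_lat (s := s) hfrac X
    obtain ⟨E', E'', a, b, ha, hb, hab, ⟨l'⟩, ⟨l''⟩⟩ := lat_exact hf hg hfg l
    exact lat_unique hP ht l' m (hP.ker E' E E'' a b ha hb hab (h1 E l) (h2 E'' l''))
  zero X hX := fun E l => by
    refine tors_all hP s ht E (fun e => l.tors e (Subsingleton.elim _ _))

omit hP ht in
/-- localisation -/
theorem FinGn.of_away [IsLocalization.Away s V] (h1 : FinGn (R ⧸ Ideal.span {s}))
    (h2 : FinGn V) : FinGn R := by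
  have hfrac : ∀ v : V, ∃ (n : ℕ) (r : R), algebraMap R V s ^ n * v = algebraMap R V r := by
    intro v
    obtain ⟨n, r, hr⟩ := IsLocalization.Away.surj s v
    exact ⟨n, r, by rw [mul_comm]; exact hr⟩
  obtain ⟨T, hT, hgT⟩ := h1
  obtain ⟨U, hU, hgU⟩ := h2
  choose L hL using fun X : FGMod V => exists_lat (R := R) (s := s) hfrac X
  refine ⟨restr (Ideal.Quotient.mk (Ideal.span {s})) Ideal.Quotient.mk_surjective '' T ∪
    L '' U, (hT.image _).union (hU.image _), ?_⟩
  intro P hP hN
  have h1 := hgT _ (hP.comap_restr (Ideal.Quotient.mk (Ideal.span {s}))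
    Ideal.Quotient.mk_surjective) (fun N hN' => hN _ (Or.inl ⟨N, hN', rfl⟩))
  have ht : ∀ M, KilledBy (Ideal.span {s}) M → P M := fun M hM =>
    restr_of_killed hP _ Ideal.Quotient.mk_surjective h1 M (by rw [Ideal.mk_ker]; exact hM)
  have h2 := hgU _ (two3_lat (V := V) hP ht hfrac) (by
    intro X hX E l
    obtain ⟨m⟩ := hL X
    exact lat_unique hP ht m l (hN _ (Or.inr ⟨X, hX, rfl⟩)))
  intro M
  refine h2 (bc R V M) M ?_
  haveI : IsLocalizedModule (Submonoid.powers s) (TensorProduct.mk R V M 1) := inferInstance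
  exact
    { j := (TensorProduct.mk R V M 1).toAddMonoidHom
      smul := fun r e => by
        change (1 : V) ⊗ₜ[R] (r • e) = algebraMap R V r • ((1 : V) ⊗ₜ[R] e)
        rw [TensorProduct.smul_tmul', smul_eq_mul, mul_one, Algebra.algebraMap_eq_smul_one,
          TensorProduct.smul_tmul]
      tors := fun e he => by
        obtain ⟨⟨_, n, rfl⟩, hn⟩ :=
          (IsLocalizedModule.eq_zero_iff (Submonoid.powers s) (TensorProduct.mk R V M 1)).1 he
        exact ⟨n, hn⟩
      abs := fun x => by
        obtain ⟨⟨m, ⟨_, n, rfl⟩⟩, hm⟩ :=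
          IsLocalizedModule.surj (Submonoid.powers s) (TensorProduct.mk R V M 1) x
        refine ⟨n, m, ?_⟩
        change _ = (1 : V) ⊗ₜ[R] m
        have h3 : s ^ n • x = (1 : V) ⊗ₜ[R] m := hm
        rw [← h3, ← map_pow, algebraMap_smul] }

omit hP ht [IsNoetherianRing R] in
/-- localisations inherit the property -/
theorem FinGn.away (s : R) [IsLocalization.Away s V] (h : FinGn R) : FinGn V := by
  haveI : Module.Flat R V := IsLocalization.flat V (Submonoid.powers s)
  have hfrac : ∀ v : V, ∃ (n : ℕ) (r : R), algebraMap R V s ^ n * v = algebraMap R V r := by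
    intro v
    obtain ⟨n, r, hr⟩ := IsLocalization.Away.surj s v
    exact ⟨n, r, by rw [mul_comm]; exact hr⟩
  obtain ⟨T, hT, hgT⟩ := h
  refine ⟨bc R V '' T, hT.image _, ?_⟩
  intro P hP hN
  have h1 := hgT _ (hP.comap_bc (R := R)) (fun N hN' => hN _ ⟨N, hN', rfl⟩)
  intro X
  letI : Module R X := Module.compHom X (algebraMap R V)
  haveI : IsScalarTower R V X := ⟨fun c v m => by
    rw [Algebra.smul_def, mul_smul]; rfl⟩
  obtain ⟨S, hS⟩ := (inferInstance : Module.Finite V X).fg_top
  let N : Submodule R X := Submodule.span R (S : Set X)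
  haveI : Module.Finite R N := Module.Finite.iff_fg.mpr ⟨S, rfl⟩
  let E : FGMod R := FGMod.of R N
  let q : bc R V E →ₗ[V] X := LinearMap.liftBaseChange V N.subtype
  have hq : ∀ (v : V) (n : N), q (v ⊗ₜ[R] n) = v • (n : X) := fun v n => by
    change (LinearMap.liftBaseChange V N.subtype) (v ⊗ₜ[R] n) = _
    rw [LinearMap.liftBaseChange_tmul]
    rfl
  have hsurj : Surjective q := by
    rw [← LinearMap.range_eq_top, eq_top_iff, ← hS, Submodule.span_le]
    intro x hx
    exact ⟨(1 : V) ⊗ₜ[R] (⟨x, Submodule.subset_span hx⟩ : N), by rw [hq, one_smul]⟩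
  have hu : IsUnit (algebraMap R V s) := IsLocalization.Away.algebraMap_isUnit s
  have hinj : Injective q := by
    rw [injective_iff_map_eq_zero]
    intro z hz
    haveI : IsLocalizedModule (Submonoid.powers s) (TensorProduct.mk R V E 1) := inferInstance
    obtain ⟨⟨m, ⟨_, n, rfl⟩⟩, hm⟩ :=
      IsLocalizedModule.surj (Submonoid.powers s) (TensorProduct.mk R V E 1) z
    have h3 : s ^ n • z = (1 : V) ⊗ₜ[R] m := hm
    have h4 : (m : X) = 0 := by
      have := congrArg q h3
      rw [hq, one_smul] at this
      rw [← this, ← algebraMap_smul V (s ^ n) z, map_smul, hz, smul_zero]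
    have h5 : m = 0 := Subtype.ext h4
    rw [h5, TensorProduct.tmul_zero, ← algebraMap_smul V (s ^ n) z, map_pow] at h3
    exact ((hu.pow n).smul_eq_zero).1 h3
  exact hP.iso (bc R V E) X (LinearEquiv.ofBijective q ⟨hinj, hsurj⟩) (h1 E)

end main

end Pool.Agent.Helper67.Bass
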