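import Pool.Agent.Helper67.Bass.HF
import Pool.Agent.Helper67.Bass.Away

/-!
# Subrings of fractions of a field
-/

set_option autoImplicit false
set_option linter.style.haveILetI false
set_option linter.unusedSectionVars false

namespace Pool.Agent.Helper67.Bass

open Function
open scoped nonZeroDivisors Polynomial

universe u v w

variable {K : Type u} [Field K]

/-- the subring of fractions `c / s ^ n` -/
def aw (C : Subring K) (s : K) (hs : s ∈ C) : Subring K where
  carrier := {v | ∃ n : ℕ, v * s ^ n ∈ C}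
  mul_mem' := by
    rintro v w ⟨n, hn⟩ ⟨m, hm⟩
    refine ⟨n + m, ?_⟩
    have : v * w * s ^ (n + m) = (v * s ^ n) * (w * s ^ m) := by rw [pow_add]; ring
    rw [this]; exact mul_mem hn hm
  one_mem' := ⟨0, by simp⟩
  add_mem' := by
    rintro v w ⟨n, hn⟩ ⟨m, hm⟩
    refine ⟨n + m, ?_⟩
    have : (v + w) * s ^ (n + m) = (v * s ^ n) * s ^ m + (w * s ^ m) * s ^ n := by
      rw [pow_add]; ring
    rw [this]; exact add_mem (mul_mem hn (pow_mem hs m)) (mul_mem hm (pow_mem hs n))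
  zero_mem' := ⟨0, by simp⟩
  neg_mem' := by
    rintro v ⟨n, hn⟩
    exact ⟨n, by rw [neg_mul]; exact neg_mem hn⟩

theorem le_aw {C : Subring K} {s : K} (hs : s ∈ C) : C ≤ aw C s hs :=
  fun c hc => ⟨0, by simpa using hc⟩

theorem inv_mem_aw {C : Subring K} {s : K} (hs : s ∈ C) (h0 : s ≠ 0) : s⁻¹ ∈ aw C s hs :=
  ⟨1, by rw [pow_one, inv_mul_cancel₀ h0]; exact one_mem C⟩

theorem aw_le {C D : Subring K} {s : K} (hs : s ∈ C) (h0 : s ≠ 0) (hC : C ≤ D) (hD : s⁻¹ ∈ D) :
    aw C s hs ≤ D := by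
  rintro v ⟨n, hn⟩
  have : v = (v * s ^ n) * (s⁻¹) ^ n := by
    rw [mul_assoc, ← mul_pow, mul_inv_cancel₀ h0, one_pow, mul_one]
  rw [this]
  exact mul_mem (hC hn) (pow_mem hD n)

theorem isLocAway {R : Type u} [CommRing R] (φ : R →+* K) (hφ : Injective φ) (s : R)
    (hs : φ s ≠ 0) (V : Subring K) (h1 : ∀ r, φ r ∈ V) (h2 : (φ s)⁻¹ ∈ V)
    (h3 : ∀ v ∈ V, ∃ (n : ℕ) (r : R), v * φ s ^ n = φ r) :
    letI := (φ.codRestrict V h1).toAlgebra
    IsLocalization.Away s V := by
  letI := (φ.codRestrict V h1).toAlgebra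
  have halg : ∀ r, ((algebraMap R V r : V) : K) = φ r := fun r => rfl
  show IsLocalization (Submonoid.powers s) V
  refine { map_units := ?_, surj := ?_, exists_of_eq := ?_ }
  · rintro ⟨_, n, rfl⟩
    rw [isUnit_iff_exists_inv]
    refine ⟨⟨(φ s)⁻¹ ^ n, pow_mem h2 n⟩, ?_⟩
    apply Subtype.ext
    show φ (s ^ n) * ((φ s)⁻¹ ^ n) = 1
    rw [map_pow, ← mul_pow, mul_inv_cancel₀ hs, one_pow]
  · rintro ⟨v, hv⟩
    obtain ⟨n, r, hr⟩ := h3 v hv
    refine ⟨(r, ⟨s ^ n, n, rfl⟩), ?_⟩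
    apply Subtype.ext
    show v * φ (s ^ n) = φ r
    rw [map_pow, hr]
  · intro x y hxy
    refine ⟨1, ?_⟩
    have := congrArg (Subtype.val) hxy
    have h4 : φ x = φ y := this
    rw [hφ h4]

/-- a subring of fractions of a finitely generated domain of dimension one which is a PID -/
theorem pid_aw (B : Subalgebra ℤ K) (hfg : B.FG) (hsm : KroneckerLeOne K ∨ ∃ F : Subfield K,
      (∀ b ∈ B, b ∈ F) ∧ KroneckerLeOne F) :
    ∃ (s : K) (hs : s ∈ B.toSubring), s ≠ 0 ∧ IsPrincipalIdealRing (aw B.toSubring s hs) := by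
  haveI : Algebra.FiniteType ℤ B := (Subalgebra.fg_iff_finiteType B).1 hfg
  have hsmall : KroneckerLeOne (FractionRing B) := by
    rcases hsm with h | ⟨F, hF, h⟩
    · exact KroneckerLeOne.of_hom (IsFractionRing.lift (A := B) (K := FractionRing B)
        (g := B.toSubring.subtype) Subtype.val_injective) h
    · let g : B →+* F := B.toSubring.subtype.codRestrict F (fun b => hF _ b.2)
      have hg : Injective g := by
        intro x y hxy
        exact Subtype.ext (congrArg (Subtype.val) hxy : _)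
      exact KroneckerLeOne.of_hom (IsFractionRing.lift (A := B) (K := FractionRing B) (g := g) hg) h
  obtain ⟨s, hs0, hpid⟩ := exists_pid B (FractionRing B) hsmall
  have hsK : (s : K) ≠ 0 := fun h => hs0 (Subtype.ext h)
  refine ⟨s, s.2, hsK, ?_⟩
  set V := aw B.toSubring (s : K) s.2 with hV
  let φ : B →+* K := B.toSubring.subtype
  have h1 : ∀ r, φ r ∈ V := fun r => le_aw _ r.2
  letI := (φ.codRestrict V h1).toAlgebra
  haveI : IsLocalization.Away s V := by
    apply isLocAway φ Subtype.val_injective s hsK V h1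
    · exact inv_mem_aw _ hsK
    · rintro v ⟨n, hn⟩
      exact ⟨n, ⟨_, hn⟩, rfl⟩
  let e := IsLocalization.algEquiv (Submonoid.powers s) (Localization.Away s) V
  exact IsPrincipalIdealRing.of_surjective (e : Localization.Away s →+* V) e.surjective

theorem finGn_laurent {ρ : ℕ} (B1 : Subring K) [IsNoetherianRing B1] (hB1 : FinGn B1)
    (u : Fin ρ → K) (hu : ∀ i, u i ≠ 0)
    (hind : Injective (MvPolynomial.eval₂Hom B1.subtype u : MvPolynomial (Fin ρ) B1 →+* K))
    (V : Subring K) (h1 : B1 ≤ V) (h2 : ∀ i, u i ∈ V) (h3 : ∀ i, (u i)⁻¹ ∈ V)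
    (h4 : ∀ v ∈ V, ∃ (n : ℕ) (f : MvPolynomial (Fin ρ) B1),
      v * (∏ i, u i) ^ n = MvPolynomial.eval₂ B1.subtype u f) : FinGn V := by
  set ψ : MvPolynomial (Fin ρ) B1 →+* K := MvPolynomial.eval₂Hom B1.subtype u with hψ
  let s : MvPolynomial (Fin ρ) B1 := ∏ i, MvPolynomial.X i
  have hs : ψ s = ∏ i, u i := by
    show ψ (∏ i, MvPolynomial.X i) = _
    rw [map_prod]
    refine Finset.prod_congr rfl (fun i _ => ?_)
    rw [hψ, MvPolynomial.eval₂Hom_X']
  have hs0 : ψ s ≠ 0 := by rw [hs]; exact Finset.prod_ne_zero_iff.2 (fun i _ => hu i)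
  have hV : ∀ f, ψ f ∈ V := by
    intro f
    induction f using MvPolynomial.induction_on with
    | C a => rw [hψ, MvPolynomial.eval₂Hom_C]; exact h1 a.2
    | add p q hp hq => rw [map_add]; exact add_mem hp hq
    | mul_X p i hp => rw [map_mul, hψ, MvPolynomial.eval₂Hom_X']; exact mul_mem hp (h2 i)
  letI := (ψ.codRestrict V hV).toAlgebra
  haveI : IsLocalization.Away s V := by
    apply isLocAway ψ hind s hs0 V hV
    · rw [hs, ← Finset.prod_inv_distrib]
      exact prod_mem (fun i _ => h3 i)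
    · intro v hv
      obtain ⟨n, f, hf⟩ := h4 v hv
      exact ⟨n, f, by rw [hs, hf]; rfl⟩
  exact FinGn.away s (hB1.mvPolynomial (Fin ρ))

theorem finGn_step {A : Type u} [CommRing A] [IsNoetherianRing A] (π : A →+* K) (s : A)
    (hs : π s ≠ 0)
    (hV : FinGn (aw π.range (π s) ⟨s, rfl⟩)) (hq : FinGn (A ⧸ (RingHom.ker π ⊔ Ideal.span {s}))) :
    FinGn (A ⧸ RingHom.ker π) := by
  set V := aw π.range (π s) ⟨s, rfl⟩ with hVdef
  let φ : A ⧸ RingHom.ker π →+* K := RingHom.kerLift π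
  have hφ : Injective φ := RingHom.kerLift_injective π
  have h1 : ∀ r, φ r ∈ V := by
    intro r
    obtain ⟨a, rfl⟩ := Ideal.Quotient.mk_surjective r
    exact le_aw _ ⟨a, rfl⟩
  letI := (φ.codRestrict V h1).toAlgebra
  haveI : IsLocalization.Away (Ideal.Quotient.mk (RingHom.ker π) s) V := by
    apply isLocAway φ hφ _ hs V h1
    · exact inv_mem_aw _ hs
    · rintro v ⟨n, a, ha⟩
      exact ⟨n, Ideal.Quotient.mk _ a, ha.symm⟩
  refine FinGn.of_away (s := Ideal.Quotient.mk (RingHom.ker π) s) (V := V) ?_ hV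
  have e1 : Ideal.span {Ideal.Quotient.mk (RingHom.ker π) s} =
      (Ideal.span {s}).map (Ideal.Quotient.mk (RingHom.ker π)) := by
    rw [Ideal.map_span, Set.image_singleton]
  rw [e1]
  exact FinGn.of_equiv (DoubleQuot.quotQuotEquivQuotSup (RingHom.ker π) (Ideal.span {s})).symm hq

end Pool.Agent.Helper67.Bass
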