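import Mathlib

/-!
# Homogeneous fractions of degree zero, and fields of Kronecker dimension at most one
-/

set_option autoImplicit false
set_option linter.unusedSectionVars false

namespace Pool.Agent.Helper67.Bass

open scoped Polynomial

universe u v w

/-- Kronecker dimension at most one. Either every element of the field `L` is a root of a primitive
polynomial with integer coefficients (so `L` is an algebraic extension of its prime field), or `L`
has prime characteristic `p` and any two elements `x`, `y` of `L` satisfy `F(x, y) = 0` for some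
`F ∈ ℤ[X, Y]` not divisible by `p` (so `L` has transcendence degree at most one over `𝔽_p`). -/
def KroneckerLeOne (L : Type u) [Field L] : Prop :=
  (∀ x : L, ∃ f : ℤ[X], f.IsPrimitive ∧ Polynomial.aeval x f = 0) ∨
  (∃ p : ℕ, p.Prime ∧ (p : L) = 0 ∧ ∀ x y : L, ∃ F : MvPolynomial (Fin 2) ℤ,
    ¬ (MvPolynomial.C (p : ℤ) ∣ F) ∧ MvPolynomial.aeval ![x, y] F = 0)

/-- `L` is a rational function field `F(t_1, …, t_n)`, `n ≥ 0`, over a subfield `F` of Kronecker
dimension at most one. -/
def RationalOverKroneckerLeOne (L : Type u) [Field L] : Prop :=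
  ∃ (F : Subfield L) (n : ℕ) (t : Fin n → L), KroneckerLeOne F ∧ AlgebraicIndependent F t ∧
    IntermediateField.adjoin F (Set.range t) = ⊤

/-- the map from a commutative ring `A` to the fraction field of `A ⧸ P`, `P` a prime ideal -/
noncomputable def toFrac {A : Type u} [CommRing A] (P : Ideal A) [P.IsPrime] :
    A →+* FractionRing (A ⧸ P) :=
  (algebraMap (A ⧸ P) (FractionRing (A ⧸ P))).comp (Ideal.Quotient.mk P)

variable {ι : Type v} [AddCommGroup ι] [DecidableEq ι] {A : Type u} [CommRing A]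
  {σ : Type w} [SetLike σ A] [AddSubgroupClass σ A] (𝒜 : ι → σ) [GradedRing 𝒜]
  {K : Type u} [Field K] (π : A →+* K)

/-- Let `A` be graded and `π : A → K` a ring homomorphism to a field. The element `x` of `K` is a
homogeneous fraction of degree `i`: `x = π(a)/π(b)` with `a`, `b` homogeneous,
`deg a = i + deg b`. -/
def HF (i : ι) (x : K) : Prop :=
  ∃ j : ι, ∃ a ∈ 𝒜 (i + j), ∃ b ∈ 𝒜 j, π b ≠ 0 ∧ x * π b = π a

variable {𝒜 π}

theorem HF.of_mem {i : ι} {a : A} (ha : a ∈ 𝒜 i) : HF 𝒜 π i (π a) :=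
  ⟨0, a, by rwa [add_zero], 1, SetLike.GradedOne.one_mem, by simp, by simp⟩

theorem HF.zero (i : ι) : HF 𝒜 π i (0 : K) := by
  have := HF.of_mem (𝒜 := 𝒜) (π := π) (i := i) (a := 0) (zero_mem _)
  rwa [map_zero] at this

theorem HF.one : HF 𝒜 π 0 (1 : K) := by
  have := HF.of_mem (𝒜 := 𝒜) (π := π) (i := 0) (a := 1) SetLike.GradedOne.one_mem
  rwa [map_one] at this

theorem HF.add {i : ι} {x y : K} (hx : HF 𝒜 π i x) (hy : HF 𝒜 π i y) : HF 𝒜 π i (x + y) := by
  obtain ⟨j, a, ha, b, hb, hb0, hab⟩ := hx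
  obtain ⟨j', a', ha', b', hb', hb0', hab'⟩ := hy
  refine ⟨j + j', a * b' + a' * b, ?_, b * b', SetLike.GradedMul.mul_mem hb hb', ?_, ?_⟩
  · apply add_mem
    · have := SetLike.GradedMul.mul_mem ha hb'
      rwa [add_assoc] at this
    · have := SetLike.GradedMul.mul_mem ha' hb
      rwa [add_assoc, add_comm j' j] at this
  · rw [map_mul]; exact mul_ne_zero hb0 hb0'
  · rw [map_mul, map_add, map_mul, map_mul, ← hab, ← hab']; ring

theorem HF.neg {i : ι} {x : K} (hx : HF 𝒜 π i x) : HF 𝒜 π i (-x) := by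
  obtain ⟨j, a, ha, b, hb, hb0, hab⟩ := hx
  exact ⟨j, -a, neg_mem ha, b, hb, hb0, by rw [neg_mul, hab, map_neg]⟩

theorem HF.mul {i i' : ι} {x y : K} (hx : HF 𝒜 π i x) (hy : HF 𝒜 π i' y) :
    HF 𝒜 π (i + i') (x * y) := by
  obtain ⟨j, a, ha, b, hb, hb0, hab⟩ := hx
  obtain ⟨j', a', ha', b', hb', hb0', hab'⟩ := hy
  refine ⟨j + j', a * a', ?_, b * b', SetLike.GradedMul.mul_mem hb hb', ?_, ?_⟩
  · have := SetLike.GradedMul.mul_mem ha ha'
    rwa [add_add_add_comm] at this
  · rw [map_mul]; exact mul_ne_zero hb0 hb0'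
  · rw [map_mul, map_mul, ← hab, ← hab']; ring

theorem HF.inv {i : ι} {x : K} (hx : HF 𝒜 π i x) (h0 : x ≠ 0) : HF 𝒜 π (-i) x⁻¹ := by
  obtain ⟨j, a, ha, b, hb, hb0, hab⟩ := hx
  refine ⟨i + j, b, by rwa [neg_add_cancel_left], a, ha, ?_, ?_⟩
  · rw [← hab]; exact mul_ne_zero h0 hb0
  · rw [← hab, inv_mul_cancel_left₀ h0]

variable (𝒜 π)

/-- the subfield of `K` of homogeneous fractions of degree `0` -/
def K0 : Subfield K where
  carrier := {x | HF 𝒜 π 0 x}
  mul_mem' hx hy := by
    have := HF.mul hx hy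
    rwa [add_zero] at this
  one_mem' := HF.one
  add_mem' hx hy := HF.add hx hy
  zero_mem' := HF.zero 0
  neg_mem' hx := HF.neg hx
  inv_mem' x hx := by
    by_cases h0 : x = 0
    · subst h0; rw [inv_zero]; exact HF.zero 0
    · have := HF.inv hx h0
      rwa [neg_zero] at this

end Pool.Agent.Helper67.Bass
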