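import Pool.Agent.Helper67.Bass.Good

/-!
# Fields generated by one element
-/

set_option autoImplicit false
set_option linter.style.haveILetI false
set_option linter.unusedSectionVars false

namespace Pool.Agent.Helper67.Bass

open Function
open scoped Polynomial

universe u v w

theorem kronecker_of_alg0 (L : Type u) [Field L] [CharZero L] (h : ∀ x : L, IsAlgebraic ℤ x) :
    KroneckerLeOne L := by
  left
  intro x
  obtain ⟨f, hf, hfx⟩ := h x
  refine ⟨f.primPart, f.isPrimitive_primPart, ?_⟩
  have h1 := congrArg (Polynomial.aeval x) f.eq_C_content_mul_primPart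
  rw [hfx, map_mul, Polynomial.aeval_C] at h1
  have h2 : algebraMap ℤ L f.content ≠ 0 := by
    rw [eq_intCast, Int.cast_ne_zero]
    exact fun h => hf (Polynomial.content_eq_zero_iff.1 h)
  exact (mul_eq_zero.1 h1.symm).resolve_left h2

theorem kronecker_of_algp (p : ℕ) [Fact p.Prime] (L : Type u) [Field L] [Algebra (ZMod p) L]
    (h : ∀ x : L, IsAlgebraic (ZMod p) x) : KroneckerLeOne L := by
  left
  intro x
  have hx : IsIntegral (ZMod p) x := (h x).isIntegral
  have hmon := minpoly.monic hx
  have hl : minpoly (ZMod p) x ∈ Polynomial.lifts (Int.castRingHom (ZMod p)) := by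
    rw [Polynomial.lifts_iff_coeff_lifts]
    intro n
    exact ZMod.ringHom_surjective (Int.castRingHom (ZMod p)) _
  obtain ⟨q, hq, _, hqm⟩ := Polynomial.lifts_and_natDegree_eq_and_monic hl hmon
  refine ⟨q, hqm.isPrimitive, ?_⟩
  have h1 := minpoly.aeval (ZMod p) x
  rw [← hq, Polynomial.aeval_def, Polynomial.eval₂_map] at h1
  rw [Polynomial.aeval_def, ← h1]
  congr 1
  exact RingHom.ext_int _ _

theorem rational_of_gen_aux (k : Type) [Field k] (L : Type u) [Field L] [Algebra k L]
    (H : ∀ (L' : Type u) [Field L'] [Algebra k L'], (∀ x : L', IsAlgebraic k x) →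
      KroneckerLeOne L') (t : L)
    (ht : ∀ x : L, ∃ f g : k[X], Polynomial.aeval t g ≠ 0 ∧
      x * Polynomial.aeval t g = Polynomial.aeval t f) :
    RationalOverKroneckerLeOne L := by
  by_cases htr : IsAlgebraic k t
  · refine (H L (fun x => ?_)).ratSmall
    obtain ⟨f, g, hg, hx⟩ := ht x
    have hmem : ∀ f : k[X], IsAlgebraic k (Polynomial.aeval t f) := by
      intro f
      have h1 : t ∈ algebraicClosure k L := mem_algebraicClosure_iff.2 htr
      have h2 : Polynomial.aeval t f ∈ (algebraicClosure k L).toSubalgebra :=
        (Algebra.adjoin_le (Set.singleton_subset_iff.2 h1))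
          (Polynomial.aeval_mem_adjoin_singleton k t)
      exact mem_algebraicClosure_iff.1 h2
    have h3 : x = Polynomial.aeval t f * (Polynomial.aeval t g)⁻¹ := by
      rw [← hx, mul_assoc, mul_inv_cancel₀ hg, mul_one]
    rw [h3]
    exact (hmem f).mul (hmem g).inv
  · let F : Subfield L := (algebraMap k L).fieldRange
    letI : Algebra k F := (algebraMap k L).rangeRestrictField.toAlgebra
    haveI : IsScalarTower k F L := IsScalarTower.of_algebraMap_eq (fun _ => rfl)
    have hsurj : Surjective (algebraMap k F) := (algebraMap k L).rangeRestrictField_bijective.2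
    haveI : Algebra.IsAlgebraic k F := ⟨fun x => by
      obtain ⟨y, rfl⟩ := hsurj x
      exact isAlgebraic_algebraMap y⟩
    have hF : KroneckerLeOne F := H F (fun x => Algebra.IsAlgebraic.isAlgebraic x)
    have htF : Transcendental F t := fun h => htr (h.restrictScalars k)
    refine ⟨F, 1, ![t], hF, algebraicIndependent_iff_transcendental.2 htF, ?_⟩
    rw [eq_top_iff]
    intro x _
    have hmem : ∀ f : k[X], Polynomial.aeval t f ∈ IntermediateField.adjoin F (Set.range ![t]) := by
      intro f
      have h1 : t ∈ IntermediateField.adjoin F (Set.range ![t]) :=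
        IntermediateField.subset_adjoin _ _ ⟨0, rfl⟩
      have h2 : Polynomial.aeval t (f.map (algebraMap k F)) = Polynomial.aeval t f :=
        Polynomial.aeval_map_algebraMap F t f
      rw [← h2]
      have h3 : Algebra.adjoin F {t} ≤
          (IntermediateField.adjoin F (Set.range ![t])).toSubalgebra :=
        Algebra.adjoin_le (Set.singleton_subset_iff.2 h1)
      exact h3 (Polynomial.aeval_mem_adjoin_singleton F t)
    obtain ⟨f, g, hg, hx⟩ := ht x
    have h3 : x = Polynomial.aeval t f / Polynomial.aeval t g := by
      rw [← hx, mul_div_cancel_right₀ _ hg]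
    rw [h3]
    exact div_mem (hmem f) (hmem g)

/-- a field generated by one element is rational over a field of Kronecker dimension at most one -/
theorem rational_of_gen (L : Type u) [Field L] (t : L)
    (ht : ∀ x : L, ∃ f g : ℤ[X], Polynomial.aeval t g ≠ 0 ∧
      x * Polynomial.aeval t g = Polynomial.aeval t f) :
    RationalOverKroneckerLeOne L := by
  have hmap : ∀ (k : Type) [Field k] [Algebra k L] (f : ℤ[X]),
      Polynomial.aeval t (f.map (Int.castRingHom k)) = Polynomial.aeval t f := by
    intro k _ _ f
    rw [Polynomial.aeval_def, Polynomial.eval₂_map, Polynomial.aeval_def]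
    congr 1
    exact RingHom.ext_int _ _
  rcases CharP.exists' L with h0 | ⟨p, hp, hpc⟩
  · apply rational_of_gen_aux ℚ L ?_ t
    · intro x
      obtain ⟨f, g, hg, hx⟩ := ht x
      exact ⟨f.map (Int.castRingHom ℚ), g.map (Int.castRingHom ℚ), by rwa [hmap],
        by rw [hmap, hmap, hx]⟩
    · intro L' _ _ h
      haveI : CharZero L' := charZero_of_injective_algebraMap (algebraMap ℚ L').injective
      apply kronecker_of_alg0
      intro x
      exact (IsFractionRing.isAlgebraic_iff ℤ ℚ L').2 (h x)
  · haveI := hp
    letI : Algebra (ZMod p) L := ZMod.algebra L p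
    apply rational_of_gen_aux (ZMod p) L ?_ t
    · intro x
      obtain ⟨f, g, hg, hx⟩ := ht x
      exact ⟨f.map (Int.castRingHom (ZMod p)), g.map (Int.castRingHom (ZMod p)), by rwa [hmap],
        by rw [hmap, hmap, hx]⟩
    · intro L' _ _ h
      exact kronecker_of_algp p L' h

end Pool.Agent.Helper67.Bass
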