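import Pool.Agent.Helper67.Bass.Aw

/-!
# Rational function fields over fields of Kronecker dimension at most one
-/

set_option autoImplicit false
set_option linter.style.haveILetI false
set_option linter.unusedSectionVars false

namespace Pool.Agent.Helper67.Bass

open Function
open scoped nonZeroDivisors Polynomial

universe u v w

variable {L : Type u} [Field L]

theorem KroneckerLeOne.ratSmall (h : KroneckerLeOne L) : RationalOverKroneckerLeOne L := by
  refine ⟨⊤, 0, Fin.elim0, ?_, ?_, ?_⟩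
  · exact KroneckerLeOne.of_hom (Subfield.subtype ⊤) h
  · rw [algebraicIndependent_empty_type_iff]
    exact Subtype.val_injective
  · rw [eq_top_iff]
    intro x _
    have : x = algebraMap (⊤ : Subfield L) L ⟨x, Subfield.mem_top x⟩ := rfl
    rw [this]
    exact IntermediateField.algebraMap_mem _ _

theorem exists_common (B : Subring L) (hfrac : ∀ x : L, ∃ a ∈ B, ∃ b ∈ B, b ≠ 0 ∧ x * b = a)
    (X : Finset L) : ∃ (s : L) (hs : s ∈ B), s ≠ 0 ∧ ∀ x ∈ X, x ∈ aw B s hs := by
  classical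
  induction X using Finset.induction_on with
  | empty => exact ⟨1, one_mem B, one_ne_zero, by simp⟩
  | insert x X hx ih =>
    obtain ⟨s, hs, hs0, h⟩ := ih
    obtain ⟨a, ha, b, hb, hb0, hab⟩ := hfrac x
    refine ⟨s * b, mul_mem hs hb, mul_ne_zero hs0 hb0, ?_⟩
    intro y hy
    rw [Finset.mem_insert] at hy
    rcases hy with rfl | hy
    · refine ⟨1, ?_⟩
      have : y * (s * b) ^ 1 = a * s := by rw [← hab, pow_one]; ring
      rw [this]; exact mul_mem ha hs
    · obtain ⟨n, hn⟩ := h y hy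
      refine ⟨n, ?_⟩
      have : y * (s * b) ^ n = (y * s ^ n) * b ^ n := by rw [mul_pow]; ring
      rw [this]; exact mul_mem hn (pow_mem hb n)

theorem RationalOverKroneckerLeOne.good (h : RationalOverKroneckerLeOne L) (B : Subalgebra ℤ L) (hB : B.FG)
    (hfrac : ∀ x : L, ∃ a ∈ B, ∃ b ∈ B, b ≠ 0 ∧ x * b = a) :
    ∃ (s : L) (hs : s ∈ B.toSubring), s ≠ 0 ∧ FinGn (aw B.toSubring s hs) := by
  classical
  obtain ⟨F, n, t, hF, ht, htop⟩ := h
  obtain ⟨G, hG⟩ := hB
  have hrep : ∀ g : L, ∃ p q : MvPolynomial (Fin n) F, MvPolynomial.aeval t q ≠ 0 ∧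
      g * MvPolynomial.aeval t q = MvPolynomial.aeval t p := by
    intro g
    have hg : g ∈ IntermediateField.adjoin F (Set.range t) := by
      rw [htop]; exact IntermediateField.mem_top
    obtain ⟨r, s, hrs⟩ := (IntermediateField.mem_adjoin_range_iff F t g).1 hg
    by_cases hs : MvPolynomial.aeval t s = 0
    · refine ⟨0, 1, ?_, ?_⟩
      · rw [map_one]; exact one_ne_zero
      · rw [hs, div_zero] at hrs
        rw [hrs, map_zero, zero_mul]
    · exact ⟨r, s, hs, by rw [hrs, div_mul_cancel₀ _ hs]⟩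
  choose p q hq hpq using hrep
  let S : Finset F := G.biUnion
    (fun g => (p g).support.image (p g).coeff ∪ (q g).support.image (q g).coeff)
  let D0 : Subalgebra ℤ F := Algebra.adjoin ℤ (S : Set F)
  obtain ⟨s1, hs1, hs10, hpid⟩ := pid_aw D0 ⟨S, rfl⟩ (Or.inl hF)
  set D := aw D0.toSubring s1 hs1 with hD
  let i0 : D →+* L := F.subtype.comp D.subtype
  set χ : MvPolynomial (Fin n) D →+* L := MvPolynomial.eval₂Hom i0 t with hχ
  have hχinj : Injective χ := by
    have h1 : χ = (MvPolynomial.aeval t : MvPolynomial (Fin n) F →ₐ[F] L).toRingHom.comp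
        (MvPolynomial.map D.subtype) := by
      apply MvPolynomial.ringHom_ext
      · intro r
        simp only [hχ, MvPolynomial.eval₂Hom_C, RingHom.comp_apply, MvPolynomial.map_C,
          AlgHom.toRingHom_eq_coe, RingHom.coe_coe, MvPolynomial.aeval_C]
        rfl
      · intro i
        simp [hχ]
    rw [h1]
    have h2 : Injective (MvPolynomial.aeval t : MvPolynomial (Fin n) F →ₐ[F] L) := ht
    have h3 : Injective (MvPolynomial.map (σ := Fin n) D.subtype) :=
      MvPolynomial.map_injective _ Subtype.val_injective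
    intro x y hxy
    exact h3 (h2 hxy)
  have hmem : ∀ r : MvPolynomial (Fin n) F, (∀ d ∈ r.support, r.coeff d ∈ S) →
      MvPolynomial.aeval t r ∈ χ.range := by
    intro r hr
    rw [MvPolynomial.aeval_def, MvPolynomial.eval₂_eq']
    refine sum_mem (fun d hd => mul_mem ?_ (prod_mem (fun i _ => pow_mem ?_ _)))
    · refine ⟨MvPolynomial.C ⟨r.coeff d, le_aw _ (Algebra.subset_adjoin (hr d hd))⟩, ?_⟩
      rw [hχ, MvPolynomial.eval₂Hom_C]
      rfl
    · exact ⟨MvPolynomial.X i, by rw [hχ, MvPolynomial.eval₂Hom_X']⟩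
  have hpmem : ∀ g ∈ G, MvPolynomial.aeval t (p g) ∈ χ.range := by
    intro g hg
    apply hmem
    intro d hd
    exact Finset.mem_biUnion.2 ⟨g, hg, Finset.mem_union_left _ (Finset.mem_image_of_mem _ hd)⟩
  have hqmem : ∀ g ∈ G, MvPolynomial.aeval t (q g) ∈ χ.range := by
    intro g hg
    apply hmem
    intro d hd
    exact Finset.mem_biUnion.2 ⟨g, hg, Finset.mem_union_right _ (Finset.mem_image_of_mem _ hd)⟩
  set Q : L := ∏ g ∈ G, MvPolynomial.aeval t (q g) with hQ
  have hQmem : Q ∈ χ.range := prod_mem (fun g hg => hqmem g hg)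
  have hQ0 : Q ≠ 0 := Finset.prod_ne_zero_iff.2 (fun g _ => hq g)
  have hBC : ∀ b ∈ B, b ∈ aw χ.range Q hQmem := by
    have h1 : B ≤ subalgebraOfSubring (aw χ.range Q hQmem) := by
      rw [← hG, Algebra.adjoin_le_iff]
      intro g hg
      refine ⟨1, ?_⟩
      rw [pow_one, hQ, ← Finset.mul_prod_erase _ _ hg, ← mul_assoc, hpq g]
      exact mul_mem (hpmem g hg) (prod_mem (fun k hk => hqmem k (Finset.mem_of_mem_erase hk)))
    exact fun b hb => h1 hb
  -- denominators for the other ring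
  let X : Finset L := S.image F.subtype ∪ {F.subtype s1⁻¹} ∪ Finset.univ.image t
  obtain ⟨s', hs', hs'0, hX⟩ := exists_common B.toSubring hfrac X
  have hCs : χ.range ≤ aw B.toSubring s' hs' := by
    have hDle : D ≤ (aw B.toSubring s' hs').comap F.subtype := by
      apply aw_le _ hs10
      · have h1 : D0 ≤ subalgebraOfSubring ((aw B.toSubring s' hs').comap F.subtype) := by
          rw [Algebra.adjoin_le_iff]
          intro x hx
          exact hX _ (Finset.mem_union_left _ (Finset.mem_union_left _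
            (Finset.mem_image_of_mem _ hx)))
        exact fun b hb => h1 hb
      · exact hX _ (Finset.mem_union_left _ (Finset.mem_union_right _
          (Finset.mem_singleton_self _)))
    rintro _ ⟨f, rfl⟩
    induction f using MvPolynomial.induction_on with
    | C a => rw [hχ, MvPolynomial.eval₂Hom_C]; exact hDle a.2
    | add p q hp hq => rw [map_add]; exact add_mem hp hq
    | mul_X p i hp =>
      rw [map_mul, hχ, MvPolynomial.eval₂Hom_X']
      exact mul_mem hp (hX _ (Finset.mem_union_right _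
        (Finset.mem_image_of_mem _ (Finset.mem_univ i))))
  obtain ⟨k, hk⟩ := hCs hQmem
  set r : L := Q * s' ^ k with hr
  have hr0 : r ≠ 0 := mul_ne_zero hQ0 (pow_ne_zero _ hs'0)
  have hs0 : s' * r ≠ 0 := mul_ne_zero hs'0 hr0
  have hsB : s' * r ∈ B.toSubring := mul_mem hs' hk
  refine ⟨s' * r, hsB, hs0, ?_⟩
  set V := aw B.toSubring (s' * r) hsB with hV
  have hBV : ∀ b ∈ B, b ∈ V := fun b hb => le_aw _ hb
  have hsinv : (s' * r)⁻¹ ∈ V := inv_mem_aw _ hs0
  have hs'inv : s'⁻¹ ∈ V := by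
    have : s'⁻¹ = r * (s' * r)⁻¹ := by field_simp
    rw [this]; exact mul_mem (hBV _ hk) hsinv
  have hrinv : r⁻¹ ∈ V := by
    have : r⁻¹ = s' * (s' * r)⁻¹ := by field_simp
    rw [this]; exact mul_mem (hBV _ hs') hsinv
  have hCV : χ.range ≤ V := hCs.trans (aw_le _ hs'0 (fun b hb => hBV b hb) hs'inv)
  have hQinv : Q⁻¹ ∈ V := by
    have : Q⁻¹ = s' ^ k * r⁻¹ := by
      have := pow_ne_zero k hs'0
      rw [hr]; field_simp
    rw [this]; exact mul_mem (pow_mem (hBV _ hs') k) hrinv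
  obtain ⟨l, c, hc⟩ := hBC s' hs'
  have hc0 : χ c ≠ 0 := by rw [hc]; exact mul_ne_zero hs'0 (pow_ne_zero _ hQ0)
  have hcinv : (χ c)⁻¹ ∈ V := by
    rw [hc, mul_inv, ← inv_pow]; exact mul_mem hs'inv (pow_mem hQinv l)
  obtain ⟨Q', hQ'⟩ := hQmem
  have hh0 : χ (Q' * c) ≠ 0 := by rw [map_mul, hQ']; exact mul_ne_zero hQ0 hc0
  have hhinv : (χ (Q' * c))⁻¹ ∈ V := by
    rw [map_mul, hQ', mul_inv]; exact mul_mem hQinv hcinv
  set W := aw χ.range (χ (Q' * c)) ⟨_, rfl⟩ with hW
  have hχW : ∀ f, χ f ∈ W := fun f => le_aw _ ⟨f, rfl⟩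
  have hhinvW : (χ (Q' * c))⁻¹ ∈ W := inv_mem_aw _ hh0
  have hQinvW : Q⁻¹ ∈ W := by
    have : Q⁻¹ = χ c * (χ (Q' * c))⁻¹ := by rw [map_mul, hQ']; field_simp
    rw [this]; exact mul_mem (hχW c) hhinvW
  have hcinvW : (χ c)⁻¹ ∈ W := by
    have : (χ c)⁻¹ = χ Q' * (χ (Q' * c))⁻¹ := by rw [map_mul, hQ']; field_simp
    rw [this]; exact mul_mem (hχW Q') hhinvW
  have hs'invW : s'⁻¹ ∈ W := by
    have : s'⁻¹ = (χ Q') ^ l * (χ c)⁻¹ := by
      have := pow_ne_zero l hQ0
      rw [hc, hQ']; field_simp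
    rw [this]; exact mul_mem (pow_mem (hχW Q') l) hcinvW
  have hrinvW : r⁻¹ ∈ W := by
    rw [hr, mul_inv, ← inv_pow]; exact mul_mem hQinvW (pow_mem hs'invW k)
  have hVW : V ≤ W := by
    apply aw_le _ hs0
    · intro b hb
      have h1 : aw χ.range Q ⟨Q', hQ'⟩ ≤ W := aw_le _ hQ0 (le_aw _) hQinvW
      exact h1 (hBC b hb)
    · rw [mul_inv]; exact mul_mem hs'invW hrinvW
  have hχV : ∀ f, χ f ∈ V := fun f => hCV ⟨f, rfl⟩
  letI := (χ.codRestrict V hχV).toAlgebra
  haveI : IsLocalization.Away (Q' * c) V := by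
    apply isLocAway χ hχinj _ hh0 V hχV hhinv
    intro v hv
    obtain ⟨m, f, hf⟩ := hVW hv
    exact ⟨m, f, hf.symm⟩
  haveI : IsPrincipalIdealRing D := hpid
  exact FinGn.away (Q' * c) ((FinGn.of_pid D).mvPolynomial (Fin n))

end Pool.Agent.Helper67.Bass
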