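import Pool.Agent.Helper67.Bass.Good

/-!
# The generic stratum of a graded prime
-/

set_option autoImplicit false
set_option linter.style.haveILetI false
set_option linter.unusedSectionVars false

namespace Pool.Agent.Helper67.Bass

open Function
open scoped nonZeroDivisors Polynomial

universe u v w

variable {ι : Type v} [AddCommGroup ι] [DecidableEq ι] {A : Type u} [CommRing A]
  {σ : Type w} [SetLike σ A] [AddSubgroupClass σ A] (𝒜 : ι → σ) [GradedRing 𝒜]
  {K : Type u} [Field K] (π : A →+* K)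

/-- homogeneous generators -/
theorem exists_homogeneous_generators [Algebra.FiniteType ℤ A] :
    ∃ (n : ℕ) (g : Fin n → A) (d : Fin n → ι), (∀ i, g i ∈ 𝒜 (d i)) ∧
      Subring.closure (Set.range g) = ⊤ := by
  classical
  obtain ⟨F, hF⟩ := Algebra.FiniteType.out (R := ℤ) (A := A)
  let T := Σ (x : F), (DirectSum.decompose 𝒜 x.1).support
  let gT : T → A := fun i => ((DirectSum.decompose 𝒜) i.1.1 i.2.1 : 𝒜 i.2.1)
  let e : T ≃ Fin (Fintype.card T) := Fintype.equivFin T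
  refine ⟨Fintype.card T, gT ∘ e.symm, fun i => (e.symm i).2.1, ?_, ?_⟩
  · intro i; exact SetLike.coe_mem _
  · rw [eq_top_iff]
    intro a _
    have h1 : a ∈ Algebra.adjoin ℤ (F : Set A) := by rw [hF]; exact Algebra.mem_top
    have h2 : Algebra.adjoin ℤ (F : Set A) ≤
        subalgebraOfSubring (Subring.closure (Set.range (gT ∘ e.symm))) := by
      rw [Algebra.adjoin_le_iff]
      intro x hx
      show x ∈ Subring.closure (Set.range (gT ∘ e.symm))
      rw [← DirectSum.sum_support_decompose 𝒜 x]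
      refine sum_mem (fun k hk => Subring.subset_closure ?_)
      refine ⟨e ⟨⟨x, hx⟩, ⟨k, hk⟩⟩, ?_⟩
      show gT (e.symm (e ⟨⟨x, hx⟩, ⟨k, hk⟩⟩)) = _
      rw [e.symm_apply_apply]
    exact h2 h1

section step

variable {J : Type} [Fintype J] (g : J → A) (D : J → ι) {ρ : ℕ} (m : Fin ρ → ι)
  (c : Fin ρ → J → ℤ) (e : J → Fin ρ → ℤ)

/-- Laurent monomials -/
noncomputable def uu (i : Fin ρ) : K := ∏ j, (π (g j)) ^ (c i j)

/-- normalised generators of degree `0` -/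
noncomputable def bb (j : J) : K := π (g j) * ∏ i, (uu π g c i) ^ (-(e j i))

variable {g D m c e}

theorem uu_ne (hg0 : ∀ j, π (g j) ≠ 0) (i : Fin ρ) : uu π g c i ≠ 0 :=
  Finset.prod_ne_zero_iff.2 (fun j _ => zpow_ne_zero _ (hg0 j))

theorem bb_ne (hg0 : ∀ j, π (g j) ≠ 0) (j : J) : bb π g c e j ≠ 0 :=
  mul_ne_zero (hg0 j) (Finset.prod_ne_zero_iff.2 (fun i _ => zpow_ne_zero _ (uu_ne π hg0 i)))

theorem uu_HF (hg : ∀ j, g j ∈ 𝒜 (D j)) (hg0 : ∀ j, π (g j) ≠ 0)
    (hm : ∀ i, ∑ j, c i j • D j = m i) (i : Fin ρ) : HF 𝒜 π (m i) (uu π g c i) := by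
  rw [← hm i]
  exact HF.prod _ _ _ (fun j _ => (HF.of_mem (hg j)).zpow (hg0 j) _)

theorem bb_HF (hg : ∀ j, g j ∈ 𝒜 (D j)) (hg0 : ∀ j, π (g j) ≠ 0)
    (hm : ∀ i, ∑ j, c i j • D j = m i) (he : ∀ j, ∑ i, e j i • m i = D j) (j : J) :
    HF 𝒜 π 0 (bb π g c e j) := by
  have h1 := (HF.of_mem (π := π) (hg j)).mul (HF.prod (𝒜 := 𝒜) Finset.univ
    (fun i => (-(e j i)) • m i) (fun i => (uu π g c i) ^ (-(e j i)))
    (fun i _ => (uu_HF 𝒜 π hg hg0 hm i).zpow (uu_ne π hg0 i) _))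
  have h2 : D j + ∑ i, (-(e j i)) • m i = 0 := by
    simp only [neg_smul, Finset.sum_neg_distrib, he j, add_neg_cancel]
  rw [h2] at h1
  exact h1

theorem g_eq (hg0 : ∀ j, π (g j) ≠ 0) (j : J) :
    π (g j) = bb π g c e j * ∏ i, (uu π g c i) ^ (e j i) := by
  unfold bb
  rw [mul_assoc, ← Finset.prod_mul_distrib]
  have : ∀ i, uu π g c i ^ (-(e j i)) * uu π g c i ^ (e j i) = 1 := by
    intro i
    rw [← zpow_add₀ (uu_ne π hg0 i), neg_add_cancel, zpow_zero]
  rw [Finset.prod_congr rfl (fun i _ => this i), Finset.prod_const_one, mul_one]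

/-- injectivity of the Laurent polynomial map -/
theorem laurent_injective (hker : (RingHom.ker π).IsHomogeneous 𝒜)
    (hg : ∀ j, g j ∈ 𝒜 (D j)) (hg0 : ∀ j, π (g j) ≠ 0)
    (hm : ∀ i, ∑ j, c i j • D j = m i) (hlin : LinearIndependent ℤ m)
    (B1 : Subring K) (hB1 : ∀ b ∈ B1, HF 𝒜 π 0 b) :
    Injective (MvPolynomial.eval₂Hom B1.subtype (uu π g c) : MvPolynomial (Fin ρ) B1 →+* K) := by
  rw [injective_iff_map_eq_zero]
  intro f hf
  have hf' : ∑ d ∈ f.support, B1.subtype (f.coeff d) * ∏ i, (uu π g c i) ^ d i = 0 := by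
    rw [← MvPolynomial.eval₂_eq']; exact hf
  have h1 := HF.indep (𝒜 := 𝒜) hker f.support (fun d => ∑ i, (d i) • m i) ?_ _ ?_ hf'
  · rw [← MvPolynomial.support_eq_empty]
    rw [Finset.eq_empty_iff_forall_notMem]
    intro d hd
    have h2 := h1 d hd
    rw [mul_eq_zero] at h2
    rcases h2 with h2 | h2
    · rw [MvPolynomial.mem_support_iff] at hd
      exact hd (Subtype.ext h2)
    · exact absurd h2 (Finset.prod_ne_zero_iff.2 (fun i _ => pow_ne_zero _ (uu_ne π hg0 i)))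
  · intro d _ d' _ hdd
    have h3 : ∑ i, ((d i : ℤ)) • m i = ∑ i, ((d' i : ℤ)) • m i := by
      simpa [natCast_zsmul] using hdd
    have h4 : ∑ i, ((d i : ℤ) - (d' i : ℤ)) • m i = 0 := by
      simp only [sub_smul, Finset.sum_sub_distrib, h3, sub_self]
    have h5 := Fintype.linearIndependent_iff.1 hlin _ h4
    ext i
    have := h5 i
    omega
  · intro d _
    have h3 := (hB1 _ (f.coeff d).2).mul (HF.prod (𝒜 := 𝒜) (π := π) Finset.univ
      (fun i => (d i) • m i) (fun i => (uu π g c i) ^ (d i))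
      (fun i _ => (uu_HF 𝒜 π hg hg0 hm i).pow _))
    rw [zero_add] at h3
    exact h3

/-- homogeneous elements are degree zero elements times Laurent monomials -/
theorem homogeneous_form (hlin : LinearIndependent ℤ m) (B0 : Subring K)
    {n : ℕ} (g' : Fin n → A) (d' : Fin n → ι) (hg' : ∀ i, g' i ∈ 𝒜 (d' i))
    (hcl : Subring.closure (Set.range g') = ⊤)
    (hgen : ∀ i, π (g' i) = 0 ∨ ∃ z : Fin ρ → ℤ, ∑ k, z k • m k = d' i ∧
      ∃ β ∈ B0, π (g' i) = β * ∏ k, (uu π g c k) ^ (z k))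
    (hg0 : ∀ j, π (g j) ≠ 0) {j : ι} {a : A} (ha : a ∈ 𝒜 j) :
    π a = 0 ∨ ∃ z : Fin ρ → ℤ, ∑ k, z k • m k = j ∧ ∃ β ∈ B0, π a = β * ∏ k, (uu π g c k) ^ (z k) := by
  classical
  -- monomials
  have hmon : ∀ w ∈ Submonoid.closure (Set.range g'), ∃ k : ι, w ∈ 𝒜 k ∧
      (π w = 0 ∨ ∃ z : Fin ρ → ℤ, ∑ l, z l • m l = k ∧
        ∃ β ∈ B0, π w = β * ∏ l, (uu π g c l) ^ (z l)) := by
    intro w hw
    induction hw using Submonoid.closure_induction with
    | mem x hx =>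
      obtain ⟨i, rfl⟩ := hx
      exact ⟨d' i, hg' i, hgen i⟩
    | one =>
      refine ⟨0, SetLike.GradedOne.one_mem, Or.inr ⟨0, by simp, 1, one_mem _, by simp⟩⟩
    | mul x y _ _ hx hy =>
      obtain ⟨k, hk, hx⟩ := hx
      obtain ⟨k', hk', hy⟩ := hy
      refine ⟨k + k', SetLike.GradedMul.mul_mem hk hk', ?_⟩
      rcases hx with hx | ⟨z, hz, β, hβ, hx⟩
      · left; rw [map_mul, hx, zero_mul]
      rcases hy with hy | ⟨z', hz', β', hβ', hy⟩
      · left; rw [map_mul, hy, mul_zero]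
      right
      refine ⟨z + z', ?_, β * β', mul_mem hβ hβ', ?_⟩
      · simp only [Pi.add_apply, add_smul, Finset.sum_add_distrib, hz, hz']
      · have : ∏ l, (uu π g c l) ^ ((z + z') l) =
            (∏ l, (uu π g c l) ^ (z l)) * ∏ l, (uu π g c l) ^ (z' l) := by
          rw [← Finset.prod_mul_distrib]
          refine Finset.prod_congr rfl (fun l _ => ?_)
          rw [Pi.add_apply, zpow_add₀ (uu_ne π hg0 l)]
        rw [map_mul, hx, hy, this]; ring
  have hall : ∀ b ∈ AddSubgroup.closure (Submonoid.closure (Set.range g') : Set A), ∀ k : ι,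
      (π ((DirectSum.decompose 𝒜 b k : 𝒜 k) : A) = 0 ∨ ∃ z : Fin ρ → ℤ, ∑ l, z l • m l = k ∧
        ∃ β ∈ B0, π ((DirectSum.decompose 𝒜 b k : 𝒜 k) : A) = β * ∏ l, (uu π g c l) ^ (z l)) := by
    intro b hb
    induction hb using AddSubgroup.closure_induction with
    | mem x hx =>
      intro k
      obtain ⟨k', hk', h⟩ := hmon x hx
      by_cases hkk : k' = k
      · subst hkk
        rw [DirectSum.decompose_of_mem_same 𝒜 hk']
        exact h
      · left
        rw [DirectSum.decompose_of_mem_ne 𝒜 hk' hkk, map_zero]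
    | zero =>
      intro k; left
      rw [DirectSum.decompose_zero, DirectSum.zero_apply, ZeroMemClass.coe_zero, map_zero]
    | add x y _ _ hx hy =>
      intro k
      rw [DirectSum.decompose_add, DirectSum.add_apply, AddMemClass.coe_add, map_add]
      rcases hx k with hx | ⟨z, hz, β, hβ, hx⟩
      · rw [hx, zero_add]; exact hy k
      rcases hy k with hy | ⟨z', hz', β', hβ', hy⟩
      · rw [hy, add_zero]; exact Or.inr ⟨z, hz, β, hβ, hx⟩
      right
      have h4 : ∑ i, (z i - z' i) • m i = 0 := by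
        simp only [sub_smul, Finset.sum_sub_distrib, hz, hz', sub_self]
      have h5 := Fintype.linearIndependent_iff.1 hlin _ h4
      have h6 : z' = z := by
        ext i
        have := h5 i
        omega
      subst h6
      exact ⟨z', hz, β + β', add_mem hβ hβ', by rw [hx, hy, add_mul]⟩
    | neg x _ hx =>
      intro k
      rw [DirectSum.decompose_neg, DFinsupp.neg_apply, NegMemClass.coe_neg, map_neg]
      rcases hx k with hx | ⟨z, hz, β, hβ, hx⟩
      · left; rw [hx, neg_zero]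
      · right
        exact ⟨z, hz, -β, neg_mem hβ, by rw [hx, neg_mul]⟩
  have h1 : a ∈ AddSubgroup.closure (Submonoid.closure (Set.range g') : Set A) := by
    rw [← Subring.mem_closure_iff, hcl]; exact Subring.mem_top a
  have h2 := hall a h1 j
  rwa [DirectSum.decompose_of_mem_same 𝒜 ha] at h2

end step

/-- the generic stratum -/
theorem exists_stratum [Algebra.FiniteType ℤ A] [Module.IsTorsionFree ℤ ι]
    (hker : (RingHom.ker π).IsHomogeneous 𝒜) (hsm : RationalOverKroneckerLeOne (K0 𝒜 π)) :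
    ∃ s : A, SetLike.IsHomogeneousElem 𝒜 s ∧ π s ≠ 0 ∧
      FinGn (aw π.range (π s) ⟨s, rfl⟩) := by
  classical
  obtain ⟨n, g', d', hg', hcl⟩ := exists_homogeneous_generators 𝒜
  let J := {i : Fin n // π (g' i) ≠ 0}
  let g : J → A := fun j => g' j
  let D : J → ι := fun j => d' j
  have hg : ∀ j, g j ∈ 𝒜 (D j) := fun j => hg' j
  have hg0 : ∀ j, π (g j) ≠ 0 := fun j => j.2
  let M : Submodule ℤ ι := Submodule.span ℤ (Set.range D)
  haveI : Module.Finite ℤ M := Module.Finite.span_of_finite ℤ (Set.finite_range D)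
  haveI : Module.Free ℤ M := inferInstance
  let bas := Module.finBasis ℤ M
  set ρ := Module.finrank ℤ M with hρ
  let m : Fin ρ → ι := fun i => (bas i : ι)
  have hlin : LinearIndependent ℤ m :=
    bas.linearIndependent.map' M.subtype (Submodule.ker_subtype M)
  have hc : ∀ i, ∃ c : J → ℤ, ∑ j, c j • D j = m i := by
    intro i
    have : m i ∈ Submodule.span ℤ (Set.range D) := (bas i).2
    exact (Submodule.mem_span_range_iff_exists_fun ℤ).1 this
  choose c hm using hc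
  let e : J → Fin ρ → ℤ := fun j i => bas.repr ⟨D j, Submodule.subset_span ⟨j, rfl⟩⟩ i
  have he : ∀ j, ∑ i, e j i • m i = D j := by
    intro j
    have := congrArg (Subtype.val) (bas.sum_repr ⟨D j, Submodule.subset_span ⟨j, rfl⟩⟩)
    rw [Submodule.coe_sum] at this
    exact this
  have hu0 := uu_ne (c := c) π hg0
  have hb0 := bb_ne (c := c) (e := e) π hg0
  -- the degree zero algebra
  let S : Set K := Set.range (bb π g c e) ∪ Set.range (fun j => (bb π g c e j)⁻¹)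
  have hSfin : S.Finite := (Set.finite_range _).union (Set.finite_range _)
  let B0 : Subalgebra ℤ K := Algebra.adjoin ℤ S
  have hB0fg : B0.FG := by
    rw [Subalgebra.fg_def]
    exact ⟨S, hSfin, rfl⟩
  have hB0K0 : ∀ b ∈ B0, b ∈ K0 𝒜 π := by
    have h1 : B0 ≤ subalgebraOfSubring (K0 𝒜 π).toSubring := by
      rw [Algebra.adjoin_le_iff]
      rintro _ (⟨j, rfl⟩ | ⟨j, rfl⟩)
      · exact bb_HF 𝒜 π hg hg0 hm he j
      · exact (K0 𝒜 π).inv_mem (bb_HF 𝒜 π hg hg0 hm he j)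
    exact fun b hb => h1 hb
  -- the fraction field of `B0` is the field of homogeneous fractions of degree zero
  have hgen : ∀ i, π (g' i) = 0 ∨ ∃ z : Fin ρ → ℤ, ∑ k, z k • m k = d' i ∧
      ∃ β ∈ B0.toSubring, π (g' i) = β * ∏ k, (uu π g c k) ^ (z k) := by
    intro i
    by_cases h : π (g' i) = 0
    · exact Or.inl h
    · right
      refine ⟨e ⟨i, h⟩, he ⟨i, h⟩, bb π g c e ⟨i, h⟩, ?_, g_eq (c := c) (e := e) π hg0 ⟨i, h⟩⟩
      exact Algebra.subset_adjoin (Or.inl ⟨⟨i, h⟩, rfl⟩)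
  have hfrac : ∀ y ∈ K0 𝒜 π, ∃ a ∈ B0, ∃ b ∈ B0, b ≠ 0 ∧ y * b = a := by
    rintro y ⟨j, a, ha, b, hb, hb0, hab⟩
    rw [zero_add] at ha
    have ha' := homogeneous_form 𝒜 π (g := g) (c := c) hlin B0.toSubring g' d' hg' hcl hgen hg0 ha
    have hb' := homogeneous_form 𝒜 π (g := g) (c := c) hlin B0.toSubring g' d' hg' hcl hgen hg0 hb
    rcases ha' with ha' | ⟨z, hz, α, hα, ha'⟩
    · refine ⟨0, zero_mem _, 1, one_mem _, one_ne_zero, ?_⟩
      rw [ha'] at hab
      rw [(mul_eq_zero.1 hab).resolve_right hb0, zero_mul]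
    rcases hb' with hb' | ⟨z', hz', β, hβ, hb'⟩
    · exact absurd hb' hb0
    have h4 : ∑ i, (z i - z' i) • m i = 0 := by
      simp only [sub_smul, Finset.sum_sub_distrib, hz, hz', sub_self]
    have h5 := Fintype.linearIndependent_iff.1 hlin _ h4
    have h6 : z' = z := by
      ext i
      have := h5 i
      omega
    subst h6
    have hU : ∏ k, (uu π g c k) ^ (z' k) ≠ 0 :=
      Finset.prod_ne_zero_iff.2 (fun k _ => zpow_ne_zero _ (hu0 k))
    refine ⟨α, hα, β, hβ, ?_, ?_⟩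
    · intro h; rw [h, zero_mul] at hb'; exact hb0 hb'
    · apply mul_right_cancel₀ hU
      rw [← ha', ← hab, hb']; ring
  have hpid : ∃ (s0 : K) (hs0 : s0 ∈ B0.toSubring), s0 ≠ 0 ∧ FinGn (aw B0.toSubring s0 hs0) := by
    let j0 : K0 𝒜 π →ₐ[ℤ] K := (K0 𝒜 π).subtype.toIntAlgHom
    have hj0 : Injective j0 := Subtype.val_injective
    let B0' : Subalgebra ℤ (K0 𝒜 π) := B0.comap j0
    have hmap : B0'.map j0 = B0 := by
      ext y
      constructor
      · rintro ⟨x, hx, rfl⟩; exact hx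
      · intro hy; exact ⟨⟨y, hB0K0 y hy⟩, hy, rfl⟩
    have hfg' : B0'.FG := Subalgebra.fg_of_fg_map B0' j0 hj0 (by rw [hmap]; exact hB0fg)
    obtain ⟨s0, hs0, hs00, hF⟩ := hsm.good B0' hfg' (by
      rintro ⟨y, hy⟩
      obtain ⟨a, ha, b, hb, hb0, hab⟩ := hfrac y hy
      refine ⟨⟨a, hB0K0 a ha⟩, ha, ⟨b, hB0K0 b hb⟩, hb, ?_, Subtype.ext hab⟩
      intro h; exact hb0 (congrArg Subtype.val h))
    have hs0' : (s0 : K) ∈ B0.toSubring := hs0
    refine ⟨s0, hs0', fun h => hs00 (Subtype.ext h), ?_⟩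
    have hmap2 : (aw B0'.toSubring s0 hs0).map (K0 𝒜 π).subtype = aw B0.toSubring (s0 : K) hs0' := by
      ext y
      constructor
      · rintro ⟨x, ⟨n, hn⟩, rfl⟩; exact ⟨n, hn⟩
      · rintro ⟨n, hn⟩
        have hy : y ∈ K0 𝒜 π := by
          have h1 : y * (s0 : K) ^ n ∈ K0 𝒜 π := hB0K0 _ hn
          have h2 : (s0 : K) ^ n ≠ 0 := pow_ne_zero _ (fun h => hs00 (Subtype.ext h))
          have h3 : y = y * (s0 : K) ^ n * ((s0 : K) ^ n)⁻¹ := by field_simp
          rw [h3]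
          exact mul_mem h1 (inv_mem (pow_mem s0.2 n))
        exact ⟨⟨y, hy⟩, ⟨n, hn⟩, rfl⟩
    rw [← hmap2]
    exact FinGn.of_equiv ((aw B0'.toSubring s0 hs0).equivMapOfInjective (K0 𝒜 π).subtype
      Subtype.val_injective) hF
  obtain ⟨s0, hs0, hs00, hFB1⟩ := hpid
  set B1 := aw B0.toSubring s0 hs0 with hB1
  haveI : IsNoetherianRing B1 := by
    haveI : IsNoetherianRing B0 := isNoetherianRing_of_fg hB0fg
    let φ : B0 →+* K := B0.toSubring.subtype
    have h1 : ∀ r, φ r ∈ B1 := fun r => le_aw _ r.2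
    letI := (φ.codRestrict B1 h1).toAlgebra
    haveI : IsLocalization.Away (⟨s0, hs0⟩ : B0) B1 := by
      apply isLocAway φ Subtype.val_injective (⟨s0, hs0⟩ : B0) hs00 B1 h1
      · exact inv_mem_aw _ hs00
      · rintro v ⟨n, hn⟩
        exact ⟨n, ⟨_, hn⟩, rfl⟩
    exact IsLocalization.isNoetherianRing (Submonoid.powers (⟨s0, hs0⟩ : B0)) B1 inferInstance
  have hB1K0 : ∀ b ∈ B1, HF 𝒜 π 0 b := by
    have : B1 ≤ (K0 𝒜 π).toSubring :=
      aw_le _ hs00 (fun b hb => hB0K0 b hb) ((K0 𝒜 π).inv_mem (hB0K0 _ hs0))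
    exact fun b hb => this hb
  -- the ring `R[1/x]`
  let x : A := ∏ j, g j
  have hx : π x = ∏ j, π (g j) := map_prod _ _ _
  have hx0 : π x ≠ 0 := by rw [hx]; exact Finset.prod_ne_zero_iff.2 (fun j _ => hg0 j)
  have hxh : x ∈ 𝒜 (∑ j, D j) := SetLike.prod_mem_graded _ _ _ (fun j _ => hg j)
  set Rx := aw π.range (π x) ⟨x, rfl⟩ with hRx
  have hπRx : ∀ a, π a ∈ Rx := fun a => le_aw _ ⟨a, rfl⟩
  have hyinv : ∀ j, (π (g j))⁻¹ ∈ Rx := by
    intro j
    have h1 : (π (g j))⁻¹ = π (∏ k ∈ Finset.univ.erase j, g k) * (π x)⁻¹ := by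
      have h2 : π x = π (g j) * π (∏ k ∈ Finset.univ.erase j, g k) := by
        rw [← map_mul, Finset.mul_prod_erase _ _ (Finset.mem_univ j)]
      have h3 : π (∏ k ∈ Finset.univ.erase j, g k) ≠ 0 := by
        intro h4; rw [h4, mul_zero] at h2; exact hx0 h2
      rw [h2]; field_simp
    rw [h1]
    exact mul_mem (hπRx _) (inv_mem_aw _ hx0)
  have zpow_mem : ∀ (V : Subring K) (z : K) (k : ℤ), z ∈ V → z⁻¹ ∈ V → z ^ k ∈ V := by
    intro V z k h1 h2
    obtain ⟨k, rfl | rfl⟩ := k.eq_nat_or_neg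
    · rw [zpow_natCast]; exact pow_mem h1 k
    · rw [zpow_neg, zpow_natCast, ← inv_pow]; exact pow_mem h2 k
  have huRx : ∀ i, uu π g c i ∈ Rx := fun i =>
    prod_mem (fun j _ => zpow_mem _ _ _ (hπRx _) (hyinv j))
  have huinvRx : ∀ i, (uu π g c i)⁻¹ ∈ Rx := by
    intro i
    unfold uu
    rw [← Finset.prod_inv_distrib]
    refine prod_mem (fun j _ => ?_)
    rw [← zpow_neg]
    exact zpow_mem _ _ _ (hπRx _) (hyinv j)
  have hbRx : ∀ j, bb π g c e j ∈ Rx := fun j =>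
    mul_mem (hπRx _) (prod_mem (fun i _ => zpow_mem _ _ _ (huRx i) (huinvRx i)))
  have hbinvRx : ∀ j, (bb π g c e j)⁻¹ ∈ Rx := by
    intro j
    unfold bb
    rw [mul_inv, ← Finset.prod_inv_distrib]
    refine mul_mem (hyinv j) (prod_mem (fun i _ => ?_))
    rw [← zpow_neg]
    exact zpow_mem _ _ _ (huRx i) (huinvRx i)
  have hB0Rx : ∀ b ∈ B0, b ∈ Rx := by
    have h1 : B0 ≤ subalgebraOfSubring Rx := by
      rw [Algebra.adjoin_le_iff]
      rintro _ (⟨j, rfl⟩ | ⟨j, rfl⟩)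
      · exact hbRx j
      · exact hbinvRx j
    exact fun b hb => h1 hb
  -- the homogeneous denominator
  obtain ⟨κ, a', ha'⟩ := hB0Rx s0 hs0
  have hHF : HF 𝒜 π (0 + κ • ∑ j, D j) (π a') := by
    rw [ha']
    exact HF.mul (hB0K0 _ hs0) ((HF.of_mem hxh).pow κ)
  obtain ⟨a, ha, haa⟩ := HF.lift hker hHF
  have has : π a = s0 * π x ^ κ := by rw [haa, ha']
  have ha0 : π a ≠ 0 := by rw [has]; exact mul_ne_zero hs00 (pow_ne_zero _ hx0)
  refine ⟨x * a, ⟨_, SetLike.GradedMul.mul_mem hxh ha⟩, ?_, ?_⟩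
  · rw [map_mul]; exact mul_ne_zero hx0 ha0
  have hs' : π (x * a) ≠ 0 := by rw [map_mul]; exact mul_ne_zero hx0 ha0
  set V := aw π.range (π (x * a)) ⟨x * a, rfl⟩ with hV
  have hπV : ∀ a, π a ∈ V := fun a => le_aw _ ⟨a, rfl⟩
  have hsinv : (π (x * a))⁻¹ ∈ V := inv_mem_aw _ hs'
  have hxinv : (π x)⁻¹ ∈ V := by
    have : (π x)⁻¹ = π a * (π (x * a))⁻¹ := by rw [map_mul]; field_simp
    rw [this]; exact mul_mem (hπV a) hsinv
  have hainv : (π a)⁻¹ ∈ V := by
    have : (π a)⁻¹ = π x * (π (x * a))⁻¹ := by rw [map_mul]; field_simp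
    rw [this]; exact mul_mem (hπV x) hsinv
  have hRxV : Rx ≤ V := aw_le _ hx0 (le_aw _) hxinv
  have hs0inv : s0⁻¹ ∈ V := by
    have : s0⁻¹ = π x ^ κ * (π a)⁻¹ := by
      rw [has]
      have := pow_ne_zero κ hx0
      field_simp
    rw [this]; exact mul_mem (pow_mem (hπV x) κ) hainv
  have hB1V : B1 ≤ V := aw_le _ hs00 (fun b hb => hRxV (hB0Rx b hb)) hs0inv
  have hind := laurent_injective 𝒜 π hker hg hg0 hm hlin B1 hB1K0
  refine finGn_laurent B1 hFB1 (uu π g c) hu0 hind V hB1V (fun i => hRxV (huRx i))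
    (fun i => hRxV (huinvRx i)) ?_
  -- `V ≤ W`
  set ψ : MvPolynomial (Fin ρ) B1 →+* K := MvPolynomial.eval₂Hom B1.subtype (uu π g c) with hψ
  have hUmem : ∏ i, uu π g c i ∈ ψ.range := by
    refine prod_mem (fun i _ => ⟨MvPolynomial.X i, ?_⟩)
    rw [hψ, MvPolynomial.eval₂Hom_X']
  have hU0 : ∏ i, uu π g c i ≠ 0 := Finset.prod_ne_zero_iff.2 (fun i _ => hu0 i)
  set W := aw ψ.range (∏ i, uu π g c i) hUmem with hW
  have hψW : ∀ f, ψ f ∈ W := fun f => le_aw _ ⟨f, rfl⟩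
  have huW : ∀ i, uu π g c i ∈ W := by
    intro i
    have := hψW (MvPolynomial.X i)
    rwa [hψ, MvPolynomial.eval₂Hom_X'] at this
  have huinvW : ∀ i, (uu π g c i)⁻¹ ∈ W := by
    intro i
    have h1 : (uu π g c i)⁻¹ = (∏ k ∈ Finset.univ.erase i, uu π g c k) *
        (∏ k, uu π g c k)⁻¹ := by
      rw [← Finset.mul_prod_erase _ _ (Finset.mem_univ i)]
      have h3 : ∏ k ∈ Finset.univ.erase i, uu π g c k ≠ 0 :=
        Finset.prod_ne_zero_iff.2 (fun k _ => hu0 k)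
      have h4 := hu0 i
      field_simp
    rw [h1]
    exact mul_mem (prod_mem (fun k _ => huW k)) (inv_mem_aw _ hU0)
  have hB1W : B1 ≤ W := by
    intro b hb
    have := hψW (MvPolynomial.C ⟨b, hb⟩)
    rwa [hψ, MvPolynomial.eval₂Hom_C] at this
  have hB0B1 : ∀ b ∈ B0, b ∈ B1 := fun b hb => le_aw _ hb
  have hbW : ∀ j, bb π g c e j ∈ W := fun j =>
    hB1W (hB0B1 _ (Algebra.subset_adjoin (Or.inl ⟨j, rfl⟩)))
  have hbinvW : ∀ j, (bb π g c e j)⁻¹ ∈ W := fun j =>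
    hB1W (hB0B1 _ (Algebra.subset_adjoin (Or.inr ⟨j, rfl⟩)))
  have hyW : ∀ j, π (g j) ∈ W := by
    intro j
    rw [g_eq (c := c) (e := e) π hg0 j]
    exact mul_mem (hbW j) (prod_mem (fun i _ => zpow_mem _ _ _ (huW i) (huinvW i)))
  have hyinvW : ∀ j, (π (g j))⁻¹ ∈ W := by
    intro j
    rw [g_eq (c := c) (e := e) π hg0 j, mul_inv, ← Finset.prod_inv_distrib]
    refine mul_mem (hbinvW j) (prod_mem (fun i _ => ?_))
    rw [← zpow_neg]
    exact zpow_mem _ _ _ (huW i) (huinvW i)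
  have hπW : π.range ≤ W := by
    rintro _ ⟨b, rfl⟩
    have h1 : Subring.closure (Set.range g') ≤ W.comap π := by
      rw [Subring.closure_le]
      rintro _ ⟨i, rfl⟩
      show π (g' i) ∈ W
      by_cases h : π (g' i) = 0
      · rw [h]; exact zero_mem _
      · exact hyW ⟨i, h⟩
    rw [hcl] at h1
    exact h1 (Subring.mem_top b)
  have hxinvW : (π x)⁻¹ ∈ W := by
    rw [hx, ← Finset.prod_inv_distrib]
    exact prod_mem (fun j _ => hyinvW j)
  have hs0invW : s0⁻¹ ∈ W := hB1W (inv_mem_aw _ hs00)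
  have hsinvW : (π (x * a))⁻¹ ∈ W := by
    have : (π (x * a))⁻¹ = (π x)⁻¹ * (s0⁻¹ * (π x)⁻¹ ^ κ) := by
      rw [map_mul, has, mul_inv, mul_inv, inv_pow]
    rw [this]
    exact mul_mem hxinvW (mul_mem hs0invW (pow_mem hxinvW κ))
  have hVW : V ≤ W := aw_le _ hs' hπW hsinvW
  intro v hv
  obtain ⟨n, f, hf⟩ := hVW hv
  exact ⟨n, f, hf.symm⟩

end Pool.Agent.Helper67.Bass
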