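import Pool.Agent.Helper67.Bass.Small

/-!
# Homogeneous fractions
-/

set_option autoImplicit false
set_option linter.style.haveILetI false
set_option linter.unusedSectionVars false

namespace Pool.Agent.Helper67.Bass

open Function
open scoped nonZeroDivisors Polynomial

universe u v w

variable {ι : Type v} [AddCommGroup ι] [DecidableEq ι] {A : Type u} [CommRing A]
  {σ : Type w} [SetLike σ A] [AddSubgroupClass σ A] (𝒜 : ι → σ) [GradedRing 𝒜]
  {K : Type u} [Field K] (π : A →+* K)

variable {𝒜 π}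

theorem HF.pow {i : ι} {x : K} (hx : HF 𝒜 π i x) (n : ℕ) : HF 𝒜 π (n • i) (x ^ n) := by
  induction n with
  | zero => rw [zero_smul, pow_zero]; exact HF.one
  | succ n ih => rw [succ_nsmul, pow_succ]; exact ih.mul hx

theorem HF.zpow {i : ι} {x : K} (hx : HF 𝒜 π i x) (h0 : x ≠ 0) (n : ℤ) :
    HF 𝒜 π (n • i) (x ^ n) := by
  obtain ⟨n, rfl | rfl⟩ := n.eq_nat_or_neg
  · rw [natCast_zsmul, zpow_natCast]; exact hx.pow n
  · rw [neg_smul, natCast_zsmul, zpow_neg, zpow_natCast]
    exact (hx.pow n).inv (pow_ne_zero _ h0)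

theorem HF.prod {κ : Type*} (s : Finset κ) (d : κ → ι) (x : κ → K)
    (h : ∀ k ∈ s, HF 𝒜 π (d k) (x k)) : HF 𝒜 π (∑ k ∈ s, d k) (∏ k ∈ s, x k) := by
  classical
  induction s using Finset.induction_on with
  | empty => rw [Finset.sum_empty, Finset.prod_empty]; exact HF.one
  | insert k s hk ih =>
    rw [Finset.sum_insert hk, Finset.prod_insert hk]
    exact (h k (Finset.mem_insert_self _ _)).mul
      (ih (fun l hl => h l (Finset.mem_insert_of_mem hl)))

/-- common denominators -/
theorem HF.common {κ : Type*} (s : Finset κ) (d : κ → ι) (x : κ → K)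
    (h : ∀ k ∈ s, HF 𝒜 π (d k) (x k)) :
    ∃ j : ι, ∃ b ∈ 𝒜 j, π b ≠ 0 ∧ ∀ k ∈ s, ∃ a ∈ 𝒜 (d k + j), x k * π b = π a := by
  classical
  induction s using Finset.induction_on with
  | empty => exact ⟨0, 1, SetLike.GradedOne.one_mem, by simp, by simp⟩
  | insert k s hk ih =>
    obtain ⟨j, b, hb, hb0, hs⟩ := ih (fun l hl => h l (Finset.mem_insert_of_mem hl))
    obtain ⟨j', a', ha', b', hb', hb0', hab'⟩ := h k (Finset.mem_insert_self _ _)
    refine ⟨j + j', b * b', SetLike.GradedMul.mul_mem hb hb', ?_, ?_⟩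
    · rw [map_mul]; exact mul_ne_zero hb0 hb0'
    · intro l hl
      rw [Finset.mem_insert] at hl
      rcases hl with rfl | hl
      · refine ⟨a' * b, ?_, ?_⟩
        · have := SetLike.GradedMul.mul_mem ha' hb
          rwa [add_assoc, add_comm j' j] at this
        · rw [map_mul, map_mul, ← hab']; ring
      · obtain ⟨a, ha, hab⟩ := hs l hl
        refine ⟨a * b', ?_, ?_⟩
        · have := SetLike.GradedMul.mul_mem ha hb'
          rwa [add_assoc] at this
        · rw [map_mul, map_mul, ← hab]; ring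

/-- homogeneous fractions of different degrees are independent -/
theorem HF.indep (hker : (RingHom.ker π).IsHomogeneous 𝒜) {κ : Type*} (s : Finset κ) (d : κ → ι)
    (hd : Set.InjOn d s) (x : κ → K) (h : ∀ k ∈ s, HF 𝒜 π (d k) (x k))
    (h0 : ∑ k ∈ s, x k = 0) : ∀ k ∈ s, x k = 0 := by
  classical
  obtain ⟨j, b, hb, hb0, hs⟩ := HF.common s d x h
  choose! a ha hab using hs
  have h1 : ∑ k ∈ s, a k ∈ RingHom.ker π := by
    rw [RingHom.mem_ker, map_sum, ← Finset.sum_congr rfl (fun k hk => hab k hk),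
      ← Finset.sum_mul, h0, zero_mul]
  intro k hk
  have h2 := hker (d k + j) h1
  have h3 : ((DirectSum.decompose 𝒜 (∑ k ∈ s, a k) (d k + j) : 𝒜 (d k + j)) : A) = a k := by
    rw [DirectSum.decompose_sum, DFinsupp.finsetSum_apply, AddSubmonoidClass.coe_finsetSum,
      Finset.sum_eq_single k]
    · exact DirectSum.decompose_of_mem_same 𝒜 (ha k hk)
    · intro l hl hlk
      apply DirectSum.decompose_of_mem_ne 𝒜 (ha l hl)
      intro h4
      exact hlk (hd hl hk (add_right_cancel h4))
    · intro hk'; exact absurd hk hk'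
  rw [h3, RingHom.mem_ker, ← hab k hk] at h2
  exact (mul_eq_zero.1 h2).resolve_right hb0

/-- a homogeneous fraction which comes from the ring comes from a homogeneous element -/
theorem HF.lift (hker : (RingHom.ker π).IsHomogeneous 𝒜) {i : ι} {a : A}
    (h : HF 𝒜 π i (π a)) : ∃ a' ∈ 𝒜 i, π a' = π a := by
  obtain ⟨j, c, hc, b, hb, hb0, hcb⟩ := h
  refine ⟨(DirectSum.decompose 𝒜 a i : 𝒜 i), SetLike.coe_mem _, ?_⟩
  have h1 : a * b - c ∈ RingHom.ker π := by
    rw [RingHom.mem_ker, map_sub, map_mul, hcb, sub_self]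
  have h2 := hker (i + j) h1
  rw [DirectSum.decompose_sub, DirectSum.sub_apply, AddSubgroupClass.coe_sub,
    DirectSum.decompose_of_mem_same 𝒜 hc, DirectSum.coe_decompose_mul_add_of_right_mem 𝒜 hb,
    RingHom.mem_ker, map_sub, map_mul, sub_eq_zero, ← hcb] at h2
  exact mul_right_cancel₀ hb0 h2

variable (𝒜 π)

theorem mem_K0 {x : K} : x ∈ K0 𝒜 π ↔ HF 𝒜 π 0 x := Iff.rfl

theorem KroneckerLeOne.of_hom {L L' : Type u} [Field L] [Field L'] (θ : L →+* L') (h : KroneckerLeOne L') :
    KroneckerLeOne L := by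
  rcases h with h | ⟨p, hp, hp0, h⟩
  · left
    intro x
    obtain ⟨f, hf, hfx⟩ := h (θ x)
    refine ⟨f, hf, θ.injective ?_⟩
    rw [map_zero, ← hfx]
    exact (Polynomial.aeval_algHom_apply (θ.toIntAlgHom) x f).symm
  · right
    refine ⟨p, hp, ?_, ?_⟩
    · apply θ.injective; rw [map_natCast, hp0, map_zero]
    · intro x y
      obtain ⟨F, hF, hF0⟩ := h (θ x) (θ y)
      refine ⟨F, hF, θ.injective ?_⟩
      rw [map_zero, ← hF0]
      have h1 : (![θ x, θ y] : Fin 2 → L') = fun i => θ.toIntAlgHom ((![x, y] : Fin 2 → L) i) := by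
        ext i; fin_cases i <;> rfl
      rw [h1, ← MvPolynomial.comp_aeval_apply]
      rfl

/-- heredity -/
theorem KroneckerLeOne.mono_aux {K' : Type u} [Field K'] (π' : A →+* K')
    (hle : RingHom.ker π ≤ RingHom.ker π') (h : KroneckerLeOne (K0 𝒜 π)) (M : Submonoid A)
    (hM : ∀ a, a ∈ M ↔ π' a ≠ 0) (L : Type u) [CommRing L] [Algebra A L] [IsLocalization M L] :
    KroneckerLeOne (K0 𝒜 π') := by
  have hu' : ∀ y : M, IsUnit (π' y) := fun y => isUnit_iff_ne_zero.2 ((hM y).1 y.2)
  have hu : ∀ y : M, IsUnit (π y) := fun y => isUnit_iff_ne_zero.2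
    (fun h => (hM y).1 y.2 (hle h))
  let φ : L →+* K := IsLocalization.lift hu
  let φ' : L →+* K' := IsLocalization.lift hu'
  have hk : ∀ z : L, φ z = 0 → φ' z = 0 := by
    intro z hz
    obtain ⟨a, s, rfl⟩ := IsLocalization.exists_mk'_eq M z
    have h1 : π a = 0 := by
      have h2 : φ (algebraMap A L a) = 0 := by
        rw [← IsLocalization.mk'_spec L a s, map_mul, hz, zero_mul]
      have h3 : φ (algebraMap A L a) = π a := IsLocalization.lift_eq hu a
      rwa [h3] at h2
    have h4 : π' a = 0 := hle h1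
    have h5 : φ' (IsLocalization.mk' L a s) * φ' (algebraMap A L s) = 0 := by
      rw [← map_mul, IsLocalization.mk'_spec]
      have : φ' (algebraMap A L a) = π' a := IsLocalization.lift_eq hu' a
      rw [this, h4]
    have h6 : φ' (algebraMap A L s) = π' s := IsLocalization.lift_eq hu' s
    rw [h6] at h5
    exact (mul_eq_zero.1 h5).resolve_right (hu' s).ne_zero
  -- lifting of elements
  have hl : ∀ x : K0 𝒜 π', ∃ z : L, φ' z = x ∧ φ z ∈ K0 𝒜 π := by
    rintro ⟨x, hx⟩
    obtain ⟨j, a, ha, b, hb, hb0, hab⟩ := hx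
    let s : M := ⟨b, (hM b).2 hb0⟩
    refine ⟨IsLocalization.mk' L a s, ?_, ?_⟩
    · have h1 : φ' (IsLocalization.mk' L a s) * φ' (algebraMap A L s) = φ' (algebraMap A L a) := by
        rw [← map_mul, IsLocalization.mk'_spec]
      have h2 : φ' (algebraMap A L s) = π' b := IsLocalization.lift_eq hu' _
      have h3 : φ' (algebraMap A L a) = π' a := IsLocalization.lift_eq hu' _
      rw [h2, h3, ← hab] at h1
      exact mul_right_cancel₀ hb0 h1
    · have h1 : φ (IsLocalization.mk' L a s) * φ (algebraMap A L s) = φ (algebraMap A L a) := by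
        rw [← map_mul, IsLocalization.mk'_spec]
      have h2 : φ (algebraMap A L s) = π b := IsLocalization.lift_eq hu _
      have h3 : φ (algebraMap A L a) = π a := IsLocalization.lift_eq hu _
      rw [h2, h3] at h1
      exact ⟨j, a, ha, b, hb, (hu s).ne_zero, h1⟩
  rcases h with h | ⟨p, hp, hp0, h⟩
  · left
    intro x
    obtain ⟨z, hz, hzK⟩ := hl x
    obtain ⟨f, hf, hfx⟩ := h ⟨φ z, hzK⟩
    refine ⟨f, hf, ?_⟩
    have h1 : Polynomial.aeval (φ z) f = 0 := by
      have := congrArg (algebraMap (K0 𝒜 π) K) hfx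
      rw [map_zero, ← Polynomial.aeval_algebraMap_apply] at this
      exact this
    have h2 : φ (Polynomial.aeval z f) = 0 := by
      rw [← h1]; exact (Polynomial.aeval_algHom_apply (φ.toIntAlgHom) z f).symm
    have h3 := hk _ h2
    have h4 : Polynomial.aeval (φ' z) f = 0 := by
      rw [← h3]; exact Polynomial.aeval_algHom_apply (φ'.toIntAlgHom) z f
    rw [hz] at h4
    apply (algebraMap (K0 𝒜 π') K').injective
    rw [map_zero, ← Polynomial.aeval_algebraMap_apply]
    exact h4
  · right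
    refine ⟨p, hp, ?_, ?_⟩
    · have h1 : (p : A) ∈ RingHom.ker π := by
        rw [RingHom.mem_ker, map_natCast]
        have := congrArg (algebraMap (K0 𝒜 π) K) hp0
        rwa [map_zero, map_natCast] at this
      have h2 := hle h1
      rw [RingHom.mem_ker, map_natCast] at h2
      apply (algebraMap (K0 𝒜 π') K').injective
      rw [map_zero, map_natCast]; exact h2
    · intro x y
      obtain ⟨z, hz, hzK⟩ := hl x
      obtain ⟨z', hz', hzK'⟩ := hl y
      obtain ⟨F, hF, hFx⟩ := h ⟨φ z, hzK⟩ ⟨φ z', hzK'⟩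
      refine ⟨F, hF, ?_⟩
      have h1 : MvPolynomial.aeval ![φ z, φ z'] F = 0 := by
        have := congrArg (algebraMap (K0 𝒜 π) K) hFx
        rw [map_zero, ← MvPolynomial.aeval_algebraMap_apply] at this
        rw [← this]
        congr 2
        ext i; fin_cases i <;> rfl
      have h2 : φ (MvPolynomial.aeval ![z, z'] F) = 0 := by
        rw [← h1]
        have h1 : (![φ z, φ z'] : Fin 2 → K) = fun i => φ.toIntAlgHom ((![z, z'] : Fin 2 → L) i) := by
          ext i; fin_cases i <;> rfl
        rw [h1, ← MvPolynomial.comp_aeval_apply]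
        rfl
      have h3 := hk _ h2
      have h4 : MvPolynomial.aeval ![φ' z, φ' z'] F = 0 := by
        rw [← h3]
        have h1 : (![φ' z, φ' z'] : Fin 2 → K') =
            fun i => φ'.toIntAlgHom ((![z, z'] : Fin 2 → L) i) := by
          ext i; fin_cases i <;> rfl
        rw [h1, ← MvPolynomial.comp_aeval_apply]
        rfl
      rw [hz, hz'] at h4
      apply (algebraMap (K0 𝒜 π') K').injective
      rw [map_zero, ← MvPolynomial.aeval_algebraMap_apply, ← h4]
      congr 2
      ext i; fin_cases i <;> rfl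

/-- heredity -/
theorem KroneckerLeOne.mono {K' : Type u} [Field K'] (π' : A →+* K') (hle : RingHom.ker π ≤ RingHom.ker π')
    (h : KroneckerLeOne (K0 𝒜 π)) : KroneckerLeOne (K0 𝒜 π') := by
  have hP : (RingHom.ker π').IsPrime := RingHom.ker_isPrime π'
  exact KroneckerLeOne.mono_aux 𝒜 π π' hle h (RingHom.ker π').primeCompl (fun a => Iff.rfl)
    (Localization (RingHom.ker π').primeCompl)

end Pool.Agent.Helper67.Bass
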