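import Pool.Agent.Helper67.Bass.Main1

/-!
# Linear systems over a graded ring, and bilinear hypersurfaces
-/

set_option autoImplicit false
set_option linter.style.haveILetI false
set_option linter.unusedSectionVars false

namespace Pool.Agent.Helper67.Bass

open Function MvPolynomial

universe u v w

section pivot

variable {A : Type u} [CommRing A]

/-- the ideal generated by `I` and the linear forms with coefficients the rows of `φ` -/
noncomputable def LI {κ σ : Type} [Fintype σ] (I : Ideal A) (φ : κ → σ → A) :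
    Ideal (MvPolynomial σ A) :=
  I.map C ⊔ Ideal.span (Set.range fun k => ∑ j, C (φ k j) * X j)

theorem LI_zero {κ σ : Type} [Fintype σ] (I : Ideal A) (φ : κ → σ → A) (h : ∀ k j, φ k j ∈ I) :
    LI I φ = I.map C := by
  unfold LI
  rw [sup_eq_left, Ideal.span_le]
  rintro _ ⟨k, rfl⟩
  exact Ideal.sum_mem _ (fun j _ => Ideal.mul_mem_right _ _ (Ideal.mem_map_of_mem C (h k j)))

theorem finGn_zero [IsNoetherianRing A] {κ σ : Type} [Fintype σ] (I : Ideal A) (φ : κ → σ → A)
    (h : ∀ k j, φ k j ∈ I) (hI : FinGn (A ⧸ I)) : FinGn (MvPolynomial σ A ⧸ LI I φ) := by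
  rw [LI_zero I φ h]
  exact FinGn.of_equiv (quotientEquivQuotientMvPolynomial (σ := σ) I).toRingEquiv
    (hI.mvPolynomial σ)

/-- a ring homomorphism which becomes an isomorphism after inverting `s` -/
theorem finGn_of_almost_iso {T' T : Type u} [CommRing T'] [CommRing T] [IsNoetherianRing T']
    (g : T' →+* T) (s' : T') (s : T) (hs : g s' = s)
    (h1 : ∀ t : T, ∃ (m : ℕ) (t' : T'), s ^ m * t = g t')
    (h2 : ∀ t' : T', g t' = 0 → ∃ m : ℕ, s' ^ m * t' = 0) (h : FinGn T') :
    FinGn (Localization.Away s) := by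
  letI : Algebra T' (Localization.Away s) :=
    ((algebraMap T (Localization.Away s)).comp g).toAlgebra
  have halg : ∀ t', algebraMap T' (Localization.Away s) t' =
    algebraMap T (Localization.Away s) (g t') := fun t' => rfl
  haveI : IsLocalization.Away s' (Localization.Away s) := by
    refine { map_units := ?_, surj := ?_, exists_of_eq := ?_ }
    · rintro ⟨_, n, rfl⟩
      rw [halg]
      show IsUnit (algebraMap T (Localization.Away s) (g (s' ^ n)))
      rw [map_pow, hs, map_pow]
      exact (IsLocalization.Away.algebraMap_isUnit s).pow n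
    · intro z
      obtain ⟨n, t, hz⟩ := IsLocalization.Away.surj s z
      obtain ⟨m, t', ht⟩ := h1 t
      refine ⟨(t', ⟨s' ^ (n + m), n + m, rfl⟩), ?_⟩
      rw [halg, halg]
      show z * algebraMap T (Localization.Away s) (g (s' ^ (n + m))) = _
      rw [map_pow, hs, map_pow, pow_add, ← mul_assoc, hz, ← map_pow, ← map_mul, mul_comm t, ht]
    · intro x y hxy
      rw [halg, halg] at hxy
      obtain ⟨⟨_, n, rfl⟩, hc⟩ := (IsLocalization.eq_iff_exists (Submonoid.powers s) _).1 hxy
      have hc' : s ^ n * g x = s ^ n * g y := hc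
      have h3 : g (s' ^ n * (x - y)) = 0 := by
        rw [map_mul, map_pow, hs, map_sub, mul_sub, hc', sub_self]
      obtain ⟨m, hm⟩ := h2 _ h3
      refine ⟨⟨s' ^ (m + n), m + n, rfl⟩, ?_⟩
      show s' ^ (m + n) * x = s' ^ (m + n) * y
      rw [← sub_eq_zero, ← mul_sub, pow_add, mul_assoc]
      exact hm
  exact FinGn.away s' h

variable {κ σ : Type} [Fintype σ] [DecidableEq σ]

/-- elimination of one variable -/
def elim (φ : κ → σ → A) (k0 : κ) (j0 : σ) : κ → {l : σ // l ≠ j0} → A :=
  fun k l => φ k0 j0 * φ k l - φ k j0 * φ k0 l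

theorem finGn_pivot [IsNoetherianRing A] (I : Ideal A) (φ : κ → σ → A) (k0 : κ) (j0 : σ)
    (h1 : FinGn (MvPolynomial σ A ⧸ LI (I ⊔ Ideal.span {φ k0 j0}) φ))
    (h2 : FinGn (MvPolynomial {l : σ // l ≠ j0} A ⧸ LI I (elim φ k0 j0))) :
    FinGn (MvPolynomial σ A ⧸ LI I φ) := by
  classical
  set s := φ k0 j0 with hs
  set S := {l : σ // l ≠ j0} with hS
  set T := MvPolynomial σ A ⧸ LI I φ with hT
  set T' := MvPolynomial S A ⧸ LI I (elim φ k0 j0) with hT'
  let mk : MvPolynomial σ A →+* T := Ideal.Quotient.mk _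
  let mk' : MvPolynomial S A →+* T' := Ideal.Quotient.mk _
  have hrow : ∀ k, mk (∑ j, C (φ k j) * X j) = 0 := fun k =>
    Ideal.Quotient.eq_zero_iff_mem.2 (Ideal.mem_sup_right (Ideal.subset_span ⟨k, rfl⟩))
  have hrow' : ∀ k, mk' (∑ l, C (elim φ k0 j0 k l) * X l) = 0 := fun k =>
    Ideal.Quotient.eq_zero_iff_mem.2 (Ideal.mem_sup_right (Ideal.subset_span ⟨k, rfl⟩))
  have hIk : ∀ a ∈ I, mk (C a) = 0 := fun a ha =>
    Ideal.Quotient.eq_zero_iff_mem.2 (Ideal.mem_sup_left (Ideal.mem_map_of_mem C ha))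
  have hIk' : ∀ a ∈ I, mk' (C a) = 0 := fun a ha =>
    Ideal.Quotient.eq_zero_iff_mem.2 (Ideal.mem_sup_left (Ideal.mem_map_of_mem C ha))
  have hsplit : ∀ (B : Type u) [AddCommMonoid B] (f : σ → B),
      ∑ j, f j = f j0 + ∑ l : S, f l := by
    intro B _ f
    rw [← Finset.add_sum_erase Finset.univ f (Finset.mem_univ j0)]
    congr 1
    rw [Finset.sum_subtype (Finset.univ.erase j0) (p := fun l => l ≠ j0) (by simp) f]
  -- the map `g`
  let g0 : MvPolynomial S A →+* T := mk.comp (rename (Subtype.val : S → σ)).toRingHom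
  have hg0C : ∀ a, g0 (C a) = mk (C a) := fun a => by
    show mk (rename Subtype.val (C a)) = _
    rw [rename_C]
  have hg0X : ∀ l : S, g0 (X l) = mk (X l.1) := fun l => by
    show mk (rename Subtype.val (X l)) = _
    rw [rename_X]
  have hg0ker : LI I (elim φ k0 j0) ≤ RingHom.ker g0 := by
    unfold LI
    rw [sup_le_iff]
    constructor
    · rw [Ideal.map_le_iff_le_comap]
      intro a ha
      show g0 (C a) = 0
      rw [hg0C, hIk a ha]
    · rw [Ideal.span_le]
      rintro _ ⟨k, rfl⟩
      show g0 (∑ l, C (elim φ k0 j0 k l) * X l) = 0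
      rw [map_sum]
      have e1 : ∀ l : S, g0 (C (elim φ k0 j0 k l) * X l) =
          mk (C s) * mk (C (φ k l) * X l.1) - mk (C (φ k j0)) * mk (C (φ k0 l) * X l.1) := by
        intro l
        rw [map_mul, hg0C, hg0X, elim]
        simp only [map_sub, map_mul]
        ring
      rw [Finset.sum_congr rfl (fun l _ => e1 l), Finset.sum_sub_distrib, ← Finset.mul_sum,
        ← Finset.mul_sum]
      have e2 := hrow k
      have e3 := hrow k0
      rw [map_sum, hsplit] at e2 e3
      have e4 : ∑ l : S, mk (C (φ k l) * X l.1) = - mk (C (φ k j0) * X j0) := by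
        linear_combination e2
      have e5 : ∑ l : S, mk (C (φ k0 l) * X l.1) = - mk (C (φ k0 j0) * X j0) := by
        linear_combination e3
      rw [e4, e5, map_mul, map_mul]
      ring
  let g : T' →+* T := Ideal.Quotient.lift _ g0 hg0ker
  have hgC : ∀ a, g (mk' (C a)) = mk (C a) := fun a =>
    (Ideal.Quotient.lift_mk _ _ _).trans (hg0C a)
  have hgX : ∀ l : S, g (mk' (X l)) = mk (X l.1) := fun l =>
    (Ideal.Quotient.lift_mk _ _ _).trans (hg0X l)
  -- the retraction after inverting `s`
  let L := Localization.Away (mk' (C s))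
  let al : T' →+* L := algebraMap T' L
  have hunit : IsUnit (al (mk' (C s))) := IsLocalization.Away.algebraMap_isUnit _
  obtain ⟨w, hw⟩ := isUnit_iff_exists_inv.1 hunit
  let v : σ → L := fun j => if h : j = j0 then - w * ∑ l : S, al (mk' (C (φ k0 l) * X l))
    else al (mk' (X ⟨j, h⟩))
  have hv0 : v j0 = - w * ∑ l : S, al (mk' (C (φ k0 l) * X l)) := by simp [v]
  have hvl : ∀ l : S, v l = al (mk' (X l)) := by
    rintro ⟨l, hl⟩
    simp [v, hl]
  let h0 : MvPolynomial σ A →+* L := eval₂Hom ((al.comp mk').comp C) v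
  have hh0C : ∀ a, h0 (C a) = al (mk' (C a)) := fun a => by
    simp [h0]
  have hh0X : ∀ j, h0 (X j) = v j := fun j => by simp [h0]
  have hh0ker : LI I φ ≤ RingHom.ker h0 := by
    unfold LI
    rw [sup_le_iff]
    constructor
    · rw [Ideal.map_le_iff_le_comap]
      intro a ha
      show h0 (C a) = 0
      rw [hh0C, hIk' a ha, map_zero]
    · rw [Ideal.span_le]
      rintro _ ⟨k, rfl⟩
      show h0 (∑ j, C (φ k j) * X j) = 0
      rw [map_sum, hsplit, map_mul, hh0C, hh0X, hv0]
      have e1 : ∀ l : S, h0 (C (φ k l) * X l.1) = al (mk' (C (φ k l) * X l)) := by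
        intro l
        rw [map_mul, hh0C, hh0X, hvl, map_mul, map_mul]
      rw [Finset.sum_congr rfl (fun l _ => e1 l)]
      have e2 := congrArg al (hrow' k)
      rw [map_sum, map_sum, map_zero] at e2
      have e3 : ∀ l : S, al (mk' (C (elim φ k0 j0 k l) * X l)) =
          al (mk' (C s)) * al (mk' (C (φ k l) * X l)) -
          al (mk' (C (φ k j0))) * al (mk' (C (φ k0 l) * X l)) := by
        intro l
        rw [elim]
        simp only [map_sub, map_mul]
        ring
      rw [Finset.sum_congr rfl (fun l _ => e3 l), Finset.sum_sub_distrib, ← Finset.mul_sum,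
        ← Finset.mul_sum] at e2
      apply hunit.mul_left_cancel
      rw [mul_zero]
      linear_combination e2 - (al (mk' (C (φ k j0))) *
        ∑ l : S, al (mk' (C (φ k0 l) * X l))) * hw
  let hh : T →+* L := Ideal.Quotient.lift _ h0 hh0ker
  have hhg : hh.comp g = al := by
    apply Ideal.Quotient.ringHom_ext
    apply MvPolynomial.ringHom_ext
    · intro a
      show hh (g (mk' (C a))) = al (mk' (C a))
      rw [hgC]
      exact (Ideal.Quotient.lift_mk _ _ _).trans (hh0C a)
    · intro l
      show hh (g (mk' (X l))) = al (mk' (X l))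
      rw [hgX]
      exact (Ideal.Quotient.lift_mk _ _ _).trans ((hh0X l.1).trans (hvl l))
  -- the two conditions
  have c2 : ∀ t' : T', g t' = 0 → ∃ m : ℕ, (mk' (C s)) ^ m * t' = 0 := by
    intro t' ht'
    have h3 : al t' = 0 := by rw [← hhg, RingHom.comp_apply, ht', map_zero]
    obtain ⟨⟨_, m, rfl⟩, hm⟩ := (IsLocalization.map_eq_zero_iff
      (Submonoid.powers (mk' (C s))) L t').1 h3
    exact ⟨m, hm⟩
  have c1 : ∀ t : T, ∃ (m : ℕ) (t' : T'), (mk (C s)) ^ m * t = g t' := by
    intro t
    obtain ⟨f, rfl⟩ := Ideal.Quotient.mk_surjective t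
    show ∃ (m : ℕ) (t' : T'), (mk (C s)) ^ m * mk f = g t'
    induction f using MvPolynomial.induction_on with
    | C a => exact ⟨0, mk' (C a), by rw [pow_zero, one_mul, hgC]⟩
    | add p q hp hq =>
      obtain ⟨m, t, ht⟩ := hp
      obtain ⟨n, r, hr⟩ := hq
      refine ⟨m + n, (mk' (C s)) ^ n * t + (mk' (C s)) ^ m * r, ?_⟩
      rw [map_add, map_add, map_mul, map_mul, map_pow, map_pow, hgC, ← ht, ← hr]
      ring
    | mul_X p j hp =>
      obtain ⟨m, t, ht⟩ := hp
      by_cases hj : j = j0
      · subst hj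
        refine ⟨m + 1, t * mk' (- ∑ l : S, C (φ k0 l) * X l), ?_⟩
        have e3 := hrow k0
        rw [map_sum, hsplit] at e3
        have e4 : g (mk' (∑ l : S, C (φ k0 l) * X l)) = ∑ l : S, mk (C (φ k0 l) * X l.1) := by
          rw [map_sum, map_sum]
          refine Finset.sum_congr rfl (fun l _ => ?_)
          rw [map_mul, map_mul, hgC, hgX, map_mul]
        have e5 : mk (C (φ k0 j) * X j) = mk (C s) * mk (X j) := map_mul _ _ _
        have e6 : mk (p * X j) = mk p * mk (X j) := map_mul _ _ _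
        rw [e5] at e3
        rw [map_mul g, map_neg, map_neg, e4, ← ht, e6]
        linear_combination (mk (C s) ^ m * mk p) * e3
      · refine ⟨m, t * mk' (X ⟨j, hj⟩), ?_⟩
        rw [map_mul, map_mul, hgX, ← ht]
        ring
  refine FinGn.of_away (s := mk (C s)) (V := Localization.Away (mk (C s))) ?_
    (finGn_of_almost_iso g (mk' (C s)) (mk (C s)) (hgC s) c1 c2 h2)
  have e1 : Ideal.span {mk (C s)} = (Ideal.span {C s}).map mk := by
    rw [Ideal.map_span, Set.image_singleton]
  rw [e1]
  refine FinGn.of_equiv (DoubleQuot.quotQuotEquivQuotSup (LI I φ) (Ideal.span {C s})).symm ?_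
  have e2 : LI I φ ⊔ Ideal.span {C s} = LI (I ⊔ Ideal.span {s}) φ := by
    unfold LI
    rw [Ideal.map_sup, Ideal.map_span, Set.image_singleton]
    ac_rfl
  rw [e2]
  exact h1

end pivot

end Pool.Agent.Helper67.Bass
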