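import Pool.Agent.Helper67.Bass.Graded

/-!
# Graded rings of complexity at most one
-/

set_option autoImplicit false
set_option linter.style.haveILetI false
set_option linter.unusedSectionVars false

namespace Pool.Agent.Helper67.Bass

open Function
open scoped nonZeroDivisors Polynomial

universe u v w

theorem ker_toFrac {A : Type u} [CommRing A] (P : Ideal A) [P.IsPrime] :
    RingHom.ker (toFrac P) = P := by
  ext a
  rw [RingHom.mem_ker, toFrac, RingHom.comp_apply]
  constructor
  · intro h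
    have := IsFractionRing.injective (A ⧸ P) (FractionRing (A ⧸ P)) (h.trans (map_zero _).symm)
    exact Ideal.Quotient.eq_zero_iff_mem.1 this
  · intro h
    rw [Ideal.Quotient.eq_zero_iff_mem.2 h, map_zero]

variable {ι : Type v} [AddCommGroup ι] [LinearOrder ι] [IsOrderedAddMonoid ι] {A : Type u}
  [CommRing A] {σ : Type w} [SetLike σ A] [AddSubgroupClass σ A] (𝒜 : ι → σ) [GradedRing 𝒜]

theorem isHomogeneous_sup_span {I : Ideal A} (hI : I.IsHomogeneous 𝒜) {s : A}
    (hs : SetLike.IsHomogeneousElem 𝒜 s) : (I ⊔ Ideal.span {s}).IsHomogeneous 𝒜 := by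
  apply Ideal.IsHomogeneous.sup hI
  apply Ideal.homogeneous_span
  intro x hx
  rw [Set.mem_singleton_iff] at hx
  rw [hx]; exact hs

/-- Main theorem, hereditary form -/
theorem finGn_graded_quotient [Algebra.FiniteType ℤ A]
    (h : ∀ (P : Ideal A) [P.IsPrime], P.IsHomogeneous 𝒜 → RationalOverKroneckerLeOne (K0 𝒜 (toFrac P))) :
    ∀ I : Ideal A, I.IsHomogeneous 𝒜 → FinGn (A ⧸ I) := by
  haveI : IsNoetherianRing A := Algebra.FiniteType.isNoetherianRing ℤ A
  intro I
  refine IsNoetherian.induction (R := A) (M := A)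
    (P := fun I : Ideal A => I.IsHomogeneous 𝒜 → FinGn (A ⧸ I)) ?_ I
  intro (I : Ideal A) ih hI
  by_cases htop : I = ⊤
  · subst htop
    haveI : Subsingleton (A ⧸ (⊤ : Ideal A)) := Ideal.Quotient.subsingleton_iff.2 rfl
    exact FinGn.of_subsingleton _
  have hlt : ∀ s : A, s ∉ I → I < I ⊔ Ideal.span {s} := by
    intro s hsI
    refine lt_of_le_of_ne le_sup_left (fun h2 => hsI ?_)
    rw [h2]
    exact Ideal.mem_sup_right (Ideal.mem_span_singleton_self s)
  by_cases hprime : I.IsPrime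
  · have hk := ker_toFrac I
    obtain ⟨s, hs, hs0, hV⟩ := exists_stratum 𝒜 (toFrac I) (by rw [hk]; exact hI) (h I hI)
    have hsI : s ∉ I := by
      intro h1
      rw [← hk] at h1
      exact hs0 h1
    have hq := ih _ (hlt s hsI) (isHomogeneous_sup_span 𝒜 hI hs)
    have := finGn_step (toFrac I) s hs0 hV (by rw [hk]; exact hq)
    rwa [hk] at this
  · have hex : ∃ x y : A, SetLike.IsHomogeneousElem 𝒜 x ∧ SetLike.IsHomogeneousElem 𝒜 y ∧
        x * y ∈ I ∧ x ∉ I ∧ y ∉ I := by
      by_contra hcon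
      apply hprime
      apply hI.isPrime_of_homogeneous_mem_or_mem htop
      intro x y hx hy hxy
      by_contra hne
      push Not at hne
      exact hcon ⟨x, y, hx, hy, hxy, hne.1, hne.2⟩
    obtain ⟨x, y, hx, hy, hxy, hxI, hyI⟩ := hex
    have h1 := ih _ (hlt x hxI) (isHomogeneous_sup_span 𝒜 hI hx)
    have h2 := ih _ (hlt y hyI) (isHomogeneous_sup_span 𝒜 hI hy)
    refine FinGn.of_mul (I := (Ideal.span {x}).map (Ideal.Quotient.mk I))
      (J := (Ideal.span {y}).map (Ideal.Quotient.mk I)) ?_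
      (FinGn.of_equiv (DoubleQuot.quotQuotEquivQuotSup I (Ideal.span {x})).symm h1)
      (FinGn.of_equiv (DoubleQuot.quotQuotEquivQuotSup I (Ideal.span {y})).symm h2)
    rw [← Ideal.map_mul, Ideal.span_singleton_mul_span_singleton, Ideal.map_span,
      Set.image_singleton, Ideal.Quotient.eq_zero_iff_mem.2 hxy, Ideal.span_singleton_eq_bot]

theorem finGn_graded [Algebra.FiniteType ℤ A]
    (h : ∀ (P : Ideal A) [P.IsPrime], P.IsHomogeneous 𝒜 → RationalOverKroneckerLeOne (K0 𝒜 (toFrac P))) :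
    FinGn A :=
  FinGn.of_equiv (RingEquiv.quotientBot A)
    (finGn_graded_quotient 𝒜 h ⊥ (Ideal.IsHomogeneous.bot 𝒜))

/-- it suffices to look at the minimal primes, when these are small -/
theorem small_of_minimal
    (h : ∀ (P : Ideal A) [P.IsPrime], P ∈ minimalPrimes A → KroneckerLeOne (K0 𝒜 (toFrac P)))
    (I : Ideal A) [I.IsPrime] : KroneckerLeOne (K0 𝒜 (toFrac I)) := by
  obtain ⟨P, hP, hPI⟩ := Ideal.exists_minimalPrimes_le (bot_le : (⊥ : Ideal A) ≤ I)
  haveI : P.IsPrime := hP.1.1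
  apply KroneckerLeOne.mono 𝒜 (toFrac P) (toFrac I) _ (h P hP)
  rw [ker_toFrac, ker_toFrac]; exact hPI

end Pool.Agent.Helper67.Bass
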