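import Mathlib

/-!
# Inverting one element turns a one-dimensional finitely generated domain into a PID
-/

set_option autoImplicit false
set_option linter.style.haveILetI false
set_option linter.unusedSectionVars false
set_option linter.overlappingInstances false

namespace Pool.Agent.Helper67.Bass

open Function
open scoped nonZeroDivisors

universe u v

section classgroup

/-- A Dedekind domain with finite class group becomes a PID after inverting a suitable nonzero
element, and so does every overring obtained by inverting elements. -/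
theorem exists_pid_elem (D : Type u) [CommRing D] [IsDomain D] [IsDedekindDomain D]
    [Finite (ClassGroup D)] : ∃ t : D, t ≠ 0 ∧ ∀ (L : Type v) [CommRing L] [IsDomain L]
      (φ : D →+* L), Injective φ → IsUnit (φ t) →
      (∀ x : L, ∃ (w : L) (d : D), IsUnit w ∧ w * x = φ d) → IsPrincipalIdealRing L := by
  haveI := Fintype.ofFinite (ClassGroup D)
  have hsurj := ClassGroup.mk0_surjective (R := D)
  choose I hI using hsurj
  have hne : ∀ c : ClassGroup D, ∃ t : D, t ∈ (I c : Ideal D) ∧ t ≠ 0 := by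
    intro c
    have h := mem_nonZeroDivisors_iff_ne_zero.1 (I c).2
    obtain ⟨t, ht, ht0⟩ := Submodule.exists_mem_ne_zero_of_ne_bot h
    exact ⟨t, ht, ht0⟩
  choose τ hτ hτ0 using hne
  refine ⟨∏ c, τ c, Finset.prod_ne_zero_iff.2 (fun c _ => hτ0 c), ?_⟩
  intro L _ _ φ hφ hu hfrac
  have htI : ∀ c, (∏ c, τ c) ∈ (I c : Ideal D) := fun c =>
    Ideal.mem_of_dvd _ (Finset.dvd_prod_of_mem τ (Finset.mem_univ c)) (hτ c)
  generalize (∏ c, τ c) = t at hu htI
  refine ⟨fun J => ?_⟩
  by_cases hJ : J.comap φ = ⊥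
  · refine ⟨0, ?_⟩
    have : J = ⊥ := by
      rw [eq_bot_iff]
      intro x hx
      obtain ⟨w, d, hw, hwx⟩ := hfrac x
      have hd : d ∈ J.comap φ := by
        rw [Ideal.mem_comap, ← hwx]; exact J.mul_mem_left _ hx
      rw [hJ, Ideal.mem_bot] at hd
      rw [hd, map_zero] at hwx
      have : x = 0 := by
        rcases mul_eq_zero.1 hwx with h | h
        · exact absurd h hw.ne_zero
        · exact h
      rw [this]; exact Ideal.zero_mem _
    rw [this]
    simp
  · have hJ0 : J.comap φ ∈ (Ideal D)⁰ := mem_nonZeroDivisors_iff_ne_zero.2 hJ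
    have hcls : ClassGroup.mk0 ⟨J.comap φ, hJ0⟩ =
        ClassGroup.mk0 (I (ClassGroup.mk0 ⟨J.comap φ, hJ0⟩)) := (hI _).symm
    obtain ⟨x, y, hx, hy, hxy⟩ := ClassGroup.mk0_eq_mk0_iff.1 hcls
    set c := ClassGroup.mk0 (⟨J.comap φ, hJ0⟩ : (Ideal D)⁰) with hc
    have hxy' : Ideal.span {x} * J.comap φ = Ideal.span {y} * (I c : Ideal D) := hxy
    have h1 : y * t ∈ Ideal.span {x} * J.comap φ := by
      rw [hxy']
      exact Ideal.mul_mem_mul (Ideal.mem_span_singleton_self y) (htI c)
    obtain ⟨d, hd, hd2⟩ := Ideal.mem_span_singleton_mul.1 h1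
    have hφx : φ x ≠ 0 := (map_ne_zero_iff φ hφ).2 hx
    obtain ⟨T, hT⟩ := hu
    refine ⟨(↑T⁻¹ : L) * φ d, ?_⟩
    have hg : φ x * ((↑T⁻¹ : L) * φ d) = φ y := by
      have : φ x * φ d = φ y * φ t := by rw [← map_mul, ← map_mul, hd2]
      calc φ x * ((↑T⁻¹ : L) * φ d) = (↑T⁻¹ : L) * (φ x * φ d) := by ring
        _ = (↑T⁻¹ : L) * (φ y * φ t) := by rw [this]
        _ = φ y * ((↑T⁻¹ : L) * T) := by rw [← hT]; ring
        _ = φ y := by rw [Units.inv_mul, mul_one]
    apply le_antisymm
    · intro z hz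
      obtain ⟨w, e, hw, hwz⟩ := hfrac z
      have he : e ∈ J.comap φ := by
        rw [Ideal.mem_comap, ← hwz]; exact J.mul_mem_left _ hz
      have h2 : x * e ∈ Ideal.span {y} * (I c : Ideal D) := by
        rw [← hxy']
        exact Ideal.mul_mem_mul (Ideal.mem_span_singleton_self x) he
      obtain ⟨f, _, hf⟩ := Ideal.mem_span_singleton_mul.1 h2
      obtain ⟨W, hW⟩ := hw
      have h3 : φ x * φ e = φ y * φ f := by rw [← map_mul, ← map_mul, hf]
      have h4 : φ x * z = φ x * (((↑T⁻¹ : L) * φ d) * ((↑W⁻¹ : L) * φ f)) := by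
        have h5 : z = (↑W⁻¹ : L) * φ e := by
          rw [← hwz, ← hW, ← mul_assoc, Units.inv_mul, one_mul]
        calc φ x * z = (↑W⁻¹ : L) * (φ x * φ e) := by rw [h5]; ring
          _ = (↑W⁻¹ : L) * (φ y * φ f) := by rw [h3]
          _ = (↑W⁻¹ : L) * ((φ x * ((↑T⁻¹ : L) * φ d)) * φ f) := by rw [hg]
          _ = _ := by ring
      have h6 := mul_left_cancel₀ hφx h4
      rw [h6]
      exact Ideal.mul_mem_right _ _ (Submodule.mem_span_singleton_self _)
    · rw [Ideal.submodule_span_eq, Ideal.span_singleton_le_iff_mem]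
      exact J.mul_mem_left _ hd

end classgroup

section transfer

/-- common denominators for a finitely generated ring -/
lemma exists_den {B D K : Type*} [CommRing B] [CommRing D] [IsDomain D] [Field K]
    [Algebra.FiniteType ℤ B] (β : B →+* K) [Algebra D K] [IsFractionRing D K] :
    ∃ e : D, e ≠ 0 ∧ ∀ b : B, ∃ (n : ℕ) (d : D), algebraMap D K e ^ n * β b = algebraMap D K d := by
  classical
  obtain ⟨S, hS⟩ := (inferInstance : Algebra.FiniteType ℤ B).out
  have hdiv : ∀ b : B, ∃ x y : D, y ≠ 0 ∧ algebraMap D K y * β b = algebraMap D K x := by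
    intro b
    obtain ⟨x, y, hy, hxy⟩ := IsFractionRing.div_surjective (A := D) (β b)
    have hy0 : y ≠ 0 := nonZeroDivisors.ne_zero hy
    have hy1 : algebraMap D K y ≠ 0 := by
      rw [Ne, IsFractionRing.to_map_eq_zero_iff]; exact hy0
    exact ⟨x, y, hy0, by rw [← hxy]; field_simp⟩
  choose x y hy hxy using hdiv
  refine ⟨∏ b ∈ S, y b, Finset.prod_ne_zero_iff.2 (fun b _ => hy b), ?_⟩
  intro b
  have hb : b ∈ Algebra.adjoin ℤ (S : Set B) := by rw [hS]; trivial
  induction hb using Algebra.adjoin_induction with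
  | mem b hb =>
      refine ⟨1, (∏ b' ∈ S.erase b, y b') * x b, ?_⟩
      have h1 : ∏ b' ∈ S, y b' = y b * ∏ b' ∈ S.erase b, y b' :=
        (Finset.mul_prod_erase S y hb).symm
      rw [pow_one, h1, map_mul, map_mul, ← hxy]
      ring
  | algebraMap r => exact ⟨0, (r : D), by simp⟩
  | add b b' _ _ h h' =>
      obtain ⟨n, d, hd⟩ := h
      obtain ⟨n', d', hd'⟩ := h'
      refine ⟨n + n', (∏ b ∈ S, y b) ^ n' * d + (∏ b ∈ S, y b) ^ n * d', ?_⟩
      rw [map_add, map_add, map_mul, map_mul, map_pow, map_pow, ← hd, ← hd']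
      ring
  | mul b b' _ _ h h' =>
      obtain ⟨n, d, hd⟩ := h
      obtain ⟨n', d', hd'⟩ := h'
      refine ⟨n + n', d * d', ?_⟩
      rw [map_mul, map_mul, ← hd, ← hd']
      ring

/-- the transfer lemma -/
theorem exists_pid_of_dedekind (B : Type u) [CommRing B] [IsDomain B] [Algebra.FiniteType ℤ B]
    (K : Type u) [Field K] [Algebra B K] [IsFractionRing B K]
    (D : Type u) [CommRing D] [IsDomain D] [IsDedekindDomain D] [Finite (ClassGroup D)]
    [Algebra.FiniteType ℤ D] [Algebra D K] [IsFractionRing D K] :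
    ∃ s : B, s ≠ 0 ∧ IsPrincipalIdealRing (Localization.Away s) := by
  obtain ⟨t, ht0, ht⟩ := exists_pid_elem.{u, u} D
  obtain ⟨e, he0, he⟩ := exists_den (B := B) (D := D) (algebraMap B K)
  obtain ⟨f, hf0, hf⟩ := exists_den (B := D) (D := B) (algebraMap D K)
  obtain ⟨n, β, hβ⟩ := hf (t * e)
  have injB : Injective (algebraMap B K) := IsFractionRing.injective B K
  have injD : Injective (algebraMap D K) := IsFractionRing.injective D K
  have hβ0 : β ≠ 0 := by
    rintro rfl
    rw [map_zero] at hβ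
    rcases mul_eq_zero.1 hβ with h | h
    · exact (pow_ne_zero n ((map_ne_zero_iff _ injB).2 hf0)) h
    · exact (mul_ne_zero ht0 he0) ((map_eq_zero_iff _ injD).1 h)
  refine ⟨f * β, mul_ne_zero hf0 hβ0, ?_⟩
  let s := f * β
  have hs0 : s ≠ 0 := mul_ne_zero hf0 hβ0
  let L := Localization.Away s
  have hpow : Submonoid.powers s ≤ B⁰ := powers_le_nonZeroDivisors_of_noZeroDivisors hs0
  haveI : IsDomain L := IsLocalization.isDomain_localization hpow
  have hsK : IsUnit (algebraMap B K s) := by
    rw [isUnit_iff_ne_zero]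
    exact (map_ne_zero_iff _ injB).2 hs0
  let lam : L →+* K := IsLocalization.Away.lift (S := L) s hsK
  have hlam : ∀ b, lam (algebraMap B L b) = algebraMap B K b := fun b =>
    IsLocalization.Away.lift_eq s hsK b
  have hlaminj : Injective lam := by
    rw [injective_iff_map_eq_zero]
    intro x hx
    obtain ⟨n, b, hb⟩ := IsLocalization.Away.surj s x
    have h1 : algebraMap B K b = 0 := by rw [← hlam, ← hb, map_mul, hx, zero_mul]
    have h2 : b = 0 := (map_eq_zero_iff _ injB).1 h1
    rw [h2, map_zero] at hb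
    have hu : IsUnit (algebraMap B L s ^ n) := (IsLocalization.Away.algebraMap_isUnit s).pow n
    exact (hu.mul_left_eq_zero).1 hb
  have hsu : IsUnit (algebraMap B L s) := IsLocalization.Away.algebraMap_isUnit s
  have hfu : IsUnit (algebraMap B L f) := by
    have : algebraMap B L s = algebraMap B L f * algebraMap B L β := map_mul _ _ _
    rw [this] at hsu
    exact isUnit_of_mul_isUnit_left hsu
  have hβu : IsUnit (algebraMap B L β) := by
    have : algebraMap B L s = algebraMap B L f * algebraMap B L β := map_mul _ _ _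
    rw [this] at hsu
    exact isUnit_of_mul_isUnit_right hsu
  have hfK : algebraMap B K f ≠ 0 := (map_ne_zero_iff _ injB).2 hf0
  have hrange : ∀ d : D, algebraMap D K d ∈ lam.range := by
    intro d
    obtain ⟨m, b, hb⟩ := hf d
    obtain ⟨F, hF⟩ := hfu
    refine ⟨(↑(F⁻¹) : L) ^ m * algebraMap B L b, ?_⟩
    have hF2 : lam (↑(F⁻¹) : L) * algebraMap B K f = 1 := by
      rw [← hlam, ← hF, ← map_mul, Units.inv_mul, map_one]
    rw [map_mul, map_pow, hlam, ← hb, ← mul_assoc, ← mul_pow, hF2, one_pow, one_mul]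
  let ee : L ≃+* lam.range := RingEquiv.ofBijective lam.rangeRestrict
    ⟨fun x y h => hlaminj (congrArg Subtype.val h), lam.rangeRestrict_surjective⟩
  have hee : ∀ x, ((ee x : lam.range) : K) = lam x := fun x => rfl
  let phi : D →+* L := (ee.symm : lam.range →+* L).comp
    ((algebraMap D K).codRestrict lam.range hrange)
  have hphi : ∀ d, lam (phi d) = algebraMap D K d := by
    intro d
    rw [← hee]
    change ((ee (ee.symm _) : lam.range) : K) = _
    rw [RingEquiv.apply_symm_apply]
    rfl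
  have hphiinj : Injective phi := by
    intro a b hab
    apply injD
    rw [← hphi, ← hphi, hab]
  have hte : IsUnit (phi (t * e)) := by
    have h1 : algebraMap B L f ^ n * phi (t * e) = algebraMap B L β := by
      apply hlaminj
      rw [map_mul, map_pow, hlam, hphi, hlam, hβ]
    have h2 : IsUnit (algebraMap B L f ^ n * phi (t * e)) := by rw [h1]; exact hβu
    exact isUnit_of_mul_isUnit_right h2
  rw [map_mul] at hte
  have htu : IsUnit (phi t) := isUnit_of_mul_isUnit_left hte
  have heu : IsUnit (phi e) := isUnit_of_mul_isUnit_right hte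
  refine ht L phi hphiinj htu (fun x => ?_)
  obtain ⟨k, b, hb⟩ := IsLocalization.Away.surj s x
  obtain ⟨m, d, hd⟩ := he b
  refine ⟨phi e ^ m * algebraMap B L s ^ k, d, (heu.pow m).mul (hsu.pow k), ?_⟩
  apply hlaminj
  have h3 : phi e ^ m * algebraMap B L s ^ k * x = phi e ^ m * algebraMap B L b := by
    rw [← hb]; ring
  rw [h3, map_mul, map_pow, hphi, hlam, hphi, hd]

end transfer

end Pool.Agent.Helper67.Bass
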