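import Pool.Agent.Helper67.Bass.Pid
import Pool.Agent.Helper67.Bass.Defs

/-!
# Fields of Kronecker dimension at most one
-/

set_option autoImplicit false
set_option linter.style.haveILetI false
set_option linter.unusedSectionVars false
set_option linter.overlappingInstances false

namespace Pool.Agent.Helper67.Bass

open Function
open scoped nonZeroDivisors Polynomial

universe u v

theorem finite_of_ess (E K : Type u) [Field E] [Field K] [Algebra E K]
    [Algebra.EssFiniteType E K] [Algebra.IsAlgebraic E K] : FiniteDimensional E K := by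
  obtain ⟨S, hS⟩ := IntermediateField.fg_top E K
  have h1 : FiniteDimensional E (IntermediateField.adjoin E (S : Set K)) :=
    IntermediateField.finiteDimensional_adjoin (K := E) (S := (S : Set K))
      (fun x _ => (Algebra.IsAlgebraic.isAlgebraic x).isIntegral)
  rw [hS] at h1
  exact LinearEquiv.finiteDimensional (IntermediateField.topEquiv (F := E) (E := K)).toLinearEquiv

section char0

theorem ess_int (B : Type u) [CommRing B] [IsDomain B] [Algebra.FiniteType ℤ B]
  (K : Type u) [Field K] [Algebra B K] [IsFractionRing B K] : Algebra.EssFiniteType ℤ K := by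
  haveI : Algebra.EssFiniteType ℤ B := inferInstance
  haveI : Algebra.EssFiniteType B K := Algebra.EssFiniteType.of_isLocalization K B⁰
  exact Algebra.EssFiniteType.comp ℤ B K

theorem pid_char0 (B : Type u) [CommRing B] [IsDomain B] [Algebra.FiniteType ℤ B]
  (K : Type u) [Field K] [Algebra B K] [IsFractionRing B K] [CharZero K] (h : ∀ x : K, IsAlgebraic ℤ x) :
    ∃ s : B, s ≠ 0 ∧ IsPrincipalIdealRing (Localization.Away s) := by
  haveI := ess_int B K
  haveI : Algebra.EssFiniteType ℚ K := Algebra.EssFiniteType.of_comp ℤ ℚ K
  haveI : Algebra.IsAlgebraic ℚ K := ⟨fun x => by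
    have hx : IsAlgebraic ℤ x := h x
    exact hx.extendScalars (algebraMap ℤ ℚ).injective_int⟩
  haveI : FiniteDimensional ℚ K := by
    obtain ⟨S, hS⟩ := IntermediateField.fg_top ℚ K
    have h1 : FiniteDimensional ℚ (IntermediateField.adjoin ℚ (S : Set K)) :=
      IntermediateField.finiteDimensional_adjoin (K := ℚ) (S := (S : Set K))
        (fun x _ => (Algebra.IsAlgebraic.isAlgebraic x).isIntegral)
    rw [hS] at h1
    exact LinearEquiv.finiteDimensional
      (IntermediateField.topEquiv (F := ℚ) (E := K)).toLinearEquiv
  haveI : NumberField K := NumberField.mk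
  exact exists_pid_of_dedekind B K (NumberField.RingOfIntegers K)

end char0

section charp

/-- a finite field -/
theorem pid_finite (B : Type u) [CommRing B] [IsDomain B] [Algebra.FiniteType ℤ B]
    (K : Type u) [Field K] [Algebra B K] [IsFractionRing B K] [Finite K] :
    ∃ s : B, s ≠ 0 ∧ IsPrincipalIdealRing (Localization.Away s) := by
  haveI : Module.Finite ℤ K := Module.Finite.of_finite
  haveI : Algebra.FiniteType ℤ K := inferInstance
  haveI : IsDedekindDomain K := inferInstance
  haveI : Finite (ClassGroup K) := inferInstance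
  haveI : IsFractionRing K K := inferInstance
  exact exists_pid_of_dedekind B K K

/-- a finite separable extension of the rational function field in one variable over `F_p` -/
theorem pid_curve (p : ℕ) [Fact p.Prime] (B : Type u) [CommRing B] [IsDomain B]
    [Algebra.FiniteType ℤ B]
    (K : Type u) [Field K] [Algebra B K] [IsFractionRing B K] [Algebra (ZMod p) K]
    [Algebra.EssFiniteType (ZMod p) K] (x : K) (hx : Transcendental (ZMod p) x)
    (hsep : Algebra.IsSeparable (IntermediateField.adjoin (ZMod p) {x}) K) :
    ∃ s : B, s ≠ 0 ∧ IsPrincipalIdealRing (Localization.Away s) := by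
  set E := IntermediateField.adjoin (ZMod p) ({x} : Set K) with hE
  let g : E := IntermediateField.AdjoinSimple.gen (ZMod p) x
  letI i1 : Algebra (ZMod p)[X] E := (Polynomial.aeval (R := ZMod p) g).toAlgebra
  letI i2 : Algebra (ZMod p)[X] K := (Polynomial.aeval (R := ZMod p) x).toAlgebra
  haveI : IsScalarTower (ZMod p)[X] E K := by
    apply IsScalarTower.of_algebraMap_eq
    intro f
    show Polynomial.aeval x f = algebraMap E K (Polynomial.aeval g f)
    rw [← Polynomial.aeval_algebraMap_apply]
    rfl
  haveI : FaithfulSMul (ZMod p)[X] E := by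
    rw [faithfulSMul_iff_algebraMap_injective]
    intro f f' hff
    apply (transcendental_iff_injective.1 hx)
    have := congrArg (algebraMap E K) hff
    rw [← IsScalarTower.algebraMap_apply, ← IsScalarTower.algebraMap_apply] at this
    exact this
  haveI : IsFractionRing (ZMod p)[X] E := by
    apply IsFractionRing.of_field
    intro z
    obtain ⟨r, s, h⟩ := (IntermediateField.mem_adjoin_simple_iff (ZMod p) (z : K)).1 z.2
    refine ⟨r, s, ?_⟩
    apply (algebraMap E K).injective
    rw [map_div₀, ← IsScalarTower.algebraMap_apply, ← IsScalarTower.algebraMap_apply]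
    exact h
  haveI : Algebra.EssFiniteType E K := Algebra.EssFiniteType.of_comp (ZMod p) E K
  haveI : FiniteDimensional E K := finite_of_ess E K
  let D := integralClosure (ZMod p)[X] K
  haveI : IsDedekindDomain D := IsIntegralClosure.isDedekindDomain (ZMod p)[X] E K D
  haveI : IsFractionRing D K := integralClosure.isFractionRing_of_finite_extension E K
  haveI : Module.Finite (ZMod p)[X] D := IsIntegralClosure.finite (ZMod p)[X] E K D
  haveI : Finite (ClassGroup D) := by
    letI := ClassGroup.fintypeOfAdmissibleOfFinite (S := D) E K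
      (Polynomial.cardPowDegreeIsAdmissible :
      AbsoluteValue.IsAdmissible (Polynomial.cardPowDegree : AbsoluteValue (ZMod p)[X] ℤ))
    infer_instance
  haveI : Algebra.FiniteType ℤ D := by
    haveI : Module.Finite ℤ (ZMod p) := inferInstance
    haveI : Algebra.FiniteType ℤ (ZMod p) := inferInstance
    haveI : Algebra.FiniteType ℤ (ZMod p)[X] := Algebra.FiniteType.trans (S := ZMod p) ‹_› inferInstance
    exact Algebra.FiniteType.trans (S := (ZMod p)[X]) ‹_› inferInstance
  exact exists_pid_of_dedekind B K D

/-- characteristic `p` -/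
theorem pid_charp (p : ℕ) [Fact p.Prime] (B : Type u) [CommRing B] [IsDomain B]
    [Algebra.FiniteType ℤ B]
    (K : Type u) [Field K] [Algebra B K] [IsFractionRing B K] (hp : (p : K) = 0)
    (h : ∀ x y : K, ∃ F : MvPolynomial (Fin 2) ℤ,
      ¬ (MvPolynomial.C (p : ℤ) ∣ F) ∧ MvPolynomial.aeval ![x, y] F = 0) :
    ∃ s : B, s ≠ 0 ∧ IsPrincipalIdealRing (Localization.Away s) := by
  have hpp : p.Prime := Fact.out
  haveI : CharP K p := by
    have h1 : ringChar K ∣ p := ringChar.dvd hp
    rcases (Nat.dvd_prime hpp).1 h1 with h2 | h2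
    · exact absurd h2 (CharP.ringChar_ne_one (R := K))
    · exact ringChar.of_eq h2
  letI : Algebra (ZMod p) K := ZMod.algebra K p
  haveI := ess_int B K
  haveI : Algebra.EssFiniteType (ZMod p) K := Algebra.EssFiniteType.of_comp ℤ (ZMod p) K
  obtain ⟨s, hs, hsep⟩ := exists_isTranscendenceBasis_and_isSeparable_of_perfectField (ZMod p) K
  -- at most one element
  have hsub : ∀ x ∈ s, ∀ y ∈ s, x = y := by
    intro x hx y hy
    by_contra hxy
    obtain ⟨F, hF, hF0⟩ := h x y
    have h1 := hs.1.comp (![⟨x, hx⟩, ⟨y, hy⟩] : Fin 2 → s) (by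
        intro i j hij
        fin_cases i <;> fin_cases j <;> simp at hij ⊢
        · exact hxy hij
        · exact hxy hij.symm)
    have h2 : (Subtype.val ∘ (![⟨x, hx⟩, ⟨y, hy⟩] : Fin 2 → s)) = ![x, y] := by
      ext i
      fin_cases i <;> rfl
    rw [h2] at h1
    have hind : AlgebraicIndependent (ZMod p) ![x, y] := h1
    apply hF
    rw [MvPolynomial.C_dvd_iff_map_hom_eq_zero (Int.castRingHom (ZMod p)) (p : ℤ)]
    · apply hind
      rw [map_zero, ← hF0, MvPolynomial.aeval_def, MvPolynomial.aeval_def,
        MvPolynomial.eval₂_map]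
      congr 1
      exact RingHom.ext_int _ _
    · intro a
      rw [eq_intCast]
      exact ZMod.intCast_zmod_eq_zero_iff_dvd a p
  by_cases hse : s = ∅
  · subst hse
    haveI : Algebra.IsAlgebraic (ZMod p) K := by
      have h1 : IntermediateField.adjoin (ZMod p) (((∅ : Finset K) : Set K)) = ⊥ := by simp
      rw [h1] at hsep
      haveI : Algebra.IsAlgebraic (⊥ : IntermediateField (ZMod p) K) K := inferInstance
      haveI : Algebra.IsAlgebraic (ZMod p) (⊥ : IntermediateField (ZMod p) K) := inferInstance
      exact Algebra.IsAlgebraic.trans (ZMod p) (⊥ : IntermediateField (ZMod p) K) K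
    haveI : FiniteDimensional (ZMod p) K := by
      obtain ⟨S, hS⟩ := IntermediateField.fg_top (ZMod p) K
      have h1 : FiniteDimensional (ZMod p) (IntermediateField.adjoin (ZMod p) (S : Set K)) :=
        IntermediateField.finiteDimensional_adjoin (K := ZMod p) (S := (S : Set K))
          (fun x _ => (Algebra.IsAlgebraic.isAlgebraic x).isIntegral)
      rw [hS] at h1
      exact LinearEquiv.finiteDimensional
        (IntermediateField.topEquiv (F := ZMod p) (E := K)).toLinearEquiv
    haveI : Finite K := Module.finite_of_finite (ZMod p)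
    exact pid_finite B K
  · obtain ⟨x, hx⟩ := Finset.nonempty_iff_ne_empty.2 hse
    have hsx : (s : Set K) = {x} := by
      ext y
      simp only [Finset.mem_coe, Set.mem_singleton_iff]
      exact ⟨fun hy => hsub y hy x hx, fun hy => hy ▸ hx⟩
    rw [hsx] at hsep
    have htr : Transcendental (ZMod p) x := hs.1.transcendental ⟨x, hx⟩
    exact pid_curve p B K x htr hsep

end charp

/-- a finitely generated domain of Kronecker dimension at most one becomes a principal ideal domain
after inverting one nonzero element -/
theorem exists_pid (B : Type u) [CommRing B] [IsDomain B] [Algebra.FiniteType ℤ B]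
    (K : Type u) [Field K] [Algebra B K] [IsFractionRing B K] (h : KroneckerLeOne K) :
    ∃ s : B, s ≠ 0 ∧ IsPrincipalIdealRing (Localization.Away s) := by
  rcases h with h | ⟨p, hp, hp0, h⟩
  · rcases CharP.exists' K with h0 | ⟨p, hp, hpc⟩
    · apply pid_char0 B K
      intro x
      obtain ⟨f, hf, hfx⟩ := h x
      exact ⟨f, hf.ne_zero, hfx⟩
    · haveI := hp
      apply pid_charp p B K (CharP.cast_eq_zero K p)
      intro x y
      obtain ⟨f, hf, hfx⟩ := h x
      refine ⟨Polynomial.aeval (MvPolynomial.X 0 : MvPolynomial (Fin 2) ℤ) f, ?_, ?_⟩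
      · intro hdvd
        obtain ⟨g, hg⟩ := hdvd
        have h1 := congrArg (MvPolynomial.aeval (R := ℤ)
          (![Polynomial.X, 0] : Fin 2 → ℤ[X])) hg
        rw [← Polynomial.aeval_algHom_apply, MvPolynomial.aeval_X, map_mul,
          MvPolynomial.aeval_C] at h1
        simp only [Matrix.cons_val_zero, Polynomial.aeval_X_left_apply] at h1
        have h2 := hf (p : ℤ) ⟨_, h1⟩
        have h3 := Int.isUnit_iff.1 h2
        have h4 := hp.out.two_le
        omega
      · rw [← Polynomial.aeval_algHom_apply, MvPolynomial.aeval_X]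
        exact hfx
  · haveI := Fact.mk hp
    exact pid_charp p B K hp0 h

end Pool.Agent.Helper67.Bass
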