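import Pool.Agent.Helper83.Bass.Gen

/-!
# Finite generation of the category of finitely generated modules

`FinGn R`: finitely many modules generate all finitely generated `R`-modules under the two out of
three rule in short exact sequences. It implies that `G₀(R)` is a finitely generated group.
-/

set_option autoImplicit false

namespace Pool.Agent.Helper67.Bass

open Pool.Agent.Helper11 Pool.Agent.Helper83.Bass Function TensorProduct

universe u

/-- A class of finitely generated modules containing `0`, closed under isomorphisms and with the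
two out of three property in short exact sequences. -/
structure Two3 {A : Type u} [CommRing A] (P : FGMod A → Prop) : Prop extends ResClass P where
  ker : ∀ (M' M M'' : FGMod A) (f : M' →ₗ[A] M) (g : M →ₗ[A] M''), Injective f →
    Surjective g → Exact f g → P M → P M'' → P M'
  zero : ∀ M : FGMod A, Subsingleton M → P M

/-- finitely many modules generate everything -/
def FinGn (R : Type u) [CommRing R] : Prop :=
  ∃ T : Set (FGMod R), T.Finite ∧ ∀ P : FGMod R → Prop, Two3 P → (∀ N ∈ T, P N) → ∀ M, P M

section G0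

variable {R : Type u} [CommRing R]

lemma mk_eq_of_iso {M N : FGMod R} (e : M ≃ₗ[R] N) : G0.mk M = G0.mk N :=
  (G0.isAdd_mk (R := R)).iso e (G0.killedBy_bot M)

lemma two3_closure (H : AddSubgroup (G0 R)) : Two3 (fun M : FGMod R => G0.mk M ∈ H) where
  iso M N e h := by rw [← mk_eq_of_iso e]; exact h
  ext M' M M'' f g hf hg hfg h1 h2 := by
    rw [G0.mk_add M' M M'' f g hf hg hfg]; exact add_mem h1 h2
  coker M' M M'' f g hf hg hfg h1 h2 := by
    have := G0.mk_add M' M M'' f g hf hg hfg
    have h3 : G0.mk M'' = G0.mk M - G0.mk M' := by rw [this]; abel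
    rw [h3]; exact sub_mem h2 h1
  ker M' M M'' f g hf hg hfg h1 h2 := by
    have := G0.mk_add M' M M'' f g hf hg hfg
    have h3 : G0.mk M' = G0.mk M - G0.mk M'' := by rw [this]; abel
    rw [h3]; exact sub_mem h1 h2
  zero M hM := by
    have := (G0.isAdd_mk (R := R)).zero M (G0.killedBy_bot M)
    rw [this]; exact zero_mem _

theorem FinGn.fg (h : FinGn R) : AddGroup.FG (G0 R) := by
  obtain ⟨T, hT, hgen⟩ := h
  rw [AddGroup.fg_iff]
  refine ⟨G0.mk '' T, ?_, hT.image _⟩
  rw [eq_top_iff, ← G0.closure_mk, AddSubgroup.closure_le]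
  rintro _ ⟨M, rfl⟩
  exact hgen _ (two3_closure _)
    (fun N hN => AddSubgroup.subset_closure (Set.mem_image_of_mem _ hN)) M

end G0

/-- pull back along exact functors -/
lemma Two3.comap {R S : Type u} [CommRing R] [CommRing S] {P : FGMod S → Prop}
    (hP : Two3 P) {Φ : FGMod R → FGMod S} (hΦ : ExactF Φ)
    (hiso : ∀ M N : FGMod R, (M ≃ₗ[R] N) → Nonempty (Φ M ≃ₗ[S] Φ N))
    (hz : ∀ M : FGMod R, Subsingleton M → Subsingleton (Φ M)) :
    Two3 (fun M => P (Φ M)) where
  toResClass := resClass_comap hP.toResClass hΦ hiso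
  ker M' M M'' f g hf hg hfg h1 h2 := by
    obtain ⟨e⟩ := hΦ M' M M'' ⟨f, g, hf, hg, hfg⟩
    exact hP.ker _ _ _ e.f e.g e.inj e.surj e.exact h1 h2
  zero M hM := hP.zero _ (hz M hM)

lemma Two3.comap_restr {R S : Type u} [CommRing R] [CommRing S] {P : FGMod S → Prop}
    (hP : Two3 P) (π : S →+* R) (hπ : Surjective π) : Two3 (fun M => P (restr π hπ M)) :=
  hP.comap (exactF_restr π hπ) (fun _ _ e => restr_iso π hπ e) (fun _ hM => hM)

lemma Two3.comap_bc {R S : Type u} [CommRing R] [CommRing S] [Algebra R S] [Module.Flat R S]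
    {P : FGMod S → Prop} (hP : Two3 P) : Two3 (fun M => P (bc R S M)) :=
  hP.comap exactF_baseChange (fun M N e => bc_iso e) (fun M hM => by
    refine ⟨fun x y => ?_⟩
    have h0 : ∀ z : S ⊗[R] M, z = 0 := by
      intro z
      induction z using TensorProduct.induction_on with
      | zero => rfl
      | tmul s m => rw [Subsingleton.elim m 0, TensorProduct.tmul_zero]
      | add x y hx hy => rw [hx, hy, add_zero]
    exact (h0 x).trans (h0 y).symm)

/-- restriction along the kernel: everything killed by the kernel is a restriction -/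
lemma restr_of_killed {R S : Type u} [CommRing R] [CommRing S] {P : FGMod S → Prop}
    (hP : Two3 P) (π : S →+* R) (hπ : Surjective π) (h : ∀ N : FGMod R, P (restr π hπ N))
    (M : FGMod S) (hM : KilledBy (RingHom.ker π) M) : P M := by
  obtain ⟨N, e, he⟩ := exists_desc π hπ M hM
  refine hP.iso (restr π hπ N) M ?_ (h N)
  exact
    { (restrEquiv π hπ N).trans e.symm with
      map_smul' := fun s x => by
        change e.symm (restrEquiv π hπ N (s • x)) = s • e.symm (restrEquiv π hπ N x)
        rw [restrEquiv_smul]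
        apply e.injective
        rw [e.apply_symm_apply, he, e.apply_symm_apply] }

/-- a surjection with nilpotent (here: zero) kernel -/
theorem FinGn.of_equiv {R S : Type u} [CommRing R] [CommRing S] (e : R ≃+* S) (h : FinGn R) :
    FinGn S := by
  obtain ⟨T, hT, hgen⟩ := h
  refine ⟨restr (e.symm : S →+* R) e.symm.surjective '' T, hT.image _, ?_⟩
  intro P hP hN
  have h1 := hgen _ (hP.comap_restr (e.symm : S →+* R) e.symm.surjective)
    (fun N hN' => hN _ ⟨N, hN', rfl⟩)
  intro M
  refine restr_of_killed hP _ e.symm.surjective h1 M ?_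
  intro s hs m
  have : s = 0 := by
    rw [RingHom.mem_ker] at hs
    exact (map_eq_zero_iff _ e.symm.injective).1 hs
  rw [this, zero_smul]

section mul

variable {R : Type u} [CommRing R] [IsNoetherianRing R]

/-- quotient of a module by a submodule, as a short exact sequence -/
lemma Two3.of_submodule {P : FGMod R → Prop} (hP : Two3 P) (M : FGMod R) (N : Submodule R M)
    (h1 : P (FGMod.of R N)) (h2 : P (FGMod.of R (M ⧸ N))) : P M :=
  hP.ext (FGMod.of R N) M (FGMod.of R (M ⧸ N)) N.subtype N.mkQ N.subtype_injective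
    N.mkQ_surjective (LinearMap.exact_subtype_mkQ N) h1 h2

theorem FinGn.of_mul {I J : Ideal R} (hIJ : I * J = ⊥) (hI : FinGn (R ⧸ I)) (hJ : FinGn (R ⧸ J)) :
    FinGn R := by
  obtain ⟨T, hT, hgT⟩ := hI
  obtain ⟨U, hU, hgU⟩ := hJ
  refine ⟨restr (Ideal.Quotient.mk I) Ideal.Quotient.mk_surjective '' T ∪
    restr (Ideal.Quotient.mk J) Ideal.Quotient.mk_surjective '' U,
    (hT.image _).union (hU.image _), ?_⟩
  intro P hP hN
  have h1 := hgT _ (hP.comap_restr (Ideal.Quotient.mk I) Ideal.Quotient.mk_surjective)
    (fun N hN' => hN _ (Or.inl ⟨N, hN', rfl⟩))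
  have h2 := hgU _ (hP.comap_restr (Ideal.Quotient.mk J) Ideal.Quotient.mk_surjective)
    (fun N hN' => hN _ (Or.inr ⟨N, hN', rfl⟩))
  have h1' := fun M (hM : KilledBy I M) => restr_of_killed hP _ Ideal.Quotient.mk_surjective h1 M
    (by rw [Ideal.mk_ker]; exact hM)
  have h2' := fun M (hM : KilledBy J M) => restr_of_killed hP _ Ideal.Quotient.mk_surjective h2 M
    (by rw [Ideal.mk_ker]; exact hM)
  intro M
  refine hP.of_submodule M (J • (⊤ : Submodule R M)) (h1' _ ?_) (h2' _ ?_)
  · intro s hs m
    apply Subtype.ext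
    have hm : (m : M) ∈ J • (⊤ : Submodule R M) := m.2
    change s • (m : M) = 0
    have key : ∀ x ∈ J • (⊤ : Submodule R M), s • x = 0 := by
      intro x hx
      induction hx using Submodule.smul_induction_on' with
      | smul r hr n hn =>
          rw [← mul_smul]
          have : s * r ∈ I * J := Ideal.mul_mem_mul hs hr
          rw [hIJ] at this
          rw [(Submodule.mem_bot R).1 this, zero_smul]
      | add x hx y hy h1 h2 => rw [smul_add, h1, h2, add_zero]
    exact key _ hm
  · intro s hs m
    obtain ⟨m, rfl⟩ := Submodule.mkQ_surjective _ m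
    rw [← map_smul, Submodule.mkQ_apply, Submodule.Quotient.mk_eq_zero]
    exact Submodule.smul_mem_smul hs Submodule.mem_top

/-- the zero ring -/
theorem FinGn.of_subsingleton (R : Type u) [CommRing R] [Subsingleton R] : FinGn R := by
  refine ⟨∅, Set.finite_empty, fun P hP _ M => hP.zero M ?_⟩
  exact Module.subsingleton R M

end mul

section poly

variable {R : Type u} [CommRing R] [IsNoetherianRing R]

theorem FinGn.mvPolynomial (h : FinGn R) (σ : Type) [Finite σ] : FinGn (MvPolynomial σ R) := by
  obtain ⟨T, hT, hgT⟩ := h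
  refine ⟨bc R (MvPolynomial σ R) '' T, hT.image _, ?_⟩
  intro P hP hN
  have h1 := hgT _ (hP.comap_bc (R := R)) (fun N hN' => hN _ ⟨N, hN', rfl⟩)
  exact gen_mvPolynomial R σ P hP.toResClass h1

end poly

section pid

/-- a principal ideal domain -/
theorem FinGn.of_pid (R : Type u) [CommRing R] [IsDomain R] [IsPrincipalIdealRing R] :
    FinGn R := by
  refine ⟨{FGMod.of R R}, Set.finite_singleton _, ?_⟩
  intro P hP hN
  have hR : P (FGMod.of R R) := hN _ rfl
  -- free modules
  have hfree : ∀ n : ℕ, P (FGMod.of R (ULift.{u} (Fin n) → R)) := by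
    intro n
    induction n with
    | zero => exact hP.zero _ ⟨fun x y => funext fun i => i.down.elim0⟩
    | succ n ih =>
      let f : (ULift.{u} (Fin n) → R) →ₗ[R] (ULift.{u} (Fin (n + 1)) → R) :=
        { toFun := fun x i => Fin.cases 0 (fun j => x ⟨j⟩) i.down
          map_add' := fun x y => by
            funext i
            obtain ⟨i⟩ := i
            refine Fin.cases ?_ (fun j => ?_) i
            · simp
            · simp
          map_smul' := fun r x => by
            funext i
            obtain ⟨i⟩ := i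
            refine Fin.cases ?_ (fun j => ?_) i
            · simp
            · simp }
      let g : (ULift.{u} (Fin (n + 1)) → R) →ₗ[R] R := LinearMap.proj ⟨0⟩
      refine hP.ext (FGMod.of R (ULift.{u} (Fin n) → R)) _ (FGMod.of R R) f g ?_ ?_ ?_ ih hR
      · intro x y hxy
        funext i
        obtain ⟨i⟩ := i
        have := congrFun hxy ⟨i.succ⟩
        simpa [f] using this
      · intro r
        exact ⟨fun _ => r, rfl⟩
      · intro x
        constructor
        · intro hx
          refine ⟨fun i => x ⟨i.down.succ⟩, ?_⟩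
          funext i
          obtain ⟨i⟩ := i
          refine Fin.cases ?_ (fun j => ?_) i
          · exact hx.symm
          · rfl
        · rintro ⟨y, rfl⟩
          rfl
  intro M
  obtain ⟨n, π, hπ⟩ := Module.Finite.exists_fin' R M
  -- reindex
  let e : (ULift.{u} (Fin n) → R) ≃ₗ[R] (Fin n → R) :=
    LinearEquiv.funCongrLeft R R (Equiv.ulift.{u} (α := Fin n)).symm
  let π' : (ULift.{u} (Fin n) → R) →ₗ[R] M := π ∘ₗ e.toLinearMap
  have hπ' : Surjective π' := hπ.comp e.surjective
  obtain ⟨m, ⟨b⟩⟩ := Submodule.nonempty_basis_of_pid (Pi.basisFun R (ULift.{u} (Fin n)))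
    (LinearMap.ker π')
  have hker : P (FGMod.of R (LinearMap.ker π')) := by
    refine hP.iso (FGMod.of R (ULift.{u} (Fin m) → R)) _ ?_ (hfree m)
    exact (LinearEquiv.funCongrLeft R R (Equiv.ulift.{u} (α := Fin m)).symm).trans b.equivFun.symm
  exact hP.coker (FGMod.of R (LinearMap.ker π')) (FGMod.of R (ULift.{u} (Fin n) → R)) M
    (LinearMap.ker π').subtype π' (LinearMap.ker π').subtype_injective hπ'
    (LinearMap.exact_subtype_ker_map π') hker (hfree n)

end pid

end Pool.Agent.Helper67.Bass
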