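import Pool.Agent.Helper67.Bass.Gen2
import Pool.Agent.Helper67.Bass.Bil

/-!
# Polynomial rings with a grading of small corank
-/

set_option autoImplicit false
set_option linter.style.haveILetI false
set_option linter.unusedSectionVars false

namespace Pool.Agent.Helper67.Bass

open Function MvPolynomial

universe u v

section

variable {ι : Type v} [AddCommGroup ι] [DecidableEq ι] {r : ℕ} (w : Fin r → ι)

attribute [local instance] MvPolynomial.weightedGradedAlgebra

section mono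

variable {K : Type} [Field K] (y : Fin r → K)

/-- the Laurent monomial `y ^ n` -/
noncomputable def mono (n : Fin r → ℤ) : K := ∏ i, y i ^ n i

/-- the exponents supported where `y` is not zero -/
def suppSub : Submodule ℤ (Fin r → ℤ) where
  carrier := {n | ∀ i, y i = 0 → n i = 0}
  add_mem' := by
    intro a b ha hb i hi
    rw [Pi.add_apply, ha i hi, hb i hi, add_zero]
  zero_mem' := fun i _ => rfl
  smul_mem' := by
    intro c a ha i hi
    rw [Pi.smul_apply, ha i hi, smul_zero]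

theorem mono_ne {n : Fin r → ℤ} (hn : n ∈ suppSub y) : mono y n ≠ 0 := by
  refine Finset.prod_ne_zero_iff.2 (fun i _ => ?_)
  by_cases hy : y i = 0
  · rw [hn i hy, zpow_zero]; exact one_ne_zero
  · exact zpow_ne_zero _ hy

theorem mono_zero : mono y 0 = 1 := by simp [mono]

theorem mono_add {n n' : Fin r → ℤ} (hn : n ∈ suppSub y) (hn' : n' ∈ suppSub y) :
    mono y (n + n') = mono y n * mono y n' := by
  unfold mono
  rw [← Finset.prod_mul_distrib]
  refine Finset.prod_congr rfl (fun i _ => ?_)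
  by_cases hy : y i = 0
  · rw [Pi.add_apply, hn i hy, hn' i hy]; simp
  · rw [Pi.add_apply, zpow_add₀ hy]

theorem mono_smul (c : ℤ) (n : Fin r → ℤ) : mono y (c • n) = mono y n ^ c := by
  unfold mono
  rw [← Finset.prod_zpow]
  refine Finset.prod_congr rfl (fun i _ => ?_)
  rw [Pi.smul_apply, smul_eq_mul, mul_comm, zpow_mul]

theorem mono_sum {κ : Type} (s : Finset κ) (n : κ → Fin r → ℤ) (hn : ∀ k, n k ∈ suppSub y) :
    mono y (∑ k ∈ s, n k) = ∏ k ∈ s, mono y (n k) := by
  classical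
  induction s using Finset.induction_on with
  | empty => rw [Finset.sum_empty, Finset.prod_empty, mono_zero]
  | insert k s hk ih =>
    rw [Finset.sum_insert hk, Finset.prod_insert hk, mono_add y (hn k)
      (Submodule.sum_mem _ (fun l _ => hn l)), ih]

end mono

theorem weight_eq (κ : Fin r →₀ ℕ) : Finsupp.weight w κ = ∑ i, (κ i : ℤ) • w i := by
  rw [Finsupp.weight_apply, Finsupp.sum_fintype κ (fun i c => c • w i) (fun i => zero_smul _ _)]
  simp [natCast_zsmul]

theorem base_rational (m : ℕ)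
    (hw : Module.finrank ℤ (LinearMap.ker (Fintype.linearCombination ℤ w)) ≤
      if m = 0 then 1 else 2)
    (K : Type) [Field K] (π : MvPolynomial (Fin r) (ZMod m) →+* K) :
    RationalOverKroneckerLeOne (K0 (weightedHomogeneousSubmodule (ZMod m) w) π) := by
  classical
  set 𝒜 := weightedHomogeneousSubmodule (ZMod m) w with h𝒜
  let y : Fin r → K := fun i => π (X i)
  have hπ : ∀ a, π a = ∑ d ∈ a.support, (π.comp C) (a.coeff d) * ∏ i, y i ^ d i := by
    intro a
    rw [← eval₂_eq']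
    have : π = eval₂Hom (π.comp C) y := by
      apply MvPolynomial.ringHom_ext
      · intro n
        rw [eval₂Hom_C]; rfl
      · intro i; rw [eval₂Hom_X']
    conv_lhs => rw [this]
    rfl
  have hint : ∀ c : ZMod m, ∃ n : ℤ, (π.comp C) c = (n : K) := by
    intro c
    obtain ⟨n, rfl⟩ := ZMod.intCast_surjective c
    exact ⟨n, map_intCast _ n⟩
  -- the lattice of degree zero Laurent monomials
  let Λ : Submodule ℤ (Fin r → ℤ) := LinearMap.ker (Fintype.linearCombination ℤ w)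
  let ΛJ : Submodule ℤ (Fin r → ℤ) := Λ ⊓ suppSub y
  have hΛ : ∀ n : Fin r → ℤ, n ∈ Λ ↔ ∑ i, n i • w i = 0 := by
    intro n
    rw [LinearMap.mem_ker, Fintype.linearCombination_apply]
  set s := Module.finrank ℤ ΛJ with hs
  have hsle : s ≤ if m = 0 then 1 else 2 :=
    (Submodule.finrank_mono (inf_le_left : ΛJ ≤ Λ)).trans hw
  let bas : Module.Basis (Fin s) ℤ ΛJ := Module.finBasis ℤ ΛJ
  let t : Fin s → K := fun k => mono y (bas k : Fin r → ℤ)
  have hbs : ∀ k, (bas k : Fin r → ℤ) ∈ suppSub y := fun k => (bas k).2.2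
  have ht0 : ∀ k, t k ≠ 0 := fun k => mono_ne y (hbs k)
  have htHF : ∀ k, HF 𝒜 π 0 (t k) := by
    intro k
    have h0 : ∑ i, (bas k : Fin r → ℤ) i • w i = 0 := (hΛ _).1 (bas k).2.1
    rw [← h0]
    refine HF.prod _ _ _ (fun i _ => ?_)
    by_cases hy : y i = 0
    · rw [hbs k i hy, zpow_zero, zero_smul]; exact HF.one
    · exact (HF.of_mem (𝒜 := 𝒜) (π := π) (isWeightedHomogeneous_X (ZMod m) w i)).zpow hy _
  have hmono : ∀ n ∈ ΛJ, ∃ c : Fin s → ℤ, mono y n = ∏ k, t k ^ c k := by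
    intro n hn
    refine ⟨fun k => bas.repr ⟨n, hn⟩ k, ?_⟩
    have h1 := congrArg (Subtype.val) (bas.sum_repr ⟨n, hn⟩)
    rw [Submodule.coe_sum] at h1
    have h2 : n = ∑ k, (bas.repr ⟨n, hn⟩ k) • (bas k : Fin r → ℤ) := h1.symm
    conv_lhs => rw [h2]
    rw [mono_sum y _ _ (fun k => (suppSub y).smul_mem _ (hbs k))]
    exact Finset.prod_congr rfl (fun k _ => mono_smul y _ _)
  -- Laurent polynomials in `t`
  let ev : MvPolynomial (Fin s) ℤ →+* K := eval₂Hom (Int.castRingHom K) t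
  have hevX : ∀ k, ev (X k) = t k := fun k => by simp [ev]
  let Ũ : MvPolynomial (Fin s) ℤ := ∏ k, X k
  have hU : ev Ũ = ∏ k, t k := by
    show ev (∏ k, X k) = _
    rw [map_prod]
    exact Finset.prod_congr rfl (fun k _ => hevX k)
  have hU0 : ev Ũ ≠ 0 := by rw [hU]; exact Finset.prod_ne_zero_iff.2 (fun k _ => ht0 k)
  set R := aw ev.range (ev Ũ) ⟨Ũ, rfl⟩ with hR
  have htR : ∀ k, t k ∈ R := fun k => le_aw _ ⟨X k, hevX k⟩
  have htinvR : ∀ k, (t k)⁻¹ ∈ R := by
    intro k
    have h1 : (t k)⁻¹ = (∏ l ∈ Finset.univ.erase k, t l) * (ev Ũ)⁻¹ := by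
      rw [hU, ← Finset.mul_prod_erase _ _ (Finset.mem_univ k)]
      have h3 : ∏ l ∈ Finset.univ.erase k, t l ≠ 0 :=
        Finset.prod_ne_zero_iff.2 (fun l _ => ht0 l)
      have h4 := ht0 k
      field_simp
    rw [h1]
    exact mul_mem (prod_mem (fun l _ => htR l)) (inv_mem_aw _ hU0)
  have hmR : ∀ n ∈ ΛJ, mono y n ∈ R := by
    intro n hn
    obtain ⟨c, hc⟩ := hmono n hn
    rw [hc]
    refine prod_mem (fun k _ => ?_)
    obtain ⟨z, hz | hz⟩ := (c k).eq_nat_or_neg
    · rw [hz, zpow_natCast]; exact pow_mem (htR k) z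
    · rw [hz, zpow_neg, zpow_natCast, ← inv_pow]; exact pow_mem (htinvR k) z
  have claim : ∀ (κ0 : Fin r →₀ ℕ), ∏ i, y i ^ κ0 i ≠ 0 → ∀ a ∈ 𝒜 (Finsupp.weight w κ0),
      ∃ u ∈ R, π a = (∏ i, y i ^ κ0 i) * u := by
    intro κ0 hκ0 a ha
    have hterm : ∀ d ∈ a.support, ∃ u ∈ R,
        (π.comp C) (a.coeff d) * ∏ i, y i ^ d i = (∏ i, y i ^ κ0 i) * u := by
      intro d hd
      by_cases hd0 : ∏ i, y i ^ d i = 0
      · exact ⟨0, zero_mem _, by rw [hd0, mul_zero, mul_zero]⟩
      have hwd : Finsupp.weight w d = Finsupp.weight w κ0 :=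
        ha (MvPolynomial.mem_support_iff.1 hd)
      rw [weight_eq, weight_eq] at hwd
      have hzero : ∀ i, y i = 0 → d i = 0 ∧ κ0 i = 0 := by
        intro i hi
        constructor
        · by_contra hne
          exact Finset.prod_ne_zero_iff.1 hd0 i (Finset.mem_univ i) (by rw [hi, zero_pow hne])
        · by_contra hne
          exact Finset.prod_ne_zero_iff.1 hκ0 i (Finset.mem_univ i) (by rw [hi, zero_pow hne])
      have hn : (fun i => (d i : ℤ) - κ0 i) ∈ ΛJ := by
        constructor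
        · rw [SetLike.mem_coe, hΛ]
          simp only [sub_smul, Finset.sum_sub_distrib, hwd, sub_self]
        · intro i hi
          obtain ⟨h1, h2⟩ := hzero i hi
          simp [h1, h2]
      have key : ∏ i, y i ^ d i = (∏ i, y i ^ κ0 i) * mono y (fun i => (d i : ℤ) - κ0 i) := by
        rw [mono, ← Finset.prod_mul_distrib]
        refine Finset.prod_congr rfl (fun i _ => ?_)
        by_cases hy : y i = 0
        · obtain ⟨h1, h2⟩ := hzero i hy
          rw [h1, h2]; simp
        · rw [← zpow_natCast, ← zpow_natCast, ← zpow_add₀ hy]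
          congr 1
          omega
      refine ⟨(π.comp C) (a.coeff d) * mono y (fun i => (d i : ℤ) - κ0 i),
        mul_mem ?_ (hmR _ hn), ?_⟩
      · obtain ⟨n, hn⟩ := hint (a.coeff d)
        rw [hn]; exact intCast_mem _ _
      · rw [key]; ring
    choose! u hu hu' using hterm
    refine ⟨∑ d ∈ a.support, u d, sum_mem (fun d hd => hu d hd), ?_⟩
    rw [hπ, Finset.mul_sum]
    exact Finset.sum_congr rfl (fun d hd => hu' d hd)
  -- the generators
  let t0 : Fin s → K0 𝒜 π := fun k => ⟨t k, htHF k⟩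
  have hcoe : ∀ f : MvPolynomial (Fin s) ℤ, ((MvPolynomial.aeval t0 f : K0 𝒜 π) : K) = ev f := by
    intro f
    have h1 : (K0 𝒜 π).subtype.comp (MvPolynomial.aeval t0 :
        MvPolynomial (Fin s) ℤ →ₐ[ℤ] K0 𝒜 π).toRingHom = ev := by
      apply MvPolynomial.ringHom_ext
      · intro n
        exact RingHom.congr_fun (RingHom.ext_int (((K0 𝒜 π).subtype.comp (MvPolynomial.aeval t0 :
          MvPolynomial (Fin s) ℤ →ₐ[ℤ] K0 𝒜 π).toRingHom).comp C) (ev.comp C)) n
      · intro k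
        rw [hevX]
        show ((MvPolynomial.aeval t0 (X k) : K0 𝒜 π) : K) = t k
        rw [MvPolynomial.aeval_X]
    exact RingHom.congr_fun h1 f
  apply rational_of_gens (K0 𝒜 π) t0
  · by_cases hm : m = 0
    · rw [if_pos hm] at hsle; exact Or.inl hsle
    · rw [if_neg hm] at hsle
      refine Or.inr ⟨hsle, fun h0 => ?_⟩
      have h1 : ((m : ℕ) : K0 𝒜 π) = 0 := by
        apply Subtype.ext
        have h2 : π (C ((m : ℕ) : ZMod m)) = 0 := by rw [ZMod.natCast_self, map_zero, map_zero]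
        rw [map_natCast, map_natCast] at h2
        exact h2
      exact hm (Nat.cast_eq_zero.1 h1)
  rintro ⟨x, j, a, ha, b, hb, hb0, hab⟩
  rw [zero_add] at ha
  obtain ⟨κ0, hκb, hκ0⟩ : ∃ κ0 ∈ b.support, ∏ i, y i ^ κ0 i ≠ 0 := by
    by_contra hcon
    push Not at hcon
    apply hb0
    rw [hπ]
    exact Finset.sum_eq_zero (fun d hd => by rw [hcon d hd, mul_zero])
  have hj : Finsupp.weight w κ0 = j := hb (MvPolynomial.mem_support_iff.1 hκb)
  obtain ⟨u, ⟨N, f, hf⟩, hua⟩ := claim κ0 hκ0 a (by rw [hj]; exact ha)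
  obtain ⟨v, ⟨M, g, hg⟩, hvb⟩ := claim κ0 hκ0 b (by rw [hj]; exact hb)
  have hv0 : v ≠ 0 := by
    intro h
    apply hb0
    rw [hvb, h, mul_zero]
  have hxv : x * v = u := by
    apply mul_left_cancel₀ hκ0
    rw [← hua, ← hab, hvb]; ring
  refine ⟨f * Ũ ^ M, g * Ũ ^ N, ?_, ?_⟩
  · intro h
    have h1 := congrArg (Subtype.val) h
    rw [hcoe] at h1
    rw [map_mul, map_pow, hg] at h1
    have h2 : v * ev Ũ ^ M * ev Ũ ^ N ≠ 0 :=
      mul_ne_zero (mul_ne_zero hv0 (pow_ne_zero _ hU0)) (pow_ne_zero _ hU0)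
    exact h2 h1
  · apply Subtype.ext
    show x * ((MvPolynomial.aeval t0 (g * Ũ ^ N) : K0 𝒜 π) : K) =
      ((MvPolynomial.aeval t0 (f * Ũ ^ M) : K0 𝒜 π) : K)
    rw [hcoe, hcoe, map_mul, map_mul, map_pow, map_pow, hf, hg, ← hxv]
    ring

end

end Pool.Agent.Helper67.Bass
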